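import Pool.Agent.Helper23T.MoebM

/-!
# Holomorphic homeomorphisms in charts, and multipliers
-/

set_option autoImplicit false
set_option linter.unusedSectionVars false

open Set Filter Topology Metric
open scoped OnePoint

noncomputable section

namespace Pool.Agent.Helper23T

open Pool.Agent.H790R3.RB (CV hF ND sp pr hc pol HypTop Sink Attd PQ SP cr cr_smul_left cr_self)

/-- the local coordinate `w ↦ a + w`, or `w ↦ 1 / w` at infinity -/
def cht (a : OnePoint ℂ) (w : ℂ) : OnePoint ℂ :=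
  match a with
  | none => open Classical in if w = 0 then OnePoint.infty else OnePoint.some w⁻¹
  | some a => OnePoint.some (a + w)

/-- homogeneous coordinates of the chart -/
def chp (a : OnePoint ℂ) (w : ℂ) : ℂ × ℂ :=
  match a with
  | none => (1, w)
  | some a => (a + w, 1)

theorem pr_chp (a : OnePoint ℂ) (w : ℂ) : pr (chp a w) = cht a w := by
  induction a using OnePoint.rec with
  | infty =>
    show pr (1, w) = (open Classical in if w = 0 then OnePoint.infty else OnePoint.some w⁻¹)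
    by_cases h : w = 0
    · rw [if_pos h, Pool.Agent.H790R3.RB.SP.pr_zero h]
    · rw [if_neg h, Pool.Agent.H790R3.RB.SP.pr_ne h]
      simp only [one_div]
  | coe a =>
    show pr (a + w, 1) = OnePoint.some (a + w)
    rw [Pool.Agent.H790R3.RB.SP.pr_ne (by simp)]
    simp only [div_one]

theorem chp_ne (a : OnePoint ℂ) (w : ℂ) : chp a w ≠ 0 := by
  induction a using OnePoint.rec with
  | infty => exact fun h => one_ne_zero (congrArg Prod.fst h)
  | coe a => exact fun h => one_ne_zero (congrArg Prod.snd h)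

theorem cht_zero (a : OnePoint ℂ) : cht a 0 = a := by
  induction a using OnePoint.rec with
  | infty =>
    show (open Classical in if (0 : ℂ) = 0 then OnePoint.infty else OnePoint.some (0 : ℂ)⁻¹) = ∞
    rw [if_pos rfl]
  | coe a =>
    show OnePoint.some (a + 0) = _
    rw [add_zero]

theorem chp_analytic (a : OnePoint ℂ) (w : ℂ) : AnalyticAt ℂ (chp a) w := by
  induction a using OnePoint.rec with
  | infty => exact analyticAt_const.prod analyticAt_id
  | coe a => exact (analyticAt_const.add analyticAt_id).prod analyticAt_const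

theorem cht_cont (a : OnePoint ℂ) (w : ℂ) : ContinuousAt (cht a) w := by
  have h : cht a = fun w => pr (chp a w) := funext fun w => (pr_chp a w).symm
  rw [h]
  exact ContinuousAt.comp (Pool.Agent.H790R3.RB.SP.continuousAt_pr (chp_ne a w))
    (chp_analytic a w).continuousAt

theorem cht_inj (a : OnePoint ℂ) : Function.Injective (cht a) := by
  intro v w hvw
  rw [← pr_chp, ← pr_chp] at hvw
  have h := (Pool.Agent.H790R3.RB.SP.pr_eq_iff (chp_ne a v) (chp_ne a w)).1 hvw
  induction a using OnePoint.rec with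
  | infty =>
    unfold cr chp at h
    simp only at h
    linear_combination -h
  | coe a =>
    unfold cr chp at h
    simp only at h
    linear_combination h

/-- analytic curves in homogeneous coordinates -/
theorem cht_of_pr {q : ℂ → ℂ × ℂ} (hq : AnalyticAt ℂ q 0) (hq0 : q 0 ≠ 0) {b : OnePoint ℂ}
    (hb : pr (q 0) = b) : ∃ g : ℂ → ℂ, AnalyticAt ℂ g 0 ∧ g 0 = 0 ∧
      ∀ᶠ w in 𝓝 (0 : ℂ), pr (q w) = cht b (g w) := by
  have hq1 : AnalyticAt ℂ (fun w => (q w).1) 0 := analyticAt_fst.comp hq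
  have hq2 : AnalyticAt ℂ (fun w => (q w).2) 0 := analyticAt_snd.comp hq
  induction b using OnePoint.rec with
  | infty =>
    have h2 : (q 0).2 = 0 := by
      by_contra h
      rw [Pool.Agent.H790R3.RB.SP.pr_ne h] at hb
      exact OnePoint.coe_ne_infty _ hb
    have h1 : (q 0).1 ≠ 0 := fun h => hq0 (Prod.ext h h2)
    refine ⟨fun w => (q w).2 / (q w).1, hq2.div hq1 h1, by simp [h2], ?_⟩
    filter_upwards [hq1.continuousAt.eventually_ne h1] with w hw
    rw [← pr_chp]
    have h3 : q w ≠ 0 := fun h => hw (congrArg Prod.fst h)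
    refine (Pool.Agent.H790R3.RB.SP.pr_eq_iff h3 (chp_ne _ _)).2 ?_
    show (q w).1 * ((q w).2 / (q w).1) - (q w).2 * 1 = 0
    field_simp
    ring
  | coe b =>
    have h2 : (q 0).2 ≠ 0 := by
      intro h
      rw [Pool.Agent.H790R3.RB.SP.pr_zero h] at hb
      exact OnePoint.infty_ne_coe _ hb
    rw [Pool.Agent.H790R3.RB.SP.pr_ne h2] at hb
    have hb' := OnePoint.coe_injective hb
    refine ⟨fun w => (q w).1 / (q w).2 - b, (hq1.div hq2 h2).sub analyticAt_const,
      by simp only [hb', sub_self], ?_⟩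
    filter_upwards [hq2.continuousAt.eventually_ne h2] with w hw
    rw [Pool.Agent.H790R3.RB.SP.pr_ne hw]
    show _ = OnePoint.some (b + ((q w).1 / (q w).2 - b))
    rw [add_sub_cancel]

/-- holomorphic homeomorphisms in charts -/
theorem hol_chart {φ : OnePoint ℂ ≃ₜ OnePoint ℂ} {z : OnePoint ℂ} (h : HolAt φ z) :
    ∃ g : ℂ → ℂ, AnalyticAt ℂ g 0 ∧ g 0 = 0 ∧ deriv g 0 ≠ 0 ∧
      ∀ᶠ w in 𝓝 (0 : ℂ), φ (cht z w) = cht (φ z) (g w) := by
  obtain ⟨p, hp, hpz, Ψ, hΨ, hΨ0, hev⟩ := h
  -- rescaling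
  obtain ⟨lam, hlam, hlp⟩ : ∃ lam : ℂ, lam ≠ 0 ∧ p = lam • chp z 0 := by
    have h1 : pr p = pr (chp z 0) := by rw [pr_chp, cht_zero, hpz]
    have h2 := (Pool.Agent.H790R3.RB.SP.pr_eq_iff hp (chp_ne z 0)).1 h1
    exact (Pool.Agent.H790R3.RB.cr_eq_zero_iff hp (chp_ne z 0)).1 h2
  have hc : AnalyticAt ℂ (fun w => lam • chp z w) 0 :=
    analyticAt_const.fun_smul (chp_analytic z 0)
  have hcp : lam • chp z 0 = p := hlp.symm
  have hq : AnalyticAt ℂ (fun w => Ψ (lam • chp z w)) 0 :=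
    AnalyticAt.fun_comp (g := Ψ) (f := fun w => lam • chp z w) (by rw [hcp]; exact hΨ) hc
  have hchart : ∀ᶠ w in 𝓝 (0 : ℂ), φ (cht z w) = pr (Ψ (lam • chp z w)) := by
    have h1 : Tendsto (fun w => lam • chp z w) (𝓝 0) (𝓝 p) := by
      have := hc.continuousAt.tendsto
      rwa [hcp] at this
    filter_upwards [h1.eventually hev] with w hw
    rw [← hw]
    congr 1
    rw [← pr_chp]
    refine (Pool.Agent.H790R3.RB.SP.pr_eq_iff (chp_ne z w) (smul_ne_zero hlam (chp_ne z w))).2 ?_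
    rw [Pool.Agent.H790R3.RB.cr_smul_right, cr_self, mul_zero]
  have h0 : pr (Ψ (lam • chp z 0)) = φ z := by
    rw [← hchart.self_of_nhds, cht_zero]
  obtain ⟨g, hg, hg0, hgev⟩ := cht_of_pr hq (by rw [hcp]; exact hΨ0) h0
  have hfin : ∀ᶠ w in 𝓝 (0 : ℂ), φ (cht z w) = cht (φ z) (g w) := by
    filter_upwards [hchart, hgev] with w h1 h2
    rw [h1, h2]
  refine ⟨g, hg, hg0, ?_, hfin⟩
  obtain ⟨r, hr, hrb⟩ := Metric.eventually_nhds_iff_ball.1 (hfin.and hg.eventually_analyticAt)
  refine Helper202.Univ.deriv_ne_zero isOpen_ball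
    (fun w hw => (hrb w hw).2.differentiableAt.differentiableWithinAt) ?_ (mem_ball_self hr)
  intro v hv w hw hvw
  have h1 := (hrb v hv).1
  have h2 := (hrb w hw).1
  rw [hvw, ← h2] at h1
  exact cht_inj z (φ.injective h1)

/-- the multiplier of a periodic point -/
def HMul (f : OnePoint ℂ → OnePoint ℂ) (p : ℕ) (a : OnePoint ℂ) (ρ : ℂ) : Prop :=
  ∃ g : ℂ → ℂ, g 0 = 0 ∧ HasDerivAt g ρ 0 ∧ ∀ᶠ w in 𝓝 (0 : ℂ), f^[p] (cht a w) = cht a (g w)

/-- multipliers are preserved by conformal conjugacies -/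
theorem mul_conj {f f' : OnePoint ℂ → OnePoint ℂ} {φ : OnePoint ℂ ≃ₜ OnePoint ℂ}
    {V : Set (OnePoint ℂ)} (hV : IsOpen V) (hfV : ∀ z ∈ V, f z ∈ V)
    (hconj : ∀ z ∈ V, f' (φ z) = φ (f z)) (hhol : ∀ z ∈ V, HolAt φ z) {n : ℕ} {a : OnePoint ℂ}
    {ρ : ℂ} (ha : a ∈ V) (h : HMul f n a ρ) : HMul f' n (φ a) ρ := by
  obtain ⟨F, hF0, hFd, hF⟩ := h
  obtain ⟨g, hg, hg0, hgd, hgev⟩ := hol_chart (hhol a ha)
  have hgs : HasStrictDerivAt g (deriv g 0) 0 := hg.hasStrictDerivAt
  set k := hgs.localInverse g (deriv g 0) 0 hgd with hk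
  have hkd : HasStrictDerivAt k (deriv g 0)⁻¹ 0 := by
    have := hgs.to_localInverse hgd
    rw [hg0] at this
    exact this
  have hk0 : k 0 = 0 := by
    have h1 : ∀ᶠ w in 𝓝 (0 : ℂ), k (g w) = w :=
      (hgs.hasStrictFDerivAt_equiv hgd).eventually_left_inverse
    have := h1.self_of_nhds
    rwa [hg0] at this
  have hgk : ∀ᶠ v in 𝓝 (0 : ℂ), g (k v) = v := by
    have := (hgs.hasStrictFDerivAt_equiv hgd).eventually_right_inverse
    rw [hg0] at this
    exact this
  have hit : ∀ (m : ℕ) (z : OnePoint ℂ), z ∈ V → f'^[m] (φ z) = φ (f^[m] z) := by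
    intro m
    induction m with
    | zero => intro z _; rfl
    | succ m ih =>
      intro z hz
      rw [Function.iterate_succ_apply, Function.iterate_succ_apply, hconj z hz, ih _ (hfV z hz)]
  refine ⟨fun v => g (F (k v)), by simp only [hk0, hF0, hg0], ?_, ?_⟩
  · have h1 : HasDerivAt (fun v => F (k v)) (ρ * (deriv g 0)⁻¹) 0 := by
      have h2 : HasDerivAt F ρ (k 0) := by rw [hk0]; exact hFd
      exact h2.comp 0 hkd.hasDerivAt
    have h3 : HasDerivAt g (deriv g 0) (F (k 0)) := by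
      rw [hk0, hF0]
      exact hgs.hasDerivAt
    have h4 := h3.comp (0 : ℂ) h1
    refine h4.congr_deriv ?_
    field_simp
  · have hkc : Tendsto k (𝓝 0) (𝓝 0) := by
      have := hkd.hasDerivAt.continuousAt.tendsto
      rwa [hk0] at this
    have hFc : Tendsto F (𝓝 0) (𝓝 0) := by
      have := hFd.continuousAt.tendsto
      rwa [hF0] at this
    have hVn : ∀ᶠ w in 𝓝 (0 : ℂ), cht a w ∈ V := by
      have h1 := (cht_cont a 0).tendsto
      rw [cht_zero] at h1
      exact h1.eventually (hV.mem_nhds ha)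
    filter_upwards [hgk, hkc.eventually hgev, hkc.eventually hF, hkc.eventually hVn,
      (hFc.comp hkc).eventually hgev] with v h1 h2 h3 h4 h5
    rw [← h1, ← h2, hit n _ h4, h3, h1]
    exact h5

end Pool.Agent.Helper23T
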