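import Pool.Agent.H790R3.RB.TPQ
import Pool.Agent.H790R3.RB.TSP
import Pool.Agent.H790R3.RB.TMOB
import Pool.Agent.H790R3.RB.TFAM

/-!
# Closeness of rational maps with close coefficients
-/

set_option autoImplicit false
set_option linter.unusedSectionVars false

open Set Filter Topology Metric
open scoped OnePoint

noncomputable section

namespace Pool.Agent.Helper23T

open Pool.Agent.H790R3.RB (CV hF ND sp pr hc pol HypTop Sink Attd PQ SP)

variable {d : ℕ}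

/-- the denominator -/
def qd (y : CV d) (z : ℂ) : ℂ := (pol y 1).eval z

/-- the finite part of the sphere map -/
def fp (y : CV d) (z : ℂ) : ℂ := (pol y 0).eval z / (pol y 1).eval z

theorem sp_fin (y : CV d) {z : ℂ} (h : qd y z ≠ 0) : sp y z = (fp y z : ℂ) :=
  Pool.Agent.H790R3.RB.PQ.sp_eval y z h

theorem sp_pole (y : CV d) {z : ℂ} (h : qd y z = 0) : sp y z = ∞ := by
  have h1 : hc (z : OnePoint ℂ) = (z, 1) := rfl
  unfold sp
  rw [h1, Pool.Agent.H790R3.RB.PQ.hF_one]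
  exact Pool.Agent.H790R3.RB.SP.pr_zero h

theorem fin_of_sp {y : CV d} {z w : ℂ} (h : sp y z = (w : OnePoint ℂ)) : qd y z ≠ 0 ∧ fp y z = w := by
  have h0 : qd y z ≠ 0 := by
    intro h0
    rw [sp_pole y h0] at h
    exact OnePoint.infty_ne_coe w h
  refine ⟨h0, ?_⟩
  rw [sp_fin y h0] at h
  exact OnePoint.coe_injective h

theorem ev_contDiff (i : Fin 2) : ContDiff ℂ (⊤ : ℕ∞) (fun q : CV d × ℂ => (pol q.1 i).eval q.2) := by
  have h : (fun q : CV d × ℂ => (pol q.1 i).eval q.2) = fun q : CV d × ℂ =>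
      ∑ j : Fin (d + 1), q.1 (i, j) * (q.2 ^ (j : ℕ) * 1 ^ (d - (j : ℕ))) := by
    funext q
    exact Pool.Agent.H790R3.RB.PQ.pol_eval q.1 i q.2
  rw [h]
  apply ContDiff.sum
  intro j _
  apply ContDiff.mul
  · exact (contDiff_apply ℂ ℂ ((i, j) : Fin 2 × Fin (d + 1))).comp contDiff_fst
  · exact (contDiff_snd.pow _).mul contDiff_const

theorem fp_contDiffAt {q : CV d × ℂ} (h : qd q.1 q.2 ≠ 0) :
    ContDiffAt ℂ (⊤ : ℕ∞) (fun q : CV d × ℂ => fp q.1 q.2) q :=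
  (ev_contDiff 0).contDiffAt.div (ev_contDiff 1).contDiffAt h

theorem fp_smooth {y : CV d} {z : ℂ} (h : qd y z ≠ 0) : ContDiffAt ℂ (⊤ : ℕ∞) (fp y) z := by
  have h1 : ContDiffAt ℂ (⊤ : ℕ∞) (fun q : CV d × ℂ => fp q.1 q.2) (y, z) := fp_contDiffAt h
  exact h1.comp z (contDiffAt_const.prodMk contDiffAt_id)

theorem fp_diff {y : CV d} {z : ℂ} (h : qd y z ≠ 0) : DifferentiableAt ℂ (fp y) z :=
  (fp_smooth h).differentiableAt (by simp)

theorem qd_cont : Continuous (fun q : CV d × ℂ => qd q.1 q.2) := (ev_contDiff 1).continuous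

theorem fp_cont {q : CV d × ℂ} (h : qd q.1 q.2 ≠ 0) :
    ContinuousAt (fun q : CV d × ℂ => fp q.1 q.2) q := (fp_contDiffAt h).continuousAt

theorem deriv_cont {q : CV d × ℂ} (h : qd q.1 q.2 ≠ 0) :
    ContinuousAt (fun q : CV d × ℂ => deriv (fp q.1) q.2) q := by
  have h1 : ContDiffAt ℂ (⊤ : ℕ∞) (fderiv ℂ (fun q : CV d × ℂ => fp q.1 q.2)) q :=
    (fp_contDiffAt h).fderiv_right (by simp)
  have h2 : ContinuousAt (fun q : CV d × ℂ => fderiv ℂ (fun q : CV d × ℂ => fp q.1 q.2) q (0, 1)) q :=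
    (h1.clm_apply contDiffAt_const).continuousAt
  refine h2.congr ?_
  have h3 : ∀ᶠ p : CV d × ℂ in 𝓝 q, qd p.1 p.2 ≠ 0 := qd_cont.continuousAt.eventually_ne h
  filter_upwards [h3] with p hp
  have h4 : HasFDerivAt (fun q : CV d × ℂ => fp q.1 q.2)
      (fderiv ℂ (fun q : CV d × ℂ => fp q.1 q.2) (p.1, p.2)) (p.1, p.2) :=
    ((fp_contDiffAt hp).differentiableAt (by simp)).hasFDerivAt
  have h5 : HasDerivAt (fun z : ℂ => ((p.1, z) : CV d × ℂ)) ((0, 1) : CV d × ℂ) p.2 :=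
    (hasDerivAt_const p.2 p.1).prodMk (hasDerivAt_id p.2)
  have h6 := h4.comp_hasDerivAt p.2 h5
  have h7 : HasDerivAt (fp p.1) _ p.2 := h6
  exact h7.deriv.symm

/-- uniform closeness of the finite parts on compact sets -/
theorem ev_close (x : CV d) {K : Set ℂ} (hK : IsCompact K) (hq : ∀ z ∈ K, qd x z ≠ 0) {η : ℝ}
    (hη : 0 < η) : ∀ᶠ y in 𝓝 x, ∀ z ∈ K, qd y z ≠ 0 ∧ ‖fp y z - fp x z‖ < η ∧
      ‖deriv (fp y) z - deriv (fp x) z‖ < η := by
  refine hK.eventually_forall_of_forall_eventually (P := fun y z => qd y z ≠ 0 ∧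
    ‖fp y z - fp x z‖ < η ∧ ‖deriv (fp y) z - deriv (fp x) z‖ < η) fun z hz => ?_
  have h0 : qd (x, z).1 (x, z).2 ≠ 0 := hq z hz
  have h1 : ∀ᶠ p : CV d × ℂ in 𝓝 (x, z), qd p.1 p.2 ≠ 0 := qd_cont.continuousAt.eventually_ne h0
  have h2 : ContinuousAt (fun p : CV d × ℂ => ((x, p.2) : CV d × ℂ)) (x, z) :=
    (continuous_const.prodMk continuous_snd).continuousAt
  have h3 : ContinuousAt (fun p : CV d × ℂ => fp p.1 p.2 - fp x p.2) (x, z) := by
    refine (fp_cont h0).sub ?_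
    exact ContinuousAt.comp (f := fun p : CV d × ℂ => ((x, p.2) : CV d × ℂ))
      (g := fun q : CV d × ℂ => fp q.1 q.2) (fp_cont h0) h2
  have h4 : ContinuousAt (fun p : CV d × ℂ => deriv (fp p.1) p.2 - deriv (fp x) p.2) (x, z) := by
    refine (deriv_cont h0).sub ?_
    exact ContinuousAt.comp (f := fun p : CV d × ℂ => ((x, p.2) : CV d × ℂ))
      (g := fun q : CV d × ℂ => deriv (fp q.1) q.2) (deriv_cont h0) h2
  have h5 : ∀ᶠ p : CV d × ℂ in 𝓝 (x, z), ‖fp p.1 p.2 - fp x p.2‖ < η := by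
    refine h3.norm.eventually (gt_mem_nhds ?_)
    simpa using hη
  have h6 : ∀ᶠ p : CV d × ℂ in 𝓝 (x, z), ‖deriv (fp p.1) p.2 - deriv (fp x) p.2‖ < η := by
    refine h4.norm.eventually (gt_mem_nhds ?_)
    simpa using hη
  exact h1.and (h5.and h6)

theorem hF_cont2 : Continuous (fun q : CV d × (ℂ × ℂ) => hF q.1 q.2) :=
  (Pool.Agent.H790R3.RB.hF_contDiff d 1).continuous

theorem sp_joint (x : CV d) (hx : ND x) (z : OnePoint ℂ) :
    Tendsto (fun p : CV d × OnePoint ℂ => sp p.1 p.2) (𝓝 (x, z)) (𝓝 (sp x z)) := by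
  rw [nhds_prod_eq]
  induction z using OnePoint.rec with
  | coe z =>
    rw [OnePoint.nhds_coe_eq]
    have h1 : 𝓝 x ×ˢ Filter.map ((↑) : ℂ → OnePoint ℂ) (𝓝 z) =
        Filter.map (fun p : CV d × ℂ => (p.1, (p.2 : OnePoint ℂ))) (𝓝 x ×ˢ 𝓝 z) := by
      have := Filter.prod_map_map_eq (f₁ := 𝓝 x) (f₂ := 𝓝 z) (m₁ := id)
        (m₂ := ((↑) : ℂ → OnePoint ℂ))
      rw [Filter.map_id] at this
      exact this
    rw [h1, tendsto_map'_iff, ← nhds_prod_eq]
    have h0 : ((z, 1) : ℂ × ℂ) ≠ 0 := fun h => one_ne_zero (congrArg Prod.snd h)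
    have h2 : ContinuousAt (fun p : CV d × ℂ => pr (hF p.1 (p.2, 1))) (x, z) := by
      refine ContinuousAt.comp (f := fun p : CV d × ℂ => hF p.1 (p.2, 1)) (g := pr) ?_ ?_
      · exact Pool.Agent.H790R3.RB.SP.continuousAt_pr (fun h => h0 (hx _ h))
      · exact (hF_cont2.comp (continuous_fst.prodMk (continuous_snd.prodMk continuous_const))).continuousAt
    exact h2
  | infty =>
    rw [OnePoint.nhds_infty_eq, Filter.prod_sup]
    refine Tendsto.sup ?_ ?_
    · have h1 : 𝓝 x ×ˢ Filter.map ((↑) : ℂ → OnePoint ℂ) (coclosedCompact ℂ) =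
          Filter.map (fun p : CV d × ℂ => (p.1, (p.2 : OnePoint ℂ))) (𝓝 x ×ˢ coclosedCompact ℂ) := by
        have := Filter.prod_map_map_eq (f₁ := 𝓝 x) (f₂ := coclosedCompact ℂ) (m₁ := id)
          (m₂ := ((↑) : ℂ → OnePoint ℂ))
        rw [Filter.map_id] at this
        exact this
      rw [h1, tendsto_map'_iff, coclosedCompact_eq_cocompact, ← Metric.cobounded_eq_cocompact]
      have h0 : ((1, 0) : ℂ × ℂ) ≠ 0 := fun h => one_ne_zero (congrArg Prod.fst h)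
      have h2 : ContinuousAt (fun p : CV d × ℂ => pr (hF p.1 (1, p.2))) (x, 0) := by
        refine ContinuousAt.comp (f := fun p : CV d × ℂ => hF p.1 (1, p.2)) (g := pr) ?_ ?_
        · exact Pool.Agent.H790R3.RB.SP.continuousAt_pr (fun h => h0 (hx _ h))
        · exact (hF_cont2.comp (continuous_fst.prodMk (continuous_const.prodMk continuous_snd))).continuousAt
      have h3 : Tendsto (fun p : CV d × ℂ => (p.1, p.2⁻¹)) (𝓝 x ×ˢ Bornology.cobounded ℂ) (𝓝 (x, 0)) := by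
        rw [nhds_prod_eq]
        exact (tendsto_id.prodMap tendsto_inv₀_cobounded)
      have h4 := h2.tendsto.comp h3
      refine Tendsto.congr' ?_ h4
      have h5 : ∀ᶠ p : CV d × ℂ in 𝓝 x ×ˢ Bornology.cobounded ℂ, ND p.1 ∧ p.2 ≠ 0 :=
        (Pool.Agent.H790R3.RB.FAM.ND_open hx).prod_mk (Bornology.eventually_ne_cobounded (0 : ℂ))
      filter_upwards [h5] with p hp
      have e1 : ((1, p.2⁻¹) : ℂ × ℂ) ≠ 0 := fun h => one_ne_zero (congrArg Prod.fst h)
      show pr (hF p.1 (1, p.2⁻¹)) = sp p.1 (p.2 : OnePoint ℂ)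
      rw [← Pool.Agent.H790R3.RB.SP.sp_pr hp.1 e1]
      congr 1
      rw [Pool.Agent.H790R3.RB.SP.pr_ne (inv_ne_zero hp.2)]
      simp
    · have h0 : ((1, 0) : ℂ × ℂ) ≠ 0 := fun h => one_ne_zero (congrArg Prod.fst h)
      have h2 : ContinuousAt (fun y : CV d => pr (hF y (1, 0))) x := by
        refine ContinuousAt.comp (f := fun y : CV d => hF y (1, 0)) (g := pr) ?_ ?_
        · exact Pool.Agent.H790R3.RB.SP.continuousAt_pr (fun h => h0 (hx _ h))
        · exact (hF_cont2.comp (continuous_id.prodMk continuous_const)).continuousAt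
      have h3 : Tendsto (fun y : CV d => sp y (∞ : OnePoint ℂ)) (𝓝 x) (𝓝 (sp x ∞)) := h2.tendsto
      have h4 : 𝓝 x ×ˢ (pure (∞ : OnePoint ℂ)) = Filter.map (fun y : CV d => (y, (∞ : OnePoint ℂ))) (𝓝 x) := by
        exact Filter.prod_pure
      rw [h4, tendsto_map'_iff]
      exact h3

/-- images of compact sets under close maps -/
theorem ev_maps (x : CV d) (hx : ND x) {C O : Set (OnePoint ℂ)} (hC : IsCompact C) (hO : IsOpen O)
    (h : ∀ z ∈ C, sp x z ∈ O) : ∀ᶠ y in 𝓝 x, ∀ z ∈ C, sp y z ∈ O :=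
  hC.eventually_forall_of_forall_eventually (P := fun y z => sp y z ∈ O) fun z hz =>
    (sp_joint x hx z).eventually (hO.mem_nhds (h z hz))

end Pool.Agent.Helper23T
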