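import Mathlib

/-!
# Convergence of the coefficients of polynomials
-/

set_option autoImplicit false

open Filter Topology Polynomial

noncomputable section

namespace Pool.Agent.Helper23T

variable {α : Type} {l : Filter α}

/-- convergence of all coefficients -/
def CT (l : Filter α) (A : α → ℂ[X]) (B : ℂ[X]) : Prop :=
  ∀ j : ℕ, Tendsto (fun k => (A k).coeff j) l (𝓝 (B.coeff j))

theorem CT.mul {A A' : α → ℂ[X]} {B B' : ℂ[X]} (h : CT l A B) (h' : CT l A' B') :
    CT l (fun k => A k * A' k) (B * B') := by
  intro j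
  simp only [coeff_mul]
  exact tendsto_finsetSum _ fun p _ => (h p.1).mul (h' p.2)

theorem CT.sub {A A' : α → ℂ[X]} {B B' : ℂ[X]} (h : CT l A B) (h' : CT l A' B') :
    CT l (fun k => A k - A' k) (B - B') := by
  intro j
  simp only [coeff_sub]
  exact (h j).sub (h' j)

theorem CT.const (B : ℂ[X]) : CT l (fun _ => B) B := fun _ => tendsto_const_nhds

theorem CT.C {c : α → ℂ} {c0 : ℂ} (h : Tendsto c l (𝓝 c0)) :
    CT l (fun k => Polynomial.C (c k)) (Polynomial.C c0) := by
  intro j
  simp only [coeff_C]
  split_ifs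
  · exact h
  · exact tendsto_const_nhds

theorem CT.prod {ι : Type} {s : Finset ι} {A : ι → α → ℂ[X]} {B : ι → ℂ[X]}
    (h : ∀ i ∈ s, CT l (A i) (B i)) : CT l (fun k => ∏ i ∈ s, A i k) (∏ i ∈ s, B i) := by
  classical
  induction s using Finset.induction_on with
  | empty => simpa using CT.const (1 : ℂ[X])
  | insert a s ha ih =>
    simp only [Finset.prod_insert ha]
    exact (h a (Finset.mem_insert_self a s)).mul (ih fun i hi => h i (Finset.mem_insert_of_mem hi))

theorem CT.sum {ι : Type} {s : Finset ι} {A : ι → α → ℂ[X]} {B : ι → ℂ[X]}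
    (h : ∀ i ∈ s, CT l (A i) (B i)) : CT l (fun k => ∑ i ∈ s, A i k) (∑ i ∈ s, B i) := by
  intro j
  simp only [finsetSum_coeff]
  exact tendsto_finsetSum _ fun i hi => h i hi j

/-- convergence of polynomials of bounded degree which converge at sufficiently many points -/
theorem ct_of_eval {d : ℕ} {A : α → ℂ[X]} {B : ℂ[X]} (hA : ∀ k, (A k).natDegree ≤ d)
    (hB : B.natDegree ≤ d) {w : Fin (d + 1) → ℂ} (hw : Function.Injective w)
    {v : α → Fin (d + 1) → ℂ} (hv : ∀ i, Tendsto (fun k => v k i) l (𝓝 (w i)))
    (he : ∀ i, Tendsto (fun k => (A k).eval (v k i)) l (𝓝 (B.eval (w i)))) : CT l A B := by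
  have hBi : B = Lagrange.interpolate Finset.univ w (fun i => B.eval (w i)) := by
    refine Lagrange.eq_interpolate_of_eval_eq _ hw.injOn ?_ fun i _ => rfl
    rw [Finset.card_univ, Fintype.card_fin]
    exact lt_of_le_of_lt (degree_le_natDegree) (by exact_mod_cast Nat.lt_succ_of_le hB)
  have hinj : ∀ᶠ k in l, Function.Injective (v k) := by
    have h1 : ∀ i j : Fin (d + 1), i ≠ j → ∀ᶠ k in l, v k i ≠ v k j := by
      intro i j hij
      have h2 : w i - w j ≠ 0 := sub_ne_zero.2 fun h => hij (hw h)
      filter_upwards [((hv i).sub (hv j)).eventually_ne h2] with k hk h3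
      exact hk (sub_eq_zero.2 h3)
    have h2 : ∀ᶠ k in l, ∀ i j : Fin (d + 1), i ≠ j → v k i ≠ v k j := by
      rw [eventually_all]
      intro i
      rw [eventually_all]
      intro j
      by_cases hij : i = j
      · exact Eventually.of_forall fun k h => absurd hij h
      · filter_upwards [h1 i j hij] with k hk _ using hk
    filter_upwards [h2] with k hk i j hij
    by_contra hne
    exact hk i j hne hij
  have hAi : ∀ᶠ k in l, A k = Lagrange.interpolate Finset.univ (v k) (fun i => (A k).eval (v k i)) := by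
    filter_upwards [hinj] with k hk
    refine Lagrange.eq_interpolate_of_eval_eq _ hk.injOn ?_ fun i _ => rfl
    rw [Finset.card_univ, Fintype.card_fin]
    exact lt_of_le_of_lt (degree_le_natDegree) (by exact_mod_cast Nat.lt_succ_of_le (hA k))
  have key : CT l (fun k => Lagrange.interpolate Finset.univ (v k) (fun i => (A k).eval (v k i)))
      (Lagrange.interpolate Finset.univ w (fun i => B.eval (w i))) := by
    simp only [Lagrange.interpolate_apply]
    refine CT.sum fun i _ => ?_
    refine (CT.C (he i)).mul ?_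
    unfold Lagrange.basis
    refine CT.prod fun j hj => ?_
    unfold Lagrange.basisDivisor
    have hij : w i - w j ≠ 0 := sub_ne_zero.2 fun h => (Finset.mem_erase.1 hj).1 (hw h).symm
    refine (CT.C (((hv i).sub (hv j)).inv₀ hij)).mul ?_
    exact (CT.const X).sub (CT.C (hv j))
  intro j
  have h1 := key j
  rw [← hBi] at h1
  refine h1.congr' ?_
  filter_upwards [hAi] with k hk
  rw [← hk]

end Pool.Agent.Helper23T
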