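import Pool.Agent.Helper23S.Pull

/-!
# Pulling back Beltrami coefficients by a sphere map
-/

set_option autoImplicit false
set_option linter.unusedSectionVars false

open MeasureTheory Set Filter Topology Metric
open scoped OnePoint

noncomputable section

namespace Pool.Agent.Helper23T

open Pool.Agent.Split938 (dbar)
open Pool.Agent.Helper23S

/-- local composition lemma -/
theorem comp_hol {ρ κ L : ℝ} (hρ : 0 < ρ) (hκ : κ ≤ 1 / 40) (hL : 8 * ρ ≤ L) {μ ν : ℂ → ℂ}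
    (ha : Adm ρ κ μ) (ha' : Adm ρ κ ν) {e e' : ℂ ≃ₜ ℂ} (he : ⇑e = ph ρ L μ)
    (he' : ⇑e' = ph ρ L ν) (hes' : ContDiff ℝ (⊤ : ℕ∞) e'.symm) {u : ℂ → ℂ} {z : ℂ}
    (hu : DifferentiableAt ℝ u z) (hz : z ∈ Qo L) (huz : u z ∈ Qo L)
    (hrel : (dd u z + μ (u z) * (starRingEnd ℂ) (dbar u z)) * ν z =
      dbar u z + μ (u z) * (starRingEnd ℂ) (dd u z)) :
    DifferentiableAt ℂ (fun w => e (u (e'.symm w))) (e' z) := by
  have hκ1 : κ < 1 := by linarith
  have hL4 : 4 * ρ ≤ L := by linarith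
  have hL0 : 0 < L := by linarith
  have hd := (ph_smooth hρ hL4 ha hκ1).differentiable (by simp)
  have hd' := (ph_smooth hρ hL4 ha' hκ1).differentiable (by simp)
  have hds := hes'.differentiable (by simp)
  set w := e' z with hw
  have hwz : e'.symm w = z := e'.symm_apply_apply z
  have hH : HasFDerivAt (fun w => e (u (e'.symm w))) ((fderiv ℝ (ph ρ L μ) (u z)).comp
      ((fderiv ℝ u z).comp (fderiv ℝ e'.symm w))) w := by
    have h1 : HasFDerivAt e (fderiv ℝ (ph ρ L μ) (u z)) (u (e'.symm w)) := by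
      rw [he, hwz]
      exact (hd _).hasFDerivAt
    have h2 : HasFDerivAt u (fderiv ℝ u z) (e'.symm w) := by
      rw [hwz]
      exact hu.hasFDerivAt
    exact h1.comp w (h2.comp w (hds w).hasFDerivAt)
  set p := 1 + aL L μ (u z) with hp
  set p' := 1 + aL L ν z with hp'
  have hp'0 : p' ≠ 0 := one_add_ne hρ hL4 ha' hκ1 z
  set P := dd u z + μ (u z) * (starRingEnd ℂ) (dbar u z) with hP
  have hchain : ∀ v, fderiv ℝ (ph ρ L μ) (u z) (fderiv ℝ u z v) =
      p * (P * (v + ν z * (starRingEnd ℂ) v)) := by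
    intro v
    have e1 : mL L μ (u z) = μ (u z) := mt_T hL0 _ huz
    rw [ph_apply hρ hL4 ha hκ1, fderiv_eq u z v, e1, ← hp]
    congr 1
    simp only [map_add, map_mul, Complex.conj_conj]
    linear_combination (-(starRingEnd ℂ) v) * hrel
  have e1' : mL L ν z = ν z := mt_T hL0 _ hz
  have hinv : ∀ x, p' * (fderiv ℝ e'.symm w x + ν z * (starRingEnd ℂ) (fderiv ℝ e'.symm w x)) = x := by
    intro x
    rw [hp', ← e1', ← ph_apply hρ hL4 ha' hκ1]
    have h5 : HasFDerivAt (fun w => ph ρ L ν (e'.symm w))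
        ((fderiv ℝ (ph ρ L ν) z).comp (fderiv ℝ e'.symm w)) w := by
      have h7 : HasFDerivAt (ph ρ L ν) (fderiv ℝ (ph ρ L ν) z) (e'.symm w) := by
        rw [hwz]; exact (hd' z).hasFDerivAt
      exact h7.comp _ (hds _).hasFDerivAt
    have h6 : (fun w => ph ρ L ν (e'.symm w)) = id := by
      funext w
      rw [← he']
      exact e'.apply_symm_apply w
    rw [h6] at h5
    have h7 := h5.unique (hasFDerivAt_id _)
    exact congrArg (fun A : ℂ →L[ℝ] ℂ => A x) h7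
  have hfin : HasDerivAt (fun w => e (u (e'.symm w))) (p * P / p') w := by
    rw [hasDerivAt_iff_hasFDerivAt]
    refine hasFDerivAt_of_restrictScalars ℝ hH ?_
    apply ContinuousLinearMap.ext
    intro x
    have h8 : ((fderiv ℝ (ph ρ L μ) (u z)).comp
      ((fderiv ℝ u z).comp (fderiv ℝ e'.symm w))) x =
        fderiv ℝ (ph ρ L μ) (u z) (fderiv ℝ u z (fderiv ℝ e'.symm w x)) := rfl
    rw [h8, hchain]
    have h9 := hinv x
    set v := fderiv ℝ e'.symm w x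
    have h10 : v + ν z * (starRingEnd ℂ) v = x / p' := by
      rw [eq_div_iff hp'0]
      linear_combination h9
    rw [h10]
    simp
    field_simp
  exact hfin.differentiableAt

/-- quasiregular sphere maps with a trapping region `V` (which contains a neighbourhood of infinity
and the poles `Z`), which are holomorphic off the set `A`, where orbits enter `V`; `u` is the finite
part of `G` -/
structure QM (ρ κ : ℝ) (A V : Set ℂ) (Z : Finset ℂ) (u : ℂ → ℂ) (G : OnePoint ℂ → OnePoint ℂ) :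
    Prop where
  ρ1 : 1 ≤ ρ
  κ0 : 0 < κ
  κ1 : κ ≤ 1 / 40
  cont : Continuous G
  pole : ∀ z ∈ Z, G z = ∞
  npole : ∀ z ∉ Z, G z = (u z : ℂ)
  Aclosed : IsClosed A
  Vopen : IsOpen V
  far : ∀ z : ℂ, ρ ≤ ‖z‖ → z ∈ V
  ZV : ∀ z ∈ Z, z ∈ V
  AV : ∀ z ∈ A, z ∉ V
  mV : ∀ z ∈ V, z ∉ Z → u z ∈ V
  mA : ∀ z ∈ A, u z ∈ V
  sm : ∀ z ∉ Z, ContDiffAt ℝ (⊤ : ℕ∞) u z
  holo : ∀ z ∉ Z, z ∉ A → dbar u z = 0
  dil : ∀ z ∉ Z, ‖dbar u z‖ ≤ κ * ‖dd u z‖
  crit : ∀ c ∉ Z, dd u c = 0 → ∀ (j : ℕ) (w : ℂ), G^[j] c = w → w ∉ A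

open Classical in
/-- the pullbacks of zero -/
def pbm (Z : Finset ℂ) (u : ℂ → ℂ) : ℕ → ℂ → ℂ
  | 0, _ => 0
  | K + 1, z => if z ∈ Z then 0 else (dbar u z + pbm Z u K (u z) * (starRingEnd ℂ) (dd u z)) /
      (dd u z + pbm Z u K (u z) * (starRingEnd ℂ) (dbar u z))

section

variable {ρ κ : ℝ} {A V : Set ℂ} {Z : Finset ℂ} {u : ℂ → ℂ} {G : OnePoint ℂ → OnePoint ℂ}

theorem pbm_succ_mem {z : ℂ} (hz : z ∈ Z) (K : ℕ) : pbm Z u (K + 1) z = 0 := by
  show (if z ∈ Z then (0 : ℂ) else _) = _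
  rw [if_pos hz]

theorem pbm_succ {z : ℂ} (hz : z ∉ Z) (K : ℕ) : pbm Z u (K + 1) z =
    (dbar u z + pbm Z u K (u z) * (starRingEnd ℂ) (dd u z)) /
      (dd u z + pbm Z u K (u z) * (starRingEnd ℂ) (dbar u z)) := by
  show (if z ∈ Z then (0 : ℂ) else _) = _
  rw [if_neg hz]

theorem QM.AZ (h : QM ρ κ A V Z u G) {z : ℂ} (hz : z ∈ A) : z ∉ Z := fun hZ => h.AV z hz (h.ZV z hZ)

theorem pbm_V (h : QM ρ κ A V Z u G) (K : ℕ) : ∀ z ∈ V, pbm Z u K z = 0 := by
  induction K with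
  | zero => intro z _; rfl
  | succ K ih =>
    intro z hz
    by_cases hZ : z ∈ Z
    · exact pbm_succ_mem hZ K
    · rw [pbm_succ hZ, h.holo z hZ (fun hA => h.AV z hA hz), ih (u z) (h.mV z hz hZ)]
      simp

theorem pbm_A (h : QM ρ κ A V Z u G) (K : ℕ) {z : ℂ} (hz : z ∈ A) :
    pbm Z u (K + 1) z = dbar u z / dd u z := by
  rw [pbm_succ (h.AZ hz), pbm_V h K _ (h.mA z hz)]
  simp

theorem pbm_notA (h : QM ρ κ A V Z u G) (K : ℕ) {z : ℂ} (hz : z ∉ A) (hZ : z ∉ Z) :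
    pbm Z u (K + 1) z = pbm Z u K (u z) * (starRingEnd ℂ) (dd u z) / dd u z := by
  rw [pbm_succ hZ, h.holo z hZ hz]
  simp

theorem pbm_bdd (h : QM ρ κ A V Z u G) (K : ℕ) : ∀ z, ‖pbm Z u K z‖ ≤ κ := by
  have hκ := h.κ0.le
  induction K with
  | zero => intro z; show ‖(0 : ℂ)‖ ≤ κ; rwa [norm_zero]
  | succ K ih =>
    intro z
    by_cases hZ : z ∈ Z
    · rw [pbm_succ_mem hZ, norm_zero]
      exact hκ
    by_cases hz : z ∈ A
    · rw [pbm_A h K hz, norm_div]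
      by_cases h0 : dd u z = 0
      · rw [h0, norm_zero, div_zero]
        exact hκ
      · rw [div_le_iff₀ (norm_pos_iff.2 h0)]
        exact h.dil z hZ
    · rw [pbm_notA h K hz hZ, mul_div_assoc, norm_mul]
      exact (mul_le_of_le_one_right (norm_nonneg _) (norm_conj_div _)).trans (ih _)

theorem Z_nhds (Z : Finset ℂ) {z : ℂ} (hz : z ∉ Z) : ∀ᶠ w in 𝓝 z, w ∉ Z :=
  (Z.finite_toSet.isClosed.isOpen_compl).mem_nhds hz

theorem pbm_near (h : QM ρ κ A V Z u G) (K : ℕ) : ∀ z : ℂ,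
    (∀ (j : ℕ) (w : ℂ), G^[j] z = w → w ∉ A) → ∀ᶠ w in 𝓝 z, pbm Z u K w = 0 := by
  induction K with
  | zero => intro z _; exact Eventually.of_forall fun _ => rfl
  | succ K ih =>
    intro z hz
    have h0 : z ∉ A := hz 0 z rfl
    by_cases hZ : z ∈ Z
    · filter_upwards [h.Vopen.mem_nhds (h.ZV z hZ)] with w hw
      exact pbm_V h (K + 1) w hw
    · have h1 : ∀ᶠ w in 𝓝 z, w ∉ A := h.Aclosed.isOpen_compl.mem_nhds h0
      have h2 := ih (u z) (fun j w hj => by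
        refine hz (j + 1) w ?_
        rw [Function.iterate_succ_apply, h.npole z hZ, hj])
      have h3 := (h.sm z hZ).continuousAt.eventually h2
      filter_upwards [h1, h3, Z_nhds Z hZ] with w hw1 hw2 hw3
      rw [pbm_notA h K hw1 hw3, hw2]
      simp

theorem dd_smoothAt {z : ℂ} (hu : ContDiffAt ℝ (⊤ : ℕ∞) u z) :
    ContDiffAt ℝ (⊤ : ℕ∞) (dd u) z ∧ ContDiffAt ℝ (⊤ : ℕ∞) (dbar u) z := by
  have h1 : ContDiffAt ℝ (⊤ : ℕ∞) (fderiv ℝ u) z := hu.fderiv_right (by simp)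
  constructor
  · exact ((h1.clm_apply contDiffAt_const).sub
      (contDiffAt_const.mul (h1.clm_apply contDiffAt_const))).div_const 2
  · exact ((h1.clm_apply contDiffAt_const).add
      (contDiffAt_const.mul (h1.clm_apply contDiffAt_const))).div_const 2

theorem den_ne (h : QM ρ κ A V Z u G) (K : ℕ) {z : ℂ} (hZ : z ∉ Z) (h0 : dd u z ≠ 0) :
    dd u z + pbm Z u K (u z) * (starRingEnd ℂ) (dbar u z) ≠ 0 := by
  intro h1
  have hκ := h.κ0.le
  have h2 : ‖dd u z‖ = ‖pbm Z u K (u z)‖ * ‖dbar u z‖ := by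
    rw [eq_neg_of_add_eq_zero_left h1, norm_neg, norm_mul, RCLike.norm_conj]
  have h3 := pbm_bdd h K (u z)
  have h4 := h.dil z hZ
  have h5 := norm_pos_iff.2 h0
  have h6 : ‖pbm Z u K (u z)‖ * ‖dbar u z‖ ≤ κ * (κ * ‖dd u z‖) :=
    mul_le_mul h3 h4 (norm_nonneg _) hκ
  have h7 := h.κ1
  have h8 : κ * κ ≤ 1 / 1600 := by nlinarith
  have h9 : κ * κ * ‖dd u z‖ ≤ 1 / 1600 * ‖dd u z‖ := mul_le_mul_of_nonneg_right h8 h5.le
  linarith

theorem pbm_smooth (h : QM ρ κ A V Z u G) (K : ℕ) : ContDiff ℝ (⊤ : ℕ∞) (pbm Z u K) := by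
  induction K with
  | zero => exact contDiff_const
  | succ K ih =>
    rw [contDiff_iff_contDiffAt]
    intro z
    by_cases hV : z ∈ V
    · refine (contDiffAt_const (c := (0 : ℂ))).congr_of_eventuallyEq ?_
      filter_upwards [h.Vopen.mem_nhds hV] with w hw
      exact pbm_V h (K + 1) w hw
    have hZ : z ∉ Z := fun hz => hV (h.ZV z hz)
    by_cases h0 : dd u z = 0
    · refine (contDiffAt_const (c := (0 : ℂ))).congr_of_eventuallyEq ?_
      filter_upwards [pbm_near h (K + 1) z (h.crit z hZ h0)] with w hw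
      exact hw
    · have hden := den_ne h K hZ h0
      have hc : ContDiffAt ℝ (⊤ : ℕ∞) (fun z => pbm Z u K (u z)) z :=
        ih.contDiffAt.comp z (h.sm z hZ)
      obtain ⟨h1, h2⟩ := dd_smoothAt (h.sm z hZ)
      have h3 : ContDiffAt ℝ (⊤ : ℕ∞) (fun z => (starRingEnd ℂ) (dd u z)) z :=
        Complex.conjCLE.contDiff.contDiffAt.comp z h1
      have h4 : ContDiffAt ℝ (⊤ : ℕ∞) (fun z => (starRingEnd ℂ) (dbar u z)) z :=
        Complex.conjCLE.contDiff.contDiffAt.comp z h2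
      have h5 : ContDiffAt ℝ (⊤ : ℕ∞)
          (fun z => dbar u z + pbm Z u K (u z) * (starRingEnd ℂ) (dd u z)) z :=
        h2.add (hc.mul h3)
      have h6 : ContDiffAt ℝ (⊤ : ℕ∞)
          (fun z => dd u z + pbm Z u K (u z) * (starRingEnd ℂ) (dbar u z)) z :=
        h1.add (hc.mul h4)
      have h7 := h5.mul (h6.inv hden)
      refine h7.congr_of_eventuallyEq ?_
      filter_upwards [Z_nhds Z hZ] with w hw
      rw [pbm_succ hw]
      exact div_eq_mul_inv _ _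

theorem pbm_adm (h : QM ρ κ A V Z u G) (K : ℕ) : Adm ρ κ (pbm Z u K) where
  smooth := pbm_smooth h K
  supp := fun z hz => pbm_V h K z (h.far z hz)
  bdd := pbm_bdd h K

/-- the pullbacks are eventually constant at each point -/
theorem pbm_ev (h : QM ρ κ A V Z u G) (z : ℂ) :
    ∃ N, ∀ K, N ≤ K → pbm Z u K z = pbm Z u N z := by
  by_cases hz : ∃ (j : ℕ) (w : ℂ), G^[j] z = w ∧ w ∈ A
  · obtain ⟨j, w, hj, hw⟩ := hz
    refine ⟨j + 1, ?_⟩
    induction j generalizing z with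
    | zero =>
      intro K hK
      obtain ⟨K, rfl⟩ : ∃ K', K = K' + 1 := ⟨K - 1, by omega⟩
      have hz' : z = w := OnePoint.coe_injective hj
      subst hz'
      rw [pbm_A h K hw, pbm_A h 0 hw]
    | succ j ih =>
      intro K hK
      obtain ⟨K, rfl⟩ : ∃ K', K = K' + 1 := ⟨K - 1, by omega⟩
      by_cases hZ : z ∈ Z
      · rw [pbm_succ_mem hZ, pbm_succ_mem hZ]
      · rw [Function.iterate_succ_apply, h.npole z hZ] at hj
        have h1 := ih (u z) hj K (by omega)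
        rw [pbm_succ hZ, pbm_succ hZ, h1]
  · push Not at hz
    refine ⟨0, fun K _ => ?_⟩
    have h1 := (pbm_near h K z (fun j w hj => hz j w hj)).self_of_nhds
    rw [h1]
    rfl

/-- the relation between the coefficients -/
theorem pbm_rel (h : QM ρ κ A V Z u G) (K : ℕ) {z : ℂ} (hZ : z ∉ Z) :
    (dd u z + pbm Z u K (u z) * (starRingEnd ℂ) (dbar u z)) * pbm Z u (K + 1) z =
      dbar u z + pbm Z u K (u z) * (starRingEnd ℂ) (dd u z) := by
  by_cases h0 : dd u z = 0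
  · have h4 := h.dil z hZ
    rw [h0, norm_zero, mul_zero] at h4
    have h10 : dbar u z = 0 := norm_le_zero_iff.1 h4
    rw [h0, h10]
    simp
  · rw [pbm_succ hZ, mul_div_cancel₀ _ (den_ne h K hZ h0)]

end

end Pool.Agent.Helper23T
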