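import Pool.Agent.Helper23T.DynM
import Pool.Agent.Helper23T.CloM
import Pool.Agent.Helper23T.PullM
import Pool.Agent.Helper23S.Cut
import Pool.Agent.W440.RE.Genm

/-!
# Interpolation between a rational map near its attracting cycles and a hyperbolic map
-/

set_option autoImplicit false
set_option linter.unusedSectionVars false

open Set Filter Topology Metric
open scoped OnePoint

noncomputable section

namespace Pool.Agent.Helper23T

open Pool.Agent.H790R3.RB (CV hF ND sp pr hc pol HypTop Sink Attd PQ SP)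
open Pool.Agent.Split938 (dbar)
open Pool.Agent.Helper23S

variable {d : ℕ}

/-- the cutoff function -/
def th (χ : ℂ → ℝ) (a b : ℝ) (z : ℂ) : ℝ := Real.smoothTransition ((b - χ z) / (b - a))

section

variable {χ : ℂ → ℝ} {a b : ℝ}

theorem th_smooth (hχ : ContDiff ℝ (⊤ : ℕ∞) χ) (a b : ℝ) : ContDiff ℝ (⊤ : ℕ∞) (th χ a b) := by
  refine Real.smoothTransition.contDiff.comp ?_
  exact (contDiff_const.sub hχ).div_const _

theorem thC_smooth (hχ : ContDiff ℝ (⊤ : ℕ∞) χ) (a b : ℝ) :
    ContDiff ℝ (⊤ : ℕ∞) (fun z => (th χ a b z : ℂ)) :=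
  Complex.ofRealCLM.contDiff.comp (th_smooth hχ a b)

theorem th_one (hab : a < b) {z : ℂ} (hz : χ z ≤ a) : th χ a b z = 1 := by
  apply Real.smoothTransition.one_of_one_le
  rw [le_div_iff₀ (by linarith)]
  linarith

theorem th_zero (hab : a < b) {z : ℂ} (hz : b ≤ χ z) : th χ a b z = 0 := by
  apply Real.smoothTransition.zero_of_nonpos
  exact div_nonpos_of_nonpos_of_nonneg (by linarith) (by linarith)

theorem th_mem (z : ℂ) : 0 ≤ th χ a b z ∧ th χ a b z ≤ 1 :=
  ⟨Real.smoothTransition.nonneg _, Real.smoothTransition.le_one _⟩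

end

/-- the interpolation -/
def itq (χ : ℂ → ℝ) (a b : ℝ) (f g : ℂ → ℂ) (z : ℂ) : ℂ := f z + (th χ a b z : ℂ) * (g z - f z)

section

variable {χ : ℂ → ℝ} {a b : ℝ} {f g : ℂ → ℂ}

theorem itq_in (hab : a < b) {z : ℂ} (hz : χ z ≤ a) : itq χ a b f g z = g z := by
  unfold itq
  rw [th_one hab hz]
  push_cast
  ring

theorem itq_out (hab : a < b) {z : ℂ} (hz : b ≤ χ z) : itq χ a b f g z = f z := by
  unfold itq
  rw [th_zero hab hz]
  push_cast
  ring

theorem itq_near_in (hχ : Continuous χ) (hab : a < b) {z : ℂ} (hz : χ z < a) :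
    itq χ a b f g =ᶠ[𝓝 z] g := by
  filter_upwards [hχ.continuousAt.eventually (gt_mem_nhds hz)] with w hw
  exact itq_in hab (le_of_lt hw)

theorem itq_near_out (hχ : Continuous χ) (hab : a < b) {z : ℂ} (hz : b < χ z) :
    itq χ a b f g =ᶠ[𝓝 z] f := by
  filter_upwards [hχ.continuousAt.eventually (lt_mem_nhds hz)] with w hw
  exact itq_out hab (le_of_lt hw)

/-- the derivatives of the interpolation -/
theorem itq_der (hχ : ContDiff ℝ (⊤ : ℕ∞) χ) {z f' g' : ℂ} (hf : HasDerivAt f f' z)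
    (hg : HasDerivAt g g' z) :
    dd (itq χ a b f g) z = f' + th χ a b z * (g' - f') +
      dd (fun z => (th χ a b z : ℂ)) z * (g z - f z) ∧
    dbar (itq χ a b f g) z = dbar (fun z => (th χ a b z : ℂ)) z * (g z - f z) := by
  have h1 : HasFDerivAt (fun z => (th χ a b z : ℂ)) (fderiv ℝ (fun z => (th χ a b z : ℂ)) z) z :=
    ((thC_smooth hχ a b).differentiable (by simp) z).hasFDerivAt
  have h2 : HasFDerivAt (fun z => g z - f z) (fderiv ℝ (fun z => g z - f z) z) z :=
    ((hg.sub hf).differentiableAt.restrictScalars ℝ).hasFDerivAt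
  have h3 : HasFDerivAt f (fderiv ℝ f z) z := (hf.differentiableAt.restrictScalars ℝ).hasFDerivAt
  have h4 := h3.add (h1.mul h2)
  have h5 : ∀ v, fderiv ℝ (itq χ a b f g) z v = f' * v +
      ((th χ a b z : ℂ) * ((g' - f') * v) +
        (g z - f z) * fderiv ℝ (fun z => (th χ a b z : ℂ)) z v) := by
    intro v
    have h6 : fderiv ℝ (itq χ a b f g) z = _ := h4.fderiv
    rw [h6]
    have h7 : fderiv ℝ (fun z => g z - f z) z v = (g' - f') * v := hol_fderiv (hg.sub hf) v
    rw [← h7, ← hol_fderiv hf v]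
    rfl
  constructor
  · unfold dd Pool.Agent.Split938.dz
    rw [h5, h5]
    linear_combination (-f' / 2 - (th χ a b z : ℂ) * (g' - f') / 2) * Complex.I_sq
  · unfold dbar
    rw [h5, h5]
    linear_combination (f' / 2 + (th χ a b z : ℂ) * (g' - f') / 2) * Complex.I_sq

end

/-- the data of the surgery -/
structure Data (x : CV d) (U0 : Set (OnePoint ℂ)) (Z : Finset ℂ) (χ : ℂ → ℝ) (a0 b0 ρ : ℝ) :
    Prop where
  d2 : 2 ≤ d
  nd : ND x
  Uo : IsOpen U0
  inf : ∞ ∈ U0
  Zr : ∀ z, z ∈ Z ↔ qd x z = 0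
  ZU : ∀ z ∈ Z, (z : OnePoint ℂ) ∈ U0
  tr : ∀ z ∈ closure U0, sp x z ∈ U0
  at' : ∀ z ∈ U0, Attd (sp x) z
  χs : ContDiff ℝ (⊤ : ℕ∞) χ
  χ1 : ∀ z : ℂ, (z : OnePoint ℂ) ∈ U0 → χ z = 1
  χ0 : ∀ z : ℂ, 0 < χ z → sp x z ∈ U0
  apos : 0 < a0
  ab : a0 < b0
  b1 : b0 < 1
  nc : ∀ z, a0 ≤ χ z → χ z ≤ b0 → deriv (fp x) z ≠ 0
  ρ1 : 1 ≤ ρ
  far : ∀ z : ℂ, ρ ≤ ‖z‖ → (z : OnePoint ℂ) ∈ U0

open Classical in
/-- the cut map -/
def Gm (x : CV d) (Z : Finset ℂ) (u : ℂ → ℂ) (z : OnePoint ℂ) : OnePoint ℂ :=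
  match z with
  | none => sp x ∞
  | some z => if z ∈ Z then ∞ else (u z : OnePoint ℂ)

/-- the set where the function is large -/
def Dm (χ : ℂ → ℝ) (a0 : ℝ) : Set (OnePoint ℂ) := ((↑) '' {z : ℂ | χ z < a0})ᶜ

theorem mem_Dm {χ : ℂ → ℝ} {a0 : ℝ} {z : ℂ} : (z : OnePoint ℂ) ∈ Dm χ a0 ↔ a0 ≤ χ z := by
  unfold Dm
  rw [mem_compl_iff]
  constructor
  · intro h
    by_contra hc
    exact h ⟨z, not_le.1 hc, rfl⟩
  · rintro h ⟨w, hw, hwz⟩
    rw [OnePoint.coe_injective hwz] at hw
    exact absurd h (not_le.2 hw)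

theorem inf_Dm {χ : ℂ → ℝ} {a0 : ℝ} : (∞ : OnePoint ℂ) ∈ Dm χ a0 := by
  rintro ⟨w, -, hwz⟩
  exact OnePoint.coe_ne_infty w hwz

theorem Dm_closed {χ : ℂ → ℝ} (hχ : Continuous χ) (a0 : ℝ) : IsClosed (Dm χ a0) := by
  rw [← isOpen_compl_iff, Dm, compl_compl]
  exact OnePoint.isOpenMap_coe _ (isOpen_lt hχ continuous_const)

open Classical in
/-- the value of the function at the first entrance -/
def entq (χ : ℂ → ℝ) (a0 : ℝ) (H : OnePoint ℂ → OnePoint ℂ) (c : ℂ) : ℝ :=
  if h : ∃ j : ℕ, H^[j] c ∈ Dm χ a0 then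
    (if h2 : ∃ w : ℂ, H^[Nat.find h] c = w then χ h2.choose else 0) else 0

section

variable {x : CV d} {U0 : Set (OnePoint ℂ)} {Z : Finset ℂ} {χ : ℂ → ℝ} {a0 b0 ρ : ℝ}

theorem Data.comp (D : Data x U0 Z χ a0 b0 ρ) : IsCompact {z : ℂ | χ z ≤ b0} := by
  refine Metric.isCompact_of_isClosed_isBounded (isClosed_le D.χs.continuous continuous_const) ?_
  refine (Metric.isBounded_ball (x := (0 : ℂ)) (r := ρ)).subset ?_
  intro z hz
  rw [mem_ball_zero_iff]
  by_contra hc
  have h1 := D.χ1 z (D.far z (not_lt.1 hc))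
  have h2 := D.b1
  have h3 : χ z ≤ b0 := hz
  linarith

theorem Data.qd_ne (D : Data x U0 Z χ a0 b0 ρ) {z : ℂ} (hz : χ z ≤ b0) : qd x z ≠ 0 := by
  intro h0
  have h1 := D.χ1 z (D.ZU z ((D.Zr z).2 h0))
  have h2 := D.b1
  linarith

theorem Data.UD (D : Data x U0 Z χ a0 b0 ρ) : U0 ⊆ Dm χ a0 := by
  intro z hz
  induction z using OnePoint.rec with
  | infty => exact inf_Dm
  | coe z =>
    rw [mem_Dm, D.χ1 z hz]
    linarith [D.ab, D.b1]

theorem Data.spD (D : Data x U0 Z χ a0 b0 ρ) : ∀ z ∈ Dm χ a0, sp x z ∈ U0 := by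
  intro z hz
  induction z using OnePoint.rec with
  | infty => exact D.tr _ (subset_closure D.inf)
  | coe z =>
    rw [mem_Dm] at hz
    exact D.χ0 z (lt_of_lt_of_le D.apos hz)

/-- the number of critical points -/
theorem crit_card {y : CV d} (hd : 2 ≤ d) (hy : ND y) :
    ∃ Cr : Finset ℂ, Cr.card ≤ 2 * d ∧ ∀ c, qd y c ≠ 0 → deriv (fp y) c = 0 → c ∈ Cr := by
  classical
  set W := Pool.Agent.W757.QR.wn (pol y 0) (pol y 1) with hW
  have hW0 : W ≠ 0 := Pool.Agent.W440.RE.GENM.wn_ne hd y hy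
  have hdeg : W.natDegree ≤ 2 * d := by
    have h0 := Pool.Agent.H790R3.RB.PQ.pol_natDegree y 0
    have h1 := Pool.Agent.H790R3.RB.PQ.pol_natDegree y 1
    rw [hW]
    unfold Pool.Agent.W757.QR.wn
    refine (Polynomial.natDegree_sub_le _ _).trans (max_le ?_ ?_)
    · refine Polynomial.natDegree_mul_le.trans ?_
      have := (pol y 0).natDegree_derivative_le
      omega
    · refine Polynomial.natDegree_mul_le.trans ?_
      have := (pol y 1).natDegree_derivative_le
      omega
  refine ⟨W.roots.toFinset, (Multiset.toFinset_card_le _).trans ((W.card_roots').trans hdeg),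
    fun c hq hc => ?_⟩
  rw [Multiset.mem_toFinset, Polynomial.mem_roots hW0, Polynomial.IsRoot]
  have h1 : HasDerivAt (fp y) (((Polynomial.derivative (pol y 0)).eval c * (pol y 1).eval c -
      (pol y 0).eval c * (Polynomial.derivative (pol y 1)).eval c) / ((pol y 1).eval c) ^ 2) c :=
    ((pol y 0).hasDerivAt c).div ((pol y 1).hasDerivAt c) hq
  rw [h1.deriv] at hc
  rcases div_eq_zero_iff.1 hc with h2 | h2
  · rw [hW]
    unfold Pool.Agent.W757.QR.wn
    rw [Polynomial.eval_sub, Polynomial.eval_mul, Polynomial.eval_mul, h2]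
  · exact absurd (pow_eq_zero_iff (two_ne_zero) |>.1 h2) hq

/-- **Interpolation.** -/
theorem cutM (D : Data x U0 Z χ a0 b0 ρ) {κ : ℝ} (hκ0 : 0 < κ) (hκ : κ ≤ 1 / 40) :
    ∀ᶠ y in 𝓝 x, ND y → (∀ z ∈ Dm χ a0, sp y z ∈ U0) ∧ ∃ a b : ℝ, a0 < a ∧ a < b ∧ b < b0 ∧
      QM ρ κ {z | a ≤ χ z ∧ χ z ≤ b} {z : ℂ | (z : OnePoint ℂ) ∈ U0} Z
        (itq χ a b (fp x) (fp y)) (Gm x Z (itq χ a b (fp x) (fp y))) ∧
      (∀ z ∈ U0, Gm x Z (itq χ a b (fp x) (fp y)) z = sp x z) ∧
      (∀ z ∉ Dm χ a0, Gm x Z (itq χ a b (fp x) (fp y)) z = sp y z) ∧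
      ∀ z ∈ Dm χ a0, Gm x Z (itq χ a b (fp x) (fp y)) z ∈ U0 := by
  have hχc := D.χs.continuous
  have hcomp := D.comp
  have hab := D.ab
  have hb1 := D.b1
  have ha0 := D.apos
  -- the shells
  set M : ℝ := 2 * (d : ℝ) + 1 with hM
  have hM0 : 0 < M := by positivity
  set A : ℕ → ℝ := fun i => a0 + (b0 - a0) * ((i + 1 / 3) / M) with hA
  set B : ℕ → ℝ := fun i => a0 + (b0 - a0) * ((i + 2 / 3) / M) with hB
  have hA0 : ∀ i, a0 < A i := by
    intro i
    have : 0 < (b0 - a0) * (((i : ℝ) + 1 / 3) / M) := mul_pos (by linarith) (by positivity)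
    rw [hA]
    simp only
    linarith
  have hAB : ∀ i, A i < B i := by
    intro i
    rw [hA, hB]
    simp only
    have h1 : ((i : ℝ) + 1 / 3) / M < ((i : ℝ) + 2 / 3) / M := by gcongr; norm_num
    have h2 : 0 < b0 - a0 := by linarith
    nlinarith
  have hB1 : ∀ i, i < 2 * d + 1 → B i < b0 := by
    intro i hi
    have h1 : (i : ℝ) + 1 ≤ M := by
      have : i + 1 ≤ 2 * d + 1 := hi
      have h2 : ((i + 1 : ℕ) : ℝ) ≤ ((2 * d + 1 : ℕ) : ℝ) := by exact_mod_cast this
      push_cast at h2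
      exact h2
    rw [hB]
    simp only
    have h2 : ((i : ℝ) + 2 / 3) / M < 1 := by
      rw [div_lt_one hM0]
      linarith
    have h3 : 0 < b0 - a0 := by linarith
    nlinarith
  -- bounds for the cutoffs
  have hbd : ∀ i : ℕ, ∃ C, 0 ≤ C ∧ ∀ z, χ z ≤ b0 →
      ‖dd (fun z => (th χ (A i) (B i) z : ℂ)) z‖ ≤ C ∧
        ‖dbar (fun z => (th χ (A i) (B i) z : ℂ)) z‖ ≤ C := by
    intro i
    obtain ⟨h1, h2⟩ : Continuous (dd (fun z => (th χ (A i) (B i) z : ℂ))) ∧
        Continuous (dbar (fun z => (th χ (A i) (B i) z : ℂ))) := by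
      constructor <;> rw [continuous_iff_continuousAt] <;> intro z
      · exact (dd_smoothAt (thC_smooth D.χs (A i) (B i)).contDiffAt).1.continuousAt
      · exact (dd_smoothAt (thC_smooth D.χs (A i) (B i)).contDiffAt).2.continuousAt
    obtain ⟨C1, hC1⟩ := hcomp.exists_bound_of_continuousOn h1.continuousOn
    obtain ⟨C2, hC2⟩ := hcomp.exists_bound_of_continuousOn h2.continuousOn
    refine ⟨max 0 (max C1 C2), le_max_left _ _, fun z hz => ⟨?_, ?_⟩⟩
    · exact (hC1 z hz).trans ((le_max_left _ _).trans (le_max_right _ _))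
    · exact (hC2 z hz).trans ((le_max_right _ _).trans (le_max_right _ _))
  choose Cb hCb0 hCb using hbd
  set Cs : ℝ := 1 + ∑ i ∈ Finset.range (2 * d + 1), Cb i with hCs
  have hCs1 : 1 ≤ Cs := by
    have : 0 ≤ ∑ i ∈ Finset.range (2 * d + 1), Cb i := Finset.sum_nonneg fun i _ => hCb0 i
    linarith
  have hCi : ∀ i < 2 * d + 1, Cb i ≤ Cs := by
    intro i hi
    have := Finset.single_le_sum (f := Cb) (fun i _ => hCb0 i) (Finset.mem_range.2 hi)
    linarith
  -- lower bound of the derivative on the shell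
  set S : Set ℂ := {z | a0 ≤ χ z ∧ χ z ≤ b0} with hS
  have hSc : IsCompact S := by
    have : S = {z : ℂ | χ z ≤ b0} ∩ {z | a0 ≤ χ z} := by
      ext z
      exact and_comm
    rw [this]
    exact hcomp.inter_right (isClosed_le continuous_const hχc)
  have hder : ∃ m > 0, ∀ z ∈ S, m ≤ ‖deriv (fp x) z‖ := by
    rcases S.eq_empty_or_nonempty with h0 | h0
    · refine ⟨1, one_pos, fun z hz => ?_⟩
      rw [h0] at hz
      exact absurd hz (notMem_empty z)
    · have h1 : ContinuousOn (fun z => ‖deriv (fp x) z‖) S := by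
        intro z hz
        have h2 : ContinuousAt (fun q : CV d × ℂ => deriv (fp q.1) q.2) (x, z) :=
          deriv_cont (D.qd_ne hz.2)
        have h3 : ContinuousAt (fun z => deriv (fp x) z) z :=
          ContinuousAt.comp (f := fun z : ℂ => ((x, z) : CV d × ℂ))
            (g := fun q : CV d × ℂ => deriv (fp q.1) q.2) h2
            (continuous_const.prodMk continuous_id).continuousAt
        exact h3.norm.continuousWithinAt
      obtain ⟨z0, hz0, hmin⟩ := hSc.exists_isMinOn h0 h1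
      exact ⟨_, norm_pos_iff.2 (D.nc z0 hz0.1 hz0.2), fun z hz => hmin hz⟩
  obtain ⟨m, hm0, hm⟩ := hder
  -- the neighbourhood of the image of the shell
  have hVo : IsOpen {z : ℂ | (z : OnePoint ℂ) ∈ U0} := D.Uo.preimage OnePoint.continuous_coe
  obtain ⟨δ, hδ0, hδ⟩ : ∃ δ > 0, ∀ z ∈ S, ∀ w, ‖w - fp x z‖ < δ → (w : OnePoint ℂ) ∈ U0 := by
    have h1 : IsCompact (fp x '' S) := hSc.image_of_continuousOn fun z hz =>
      (fp_diff (D.qd_ne hz.2)).continuousAt.continuousWithinAt
    have h2 : fp x '' S ⊆ {z : ℂ | (z : OnePoint ℂ) ∈ U0} := by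
      rintro _ ⟨z, hz, rfl⟩
      have h3 := D.χ0 z (lt_of_lt_of_le ha0 hz.1)
      rw [sp_fin x (D.qd_ne hz.2)] at h3
      exact h3
    obtain ⟨δ, hδ, hsub⟩ := h1.exists_thickening_subset_open hVo h2
    refine ⟨δ, hδ, fun z hz w hw => ?_⟩
    apply hsub
    rw [mem_thickening_iff]
    exact ⟨fp x z, ⟨z, hz, rfl⟩, by rwa [dist_eq_norm]⟩
  -- the closeness
  set η : ℝ := min δ (κ * m / (8 * Cs)) with hη
  have hη0 : 0 < η := lt_min hδ0 (by positivity)
  have hηδ : η ≤ δ := min_le_left _ _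
  have hηC : η * Cs ≤ κ * m / 8 := by
    have h1 : η ≤ κ * m / (8 * Cs) := min_le_right _ _
    rw [le_div_iff₀ (by positivity)] at h1
    linarith
  have hηs : η ≤ κ * m / 8 := by nlinarith
  have e1 := ev_close x hcomp (fun z hz => D.qd_ne hz) hη0
  have e2 := ev_maps x D.nd (Dm_closed hχc a0).isCompact D.Uo D.spD
  filter_upwards [e1, e2] with y hy1 hy2 hynd
  -- the choice of the shell
  classical
  obtain ⟨Cr, hCrc, hCrm⟩ := crit_card D.d2 hynd
  obtain ⟨i, hiM, hi⟩ : ∃ i < 2 * d + 1, ∀ c ∈ Cr,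
      i ≠ ⌊(entq χ a0 (sp y) c - a0) / (b0 - a0) * M⌋₊ := by
    by_contra hc
    push Not at hc
    have h1 : Finset.range (2 * d + 1) ⊆
        Cr.image fun c => ⌊(entq χ a0 (sp y) c - a0) / (b0 - a0) * M⌋₊ := by
      intro i hi
      obtain ⟨c, hc1, hc2⟩ := hc i (Finset.mem_range.1 hi)
      exact Finset.mem_image.2 ⟨c, hc1, hc2.symm⟩
    have h2 := (Finset.card_le_card h1).trans Finset.card_image_le
    rw [Finset.card_range] at h2
    omega
  set a := A i with ha
  set b := B i with hb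
  have ha0' : a0 < a := hA0 i
  have hab' : a < b := hAB i
  have hbb : b < b0 := hB1 i hiM
  set u := itq χ a b (fp x) (fp y) with hu
  set G := Gm x Z u with hG
  have hfl : ∀ t : ℝ, a ≤ t → t ≤ b → i = ⌊(t - a0) / (b0 - a0) * M⌋₊ := by
    intro t h1 h2
    have h3 : 0 < b0 - a0 := by linarith
    symm
    rw [Nat.floor_eq_iff (by
      have : 0 ≤ t - a0 := by linarith
      positivity)]
    rw [ha, hA] at h1
    rw [hb, hB] at h2
    simp only at h1 h2
    have h4 : ((i : ℝ) + 1 / 3) / M ≤ (t - a0) / (b0 - a0) := by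
      rw [le_div_iff₀ h3]
      linarith
    have h5 : (t - a0) / (b0 - a0) ≤ ((i : ℝ) + 2 / 3) / M := by
      rw [div_le_iff₀ h3]
      linarith
    rw [div_le_iff₀ hM0] at h4
    rw [le_div_iff₀ hM0] at h5
    constructor <;> linarith
  -- elementary properties of the cut map
  have hqy : ∀ z, χ z ≤ b0 → qd y z ≠ 0 := fun z hz => (hy1 z hz).1
  have hZχ : ∀ z ∈ Z, χ z = 1 := fun z hz => D.χ1 z (D.ZU z hz)
  have hZn : ∀ z, χ z ≤ b0 → z ∉ Z := by
    intro z hz hZ
    have := hZχ z hZ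
    linarith
  have hqx : ∀ z, z ∉ Z → qd x z ≠ 0 := fun z hz h => hz ((D.Zr z).2 h)
  have hGinf : G ∞ = sp x ∞ := rfl
  have hGZ : ∀ z ∈ Z, G z = ∞ := by
    intro z hz
    show (if z ∈ Z then (∞ : OnePoint ℂ) else (u z : OnePoint ℂ)) = ∞
    rw [if_pos hz]
  have hGn : ∀ z ∉ Z, G z = (u z : ℂ) := by
    intro z hz
    show (if z ∈ Z then (∞ : OnePoint ℂ) else (u z : OnePoint ℂ)) = _
    rw [if_neg hz]
  have hGout : ∀ z : ℂ, b ≤ χ z → G z = sp x z := by
    intro z hz
    by_cases hZ : z ∈ Z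
    · rw [hGZ z hZ, sp_pole x ((D.Zr z).1 hZ)]
    · rw [hGn z hZ, sp_fin x (hqx z hZ), hu, itq_out hab' hz]
  have hGin : ∀ z : ℂ, χ z ≤ a → G z = sp y z := by
    intro z hz
    rw [hGn z (hZn z (by linarith)), sp_fin y (hqy z (by linarith)), hu, itq_in hab' hz]
  have hGU : ∀ z ∈ U0, G z = sp x z := by
    intro z hz
    induction z using OnePoint.rec with
    | infty => exact hGinf
    | coe z => exact hGout z (by rw [D.χ1 z hz]; linarith)
  have hGDm : ∀ z ∈ Dm χ a0, G z ∈ U0 := by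
    intro z hz
    induction z using OnePoint.rec with
    | infty => rw [hGinf]; exact D.tr _ (subset_closure D.inf)
    | coe z =>
      rw [mem_Dm] at hz
      rcases le_or_gt b (χ z) with h1 | h1
      · rw [hGout z h1]
        exact D.χ0 z (by linarith)
      · rw [hGn z (hZn z (by linarith))]
        refine hδ z ⟨hz, by linarith⟩ _ ?_
        have e : u z - fp x z = (th χ a b z : ℂ) * (fp y z - fp x z) := by
          rw [hu]
          unfold itq
          ring
        rw [e, norm_mul, Complex.norm_real, Real.norm_eq_abs, abs_of_nonneg (th_mem z).1]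
        have h2 := (hy1 z (by show χ z ≤ b0; linarith)).2.1
        exact (mul_le_of_le_one_left (norm_nonneg _) (th_mem z).2).trans_lt (h2.trans_le hηδ)
  have hGH : ∀ z ∉ Dm χ a0, G z = sp y z := by
    intro z hz
    induction z using OnePoint.rec with
    | infty => exact absurd inf_Dm hz
    | coe z =>
      rw [mem_Dm, not_le] at hz
      exact hGin z (by linarith)
  -- smoothness
  have hsm : ∀ z ∉ Z, ContDiffAt ℝ (⊤ : ℕ∞) u z := by
    intro z hz
    have h1 : ContDiffAt ℝ (⊤ : ℕ∞) (fp x) z := (fp_smooth (hqx z hz)).restrict_scalars ℝ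
    rcases lt_or_ge b (χ z) with h2 | h2
    · exact h1.congr_of_eventuallyEq (itq_near_out hχc hab' h2)
    · have h3 : ContDiffAt ℝ (⊤ : ℕ∞) (fp y) z :=
        (fp_smooth (hqy z (by linarith))).restrict_scalars ℝ
      exact h1.add ((thC_smooth D.χs a b).contDiffAt.mul (h3.sub h1))
  -- holomorphy off the shell
  have hhol : ∀ z ∉ Z, z ∉ {z | a ≤ χ z ∧ χ z ≤ b} → dbar u z = 0 := by
    intro z hz hzA
    rw [mem_ofPred_eq, not_and_or, not_le, not_le] at hzA
    rcases hzA with h1 | h1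
    · rw [dbar_congr (itq_near_in hχc hab' h1)]
      exact hol_dbar (fp_diff (hqy z (by linarith))).hasDerivAt
    · rw [dbar_congr (itq_near_out hχc hab' h1)]
      exact hol_dbar (fp_diff (hqx z hz)).hasDerivAt
  -- estimates in the shell
  have hshell : ∀ z, a ≤ χ z → χ z ≤ b → m / 2 ≤ ‖dd u z‖ ∧ ‖dbar u z‖ ≤ κ * m / 8 := by
    intro z h1 h2
    have hzb : χ z ≤ b0 := by linarith
    obtain ⟨hq, hc1, hc2⟩ := hy1 z hzb
    obtain ⟨e3, e4⟩ := itq_der (a := a) (b := b) D.χs (fp_diff (D.qd_ne hzb)).hasDerivAt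
      (fp_diff hq).hasDerivAt
    have h3 := hCb i z hzb
    have h4 := hCi i hiM
    constructor
    · rw [hu, e3]
      have h5 : ‖dd (fun z => (th χ a b z : ℂ)) z * (fp y z - fp x z)‖ ≤ Cs * η := by
        rw [norm_mul]
        exact mul_le_mul (h3.1.trans h4) hc1.le (norm_nonneg _) (by linarith)
      have h6 : ‖(th χ a b z : ℂ) * (deriv (fp y) z - deriv (fp x) z)‖ ≤ η := by
        rw [norm_mul, Complex.norm_real, Real.norm_eq_abs, abs_of_nonneg (th_mem z).1]
        exact (mul_le_of_le_one_left (norm_nonneg _) (th_mem z).2).trans hc2.le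
      have h7 := hm z ⟨by linarith, hzb⟩
      have h8 : ‖deriv (fp x) z‖ ≤ ‖deriv (fp x) z + th χ a b z * (deriv (fp y) z - deriv (fp x) z) +
        dd (fun z => (th χ a b z : ℂ)) z * (fp y z - fp x z)‖ +
          ‖(th χ a b z : ℂ) * (deriv (fp y) z - deriv (fp x) z)‖ +
          ‖dd (fun z => (th χ a b z : ℂ)) z * (fp y z - fp x z)‖ := by
        have e : deriv (fp x) z = (deriv (fp x) z + th χ a b z * (deriv (fp y) z - deriv (fp x) z) +
          dd (fun z => (th χ a b z : ℂ)) z * (fp y z - fp x z)) -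
          th χ a b z * (deriv (fp y) z - deriv (fp x) z) -
          dd (fun z => (th χ a b z : ℂ)) z * (fp y z - fp x z) := by ring
        conv_lhs => rw [e]
        exact (norm_sub_le _ _).trans (add_le_add (norm_sub_le _ _) le_rfl)
      have h9 : κ * m / 8 ≤ m / 8 := by nlinarith
      nlinarith
    · rw [hu, e4, norm_mul]
      calc ‖dbar (fun z => (th χ a b z : ℂ)) z‖ * ‖fp y z - fp x z‖ ≤ Cs * η :=
            mul_le_mul (h3.2.trans h4) hc1.le (norm_nonneg _) (by linarith)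
        _ ≤ κ * m / 8 := by linarith
  -- continuity
  have hGc : Continuous G := by
    rw [continuous_iff_continuousAt]
    have hspc : Continuous (sp x) := Pool.Agent.H790R3.RB.SP.sp_cont D.nd
    have hout : ∀ z : OnePoint ℂ, z ∉ ((↑) '' {z : ℂ | χ z ≤ b} : Set (OnePoint ℂ)) →
        ContinuousAt G z := by
      intro z hz
      have hcl : IsClosed ((↑) '' {z : ℂ | χ z ≤ b} : Set (OnePoint ℂ)) := by
        have h1 : IsCompact {z : ℂ | χ z ≤ b} :=
          hcomp.of_isClosed_subset (isClosed_le hχc continuous_const) fun z (hz : χ z ≤ b) =>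
            hz.trans hbb.le
        exact (h1.image OnePoint.continuous_coe).isClosed
      have h2 : G =ᶠ[𝓝 z] sp x := by
        filter_upwards [hcl.isOpen_compl.mem_nhds hz] with w hw
        induction w using OnePoint.rec with
        | infty => exact hGinf
        | coe w =>
          refine hGout w ?_
          by_contra hc
          exact hw ⟨w, (not_le.1 hc).le, rfl⟩
      exact (hspc.continuousAt).congr h2.symm
    intro z
    induction z using OnePoint.rec with
    | infty =>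
      refine hout _ ?_
      rintro ⟨w, -, hw⟩
      exact OnePoint.coe_ne_infty w hw
    | coe z =>
      by_cases hz : χ z ≤ b
      · rw [OnePoint.continuousAt_coe]
        have hZ := hZn z (by linarith)
        have h1 : ContinuousAt (fun w : ℂ => (u w : OnePoint ℂ)) z :=
          ContinuousAt.comp (g := fun w : ℂ => (w : OnePoint ℂ))
            OnePoint.continuous_coe.continuousAt (hsm z hZ).continuousAt
        refine h1.congr ?_
        filter_upwards [Z_nhds Z hZ] with w hw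
        exact (hGn w hw).symm
      · refine hout _ ?_
        rintro ⟨w, hw, hwz⟩
        rw [OnePoint.coe_injective hwz] at hw
        exact hz hw
  refine ⟨hy2, a, b, ha0', hab', hbb, ⟨D.ρ1, hκ0, hκ, hGc, hGZ, hGn, ?_, hVo, D.far, D.ZU, ?_, ?_, ?_,
    hsm, hhol, ?_, ?_⟩, hGU, hGH, hGDm⟩
  · exact (isClosed_le continuous_const hχc).inter (isClosed_le hχc continuous_const)
  · rintro z ⟨-, hz2⟩ hzV
    have := D.χ1 z hzV
    linarith
  · intro z hz hZ
    have h1 := D.tr z (subset_closure hz)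
    rw [sp_fin x (hqx z hZ)] at h1
    have h2 : u z = fp x z := itq_out hab' (by rw [D.χ1 z hz]; linarith)
    show ((u z : ℂ) : OnePoint ℂ) ∈ U0
    rw [h2]
    exact h1
  · rintro z ⟨hz1, hz2⟩
    have h1 := hGDm z (mem_Dm.2 (by linarith))
    rw [hGn z (hZn z (by linarith))] at h1
    exact h1
  · intro z hZ
    by_cases hz : z ∈ {z | a ≤ χ z ∧ χ z ≤ b}
    · obtain ⟨h1, h2⟩ := hshell z hz.1 hz.2
      nlinarith
    · rw [hhol z hZ hz, norm_zero]
      positivity
  · -- the critical orbits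
    intro c hZ hc j w hj hw
    have hwD : (w : OnePoint ℂ) ∈ Dm χ a0 := mem_Dm.2 (by linarith [hw.1])
    have hwU : (w : OnePoint ℂ) ∉ U0 := by
      intro h
      have := D.χ1 w h
      linarith [hw.2]
    have hUst : ∀ z ∈ U0, ∀ k : ℕ, G^[k] z ∈ U0 := by
      intro z hz k
      induction k with
      | zero => exact hz
      | succ k ih =>
        rw [Function.iterate_succ_apply']
        exact hGDm _ (D.UD ih)
    have hcA : ¬ (a ≤ χ c ∧ χ c ≤ b) := by
      intro h
      have := (hshell c h.1 h.2).1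
      rw [hc, norm_zero] at this
      linarith
    -- the orbit cannot be in the trapping set before
    have hbefore : ∀ k < j, G^[k] c ∉ Dm χ a0 := by
      intro k hk hkD
      have h1 := hUst _ (hGDm _ hkD) (j - (k + 1))
      rw [← Function.iterate_succ_apply' G k, ← Function.iterate_add_apply] at h1
      rw [show j - (k + 1) + (k + 1) = j by omega, hj] at h1
      exact hwU h1
    rcases Nat.eq_zero_or_pos j with h0 | h0
    · subst h0
      have : (c : OnePoint ℂ) = w := hj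
      rw [OnePoint.coe_injective this] at hcA
      exact hcA hw
    · have hcD := hbefore 0 h0
      have hcχ : χ c < a0 := by
        have h1 : (c : OnePoint ℂ) ∉ Dm χ a0 := hcD
        rw [mem_Dm, not_le] at h1
        exact h1
      have hcC : c ∈ Cr := by
        refine hCrm c (hqy c (by linarith)) ?_
        rw [← hc, dd_congr (itq_near_in hχc hab' (by linarith))]
        exact (hol_dd (fp_diff (hqy c (by linarith))).hasDerivAt).symm
      have hag : ∀ k ≤ j, G^[k] c = (sp y)^[k] c := by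
        intro k
        induction k with
        | zero => intro _; rfl
        | succ k ih =>
          intro hk
          rw [Function.iterate_succ_apply', Function.iterate_succ_apply', ← ih (by omega)]
          exact hGH _ (hbefore k (by omega))
      have hex : ∃ k : ℕ, (sp y)^[k] c ∈ Dm χ a0 := ⟨j, by rw [← hag j le_rfl, hj]; exact hwD⟩
      have hfind : Nat.find hex = j := by
        rw [Nat.find_eq_iff]
        refine ⟨by rw [← hag j le_rfl, hj]; exact hwD, fun k hk => ?_⟩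
        rw [← hag k hk.le]
        exact hbefore k hk
      have hent : entq χ a0 (sp y) c = χ w := by
        unfold entq
        rw [dif_pos hex]
        have h2 : ∃ w : ℂ, (sp y)^[Nat.find hex] c = w := ⟨w, by rw [hfind, ← hag j le_rfl, hj]⟩
        rw [dif_pos h2]
        have h3 : (sp y)^[Nat.find hex] c = ((h2.choose : ℂ) : OnePoint ℂ) := h2.choose_spec
        have h5 : (sp y)^[Nat.find hex] c = (w : OnePoint ℂ) := by rw [hfind, ← hag j le_rfl, hj]
        rw [OnePoint.coe_injective (h3.symm.trans h5)]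
      apply hi c hcC
      rw [hent]
      exact hfl _ hw.1 hw.2

end

end Pool.Agent.Helper23T
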