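import Pool.Agent.Helper23T.Top
import Pool.Agent.Helper23S.Weak

/-!
# Dynamics of the cut map
-/

set_option autoImplicit false
set_option linter.unusedSectionVars false

open Set Filter Topology Metric
open scoped OnePoint

noncomputable section

namespace Pool.Agent.Helper23T

open Pool.Agent.H790R3.RB (HypTop Sink Attd)
open Pool.Agent.Helper23S (WAtt)

variable {F H G : OnePoint ℂ → OnePoint ℂ} {U0 Dm : Set (OnePoint ℂ)}

theorem attd_watt {c : OnePoint ℂ} (h : Attd G c) : WAtt G c := by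
  obtain ⟨n, a, ⟨hn, hfix, U, hU, hUV⟩, ht⟩ := h
  refine ⟨a, n, hn, hfix, ⟨U, hU, fun w hw => ?_⟩, ht⟩
  rw [tendsto_def]
  intro V hV
  filter_upwards [hUV V hV] with k hk
  exact hk w hw

/-- iterates in a common invariant set -/
theorem iter_eq {S : Set (OnePoint ℂ)} (hS : ∀ z ∈ S, F z ∈ S) (hGF : ∀ z ∈ S, G z = F z)
    {z : OnePoint ℂ} (hz : z ∈ S) (k : ℕ) : G^[k] z = F^[k] z ∧ F^[k] z ∈ S := by
  induction k with
  | zero => exact ⟨rfl, hz⟩
  | succ k ih =>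
    rw [Function.iterate_succ_apply', Function.iterate_succ_apply', ih.1]
    exact ⟨hGF _ ih.2, hS _ ih.2⟩

/-- iterates until the first entrance -/
theorem iter_eq_of (hGH : ∀ z ∉ Dm, G z = H z) {z : OnePoint ℂ} (k : ℕ)
    (h : ∀ l < k, H^[l] z ∉ Dm) : G^[k] z = H^[k] z := by
  induction k with
  | zero => rfl
  | succ k ih =>
    rw [Function.iterate_succ_apply', Function.iterate_succ_apply', ih fun l hl => h l (by omega)]
    exact hGH _ (h k (by omega))

/-- points of the trapping set are attracted for the cut map -/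
theorem attd_in (hU : IsOpen U0) (h1 : ∀ z ∈ closure U0, F z ∈ U0)
    (h2 : ∀ z ∈ U0, Attd F z) (hGF : ∀ z ∈ U0, G z = F z) {z : OnePoint ℂ} (hz : z ∈ U0) :
    Attd G z := by
  have hinv : ∀ z ∈ U0, F z ∈ U0 := fun z hz => h1 z (subset_closure hz)
  have hit := fun {z : OnePoint ℂ} (hz : z ∈ U0) (k : ℕ) => iter_eq hinv hGF hz k
  have hit2 : ∀ z ∈ closure U0, ∀ k : ℕ, 0 < k → F^[k] z ∈ U0 := by
    intro z hz k hk
    obtain ⟨k, rfl⟩ : ∃ k', k = k' + 1 := ⟨k - 1, by omega⟩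
    rw [Function.iterate_succ_apply]
    exact (hit (h1 z hz) k).2
  obtain ⟨n, a, ⟨hn, hfix, U, hUn, hUV⟩, ht⟩ := h2 z hz
  have ha : a ∈ U0 := by
    have h3 : a ∈ closure U0 :=
      mem_closure_of_tendsto ht (Eventually.of_forall fun k => (hit hz _).2)
    have h4 := hit2 a h3 n hn
    rwa [hfix] at h4
  refine ⟨n, a, ⟨hn, ?_, U ∩ U0, inter_mem hUn (hU.mem_nhds ha), fun V hV => ?_⟩, ?_⟩
  · rw [(hit ha n).1, hfix]
  · filter_upwards [hUV V hV] with k hk w hw
    rw [(hit hw.2 _).1]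
    exact hk w hw.1
  · refine ht.congr fun k => ?_
    rw [(hit hz _).1]

/-- the points where the cut map is not locally injective are attracted -/
theorem dyn (hG : Continuous G) (hHc : Continuous H) (hU : IsOpen U0) (hD : IsClosed Dm)
    (hUD : U0 ⊆ Dm) (h1 : ∀ z ∈ closure U0, F z ∈ U0) (h2 : ∀ z ∈ U0, Attd F z)
    (hGF : ∀ z ∈ U0, G z = F z) (hGH : ∀ z ∉ Dm, G z = H z) (hHD : ∀ z ∈ Dm, H z ∈ U0)
    (hGD : ∀ z ∈ Dm, G z ∈ U0) (hH : HypTop H) {c : OnePoint ℂ}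
    (hc : ¬ ∃ U ∈ 𝓝 c, InjOn G U) : WAtt G c := by
  have key : ∀ j : ℕ, G^[j] c ∈ Dm → WAtt G c := by
    intro j hj
    refine attd_watt (attd_of_iter hG (j + 1) ?_)
    rw [Function.iterate_succ_apply']
    exact attd_in hU h1 h2 hGF (hGD _ hj)
  by_cases hcD : c ∈ Dm
  · exact key 0 hcD
  -- `H` is not locally injective
  have hcH : ¬ ∃ U ∈ 𝓝 c, InjOn H U := by
    rintro ⟨U, hUc, hinj⟩
    refine hc ⟨U ∩ Dmᶜ, inter_mem hUc (hD.isOpen_compl.mem_nhds hcD), ?_⟩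
    intro a ha b hb hab
    rw [hGH a ha.2, hGH b hb.2] at hab
    exact hinj ha.1 hb.1 hab
  obtain ⟨z, n, hn, hfix, ⟨U, hUn, hUat⟩, hlim⟩ := hH c hcH
  by_cases hex : ∃ j : ℕ, H^[j] c ∈ Dm
  · classical
    refine key (Nat.find hex) ?_
    rw [iter_eq_of hGH _ fun l hl => Nat.find_min hex hl]
    exact Nat.find_spec hex
  push Not at hex
  have hGHc : ∀ k, G^[k] c = H^[k] c := fun k => iter_eq_of hGH k fun l _ => hex l
  -- the cycle is outside `Dm`
  have hcl : ∀ i : ℕ, H^[i] z ∈ closure Dmᶜ := by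
    intro i
    have h3 : Tendsto (fun k : ℕ => H^[i] (H^[n * k] c)) atTop (𝓝 (H^[i] z)) :=
      ((hHc.iterate i).tendsto z).comp hlim
    refine mem_closure_of_tendsto h3 (Eventually.of_forall fun k => ?_)
    rw [← Function.iterate_add_apply]
    exact hex _
  have hcyc : ∀ i : ℕ, H^[i] z ∉ Dm := by
    intro i hi
    have h3 := hHD _ hi
    have h4 := hcl (i + 1)
    rw [Function.iterate_succ_apply'] at h4
    obtain ⟨w, hw1, hw2⟩ := mem_closure_iff.1 h4 U0 hU h3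
    exact hw2 (hUD hw1)
  have hstayD : ∀ w ∈ Dm, ∀ k : ℕ, H^[k] w ∈ Dm := by
    intro w hw k
    induction k with
    | zero => exact hw
    | succ k ih =>
      rw [Function.iterate_succ_apply']
      exact hUD (hHD _ ih)
  have hstay : ∀ w ∈ U, ∀ l : ℕ, H^[l] w ∉ Dm := by
    intro w hw l hl
    have h3 := (hUat w hw).eventually (hD.isOpen_compl.mem_nhds (hcyc 0))
    obtain ⟨K, hK⟩ := eventually_atTop.1 h3
    have h4 := hK (K + l) (by omega)
    have h6 : n * (K + l) = (n * (K + l) - l) + l := by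
      have : l ≤ n * (K + l) := by nlinarith
      omega
    rw [h6, Function.iterate_add_apply] at h4
    exact h4 (hstayD _ hl _)
  refine ⟨z, n, hn, ?_, ⟨U, hUn, fun w hw => ?_⟩, ?_⟩
  · rw [iter_eq_of hGH n fun l _ => hcyc l, hfix]
  · refine (hUat w hw).congr fun k => ?_
    rw [iter_eq_of hGH _ fun l _ => hstay w hw l]
  · refine hlim.congr fun k => ?_
    rw [hGHc]

/-- transfer by a conjugacy -/
theorem hyp_conj (φ : OnePoint ℂ ≃ₜ OnePoint ℂ) {F' : OnePoint ℂ → OnePoint ℂ}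
    (hconj : ∀ z, F' (φ z) = φ (G z)) (h : ∀ c, (¬ ∃ U ∈ 𝓝 c, InjOn G U) → WAtt G c) :
    HypTop F' := by
  intro c' hc'
  obtain ⟨c, rfl⟩ := φ.surjective c'
  have hit : ∀ (k : ℕ) (z : OnePoint ℂ), F'^[k] (φ z) = φ (G^[k] z) := by
    intro k
    induction k with
    | zero => intro z; rfl
    | succ k ih =>
      intro z
      rw [Function.iterate_succ_apply', Function.iterate_succ_apply', ih, hconj]
  obtain ⟨z, n, hn, hfix, ⟨U, hU, hUat⟩, hlim⟩ := h c (by
    rintro ⟨U, hU, hinj⟩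
    refine hc' ⟨φ '' U, φ.isOpenMap.image_mem_nhds hU, ?_⟩
    rintro _ ⟨a, ha, rfl⟩ _ ⟨b, hb, rfl⟩ hab
    rw [hconj, hconj] at hab
    rw [hinj ha hb (φ.injective hab)])
  refine ⟨φ z, n, hn, ?_, ⟨φ '' U, φ.isOpenMap.image_mem_nhds hU, ?_⟩, ?_⟩
  · rw [hit, hfix]
  · rintro _ ⟨w, hw, rfl⟩
    have h1 := (φ.continuous.tendsto z).comp (hUat w hw)
    refine h1.congr fun k => ?_
    rw [hit]
    rfl
  · have h1 := (φ.continuous.tendsto z).comp hlim
    refine h1.congr fun k => ?_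
    rw [hit]
    rfl

end Pool.Agent.Helper23T
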