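import Pool.Agent.Helper23T.ChartM
import Pool.Agent.W757.RD.End

/-!
# The final statements, in terms of coefficient vectors
-/

set_option autoImplicit false
set_option linter.unusedSectionVars false

open Set Filter Topology Metric
open scoped OnePoint

noncomputable section

namespace Pool.Agent.Helper23T

open Pool.Agent.H790R3.RB (CV hF ND sp pr hc pol HypTop Sink Attd PQ SP)

variable {d : ℕ}

/-- maps with Julia set of area zero are limits of hyperbolic maps -/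
theorem lim_of_area (hd : 2 ≤ d) {x : CV d} (hx : ND x)
    (h : Pool.Agent.W757.RF.sarea (Pool.Agent.W757.RF.JS (sp x)) = 0) :
    ∃ᶠ y in 𝓝 x, ND y ∧ HypTop (sp y) := by
  obtain ⟨C, δ, hC, hδ, H⟩ := Pool.Agent.W757.RD.main (1 / 4) d x (by norm_num) (by norm_num) hd hx
  rw [Filter.frequently_iff]
  intro U hU
  obtain ⟨r, hr, hrU⟩ := Metric.mem_nhds_iff.1 hU
  obtain ⟨a, ha, haC⟩ : ∃ a : ℝ, 0 < a ∧ C * a ^ (1 / 4 : ℝ) < r := by
    refine ⟨(r / (2 * C)) ^ (4 : ℝ), by positivity, ?_⟩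
    rw [← Real.rpow_mul (by positivity)]
    norm_num
    have h1 : C * (r / (2 * C)) = r / 2 := by field_simp
    rw [h1]
    linarith
  obtain ⟨x', h1, h2, h3⟩ := H x hx (by simpa using hδ) a ha (by rw [h]; simpa using ha)
  refine ⟨x', hrU ?_, h2, h3⟩
  rw [mem_ball, dist_eq_norm]
  exact lt_of_le_of_lt h1 haC

/-- the coefficients and the polynomials -/
theorem coef_lt {x x' : CV d} {ε : ℝ} (hε : 0 < ε) (h : ‖x' - x‖ < ε) (i : Fin 2) (j : ℕ) :
    ‖(pol x' i).coeff j - (pol x i).coeff j‖ < ε := by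
  by_cases hj : d < j
  · rw [Pool.Agent.H790R3.RB.PQ.pol_coeff_gt x i j hj,
      Pool.Agent.H790R3.RB.PQ.pol_coeff_gt x' i j hj, sub_zero, norm_zero]
    exact hε
  · have e1 := Pool.Agent.H790R3.RB.PQ.pol_coeff x i ⟨j, by omega⟩
    have e2 := Pool.Agent.H790R3.RB.PQ.pol_coeff x' i ⟨j, by omega⟩
    simp only at e1 e2
    rw [e1, e2]
    exact (norm_le_pi_norm (x' - x) (i, ⟨j, by omega⟩)).trans_lt h

theorem norm_lt_of_coef {x x' : CV d} {ε : ℝ} (hε : 0 < ε)
    (h : ∀ (i : Fin 2) (j : ℕ), ‖(pol x' i).coeff j - (pol x i).coeff j‖ < ε) : ‖x' - x‖ < ε := by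
  rw [pi_norm_lt_iff hε]
  rintro ⟨i, j⟩
  rw [Pi.sub_apply, ← Pool.Agent.H790R3.RB.PQ.pol_coeff x' i j,
    ← Pool.Agent.H790R3.RB.PQ.pol_coeff x i j]
  exact h i j

end Pool.Agent.Helper23T
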