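import Pool.Agent.Helper23T.PullM
import Pool.Agent.Helper23S.Lim
import Pool.Agent.Helper23S.Hol2

/-!
# The limit homeomorphism
-/

set_option autoImplicit false
set_option linter.unusedSectionVars false

open MeasureTheory Set Filter Topology Metric

noncomputable section

namespace Pool.Agent.Helper23T

open Pool.Agent.Split938 (dbar)
open Pool.Agent.Helper23S

theorem ph_hol {ρ κ L : ℝ} {μ : ℂ → ℂ} (hρ : 0 < ρ) (hL : 4 * ρ ≤ L) (hμ : Adm ρ κ μ) (hκ1 : κ < 1)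
    {z : ℂ} (hm : mL L μ z = 0) : DifferentiableAt ℂ (ph ρ L μ) z := by
  have h1 : HasFDerivAt (ph ρ L μ) (fderiv ℝ (ph ρ L μ) z) z :=
    ((ph_smooth hρ hL hμ hκ1).differentiable (by simp) z).hasFDerivAt
  have h2 : HasDerivAt (ph ρ L μ) (1 + aL L μ z) z := by
    rw [hasDerivAt_iff_hasFDerivAt]
    refine hasFDerivAt_of_restrictScalars ℝ h1 ?_
    ext v
    rw [ph_apply hρ hL hμ hκ1, hm]
    simp [mul_comm]
  exact h2.differentiableAt

/-- limits of holomorphic functions along an ultrafilter -/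
theorem hol_lim {𝒰 : Ultrafilter ℕ} {w1 : ℂ} {r : ℝ} (hr : 0 < r) {F : ℕ → ℂ → ℂ} {H : ℂ → ℂ} {B : ℝ}
    (hF : ∀ᶠ n in (𝒰 : Filter ℕ), DifferentiableOn ℂ (F n) (ball w1 r) ∧
      ∀ w ∈ ball w1 r, ‖F n w‖ ≤ B)
    (hH : ∀ w ∈ ball w1 r, Tendsto (fun n => F n w) 𝒰 (𝓝 (H w))) : DifferentiableAt ℂ H w1 := by
  classical
  set P : ℕ → Prop := fun n => DifferentiableOn ℂ (F n) (ball w1 r) ∧ ∀ w ∈ ball w1 r, ‖F n w‖ ≤ B
    with hP
  set F' : ℕ → ℂ → ℂ := fun n w => if P n then F n w else 0 with hF'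
  have hd : ∀ n, DifferentiableOn ℂ (F' n) (ball w1 r) := by
    intro n
    by_cases hn : P n
    · have : F' n = F n := by
        funext w
        rw [hF']
        simp only [if_pos hn]
      rw [this]
      exact hn.1
    · have : F' n = fun _ => 0 := by
        funext w
        rw [hF']
        simp only [if_neg hn]
      rw [this]
      exact differentiableOn_const 0
  have hb : Pool.Agent.Helper114.Konig.LB (ball w1 r) F' := by
    intro z hz
    refine ⟨ball w1 r, isOpen_ball.mem_nhds hz, max B 0, fun n w hw => ?_⟩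
    by_cases hn : P n
    · have : F' n w = F n w := by
        rw [hF']
        simp only [if_pos hn]
      rw [this]
      exact (hn.2 w hw).trans (le_max_left _ _)
    · have : F' n w = 0 := by
        rw [hF']
        simp only [if_neg hn]
      rw [this, norm_zero]
      exact le_max_right _ _
  obtain ⟨H', hH', hHl⟩ := Pool.Agent.Helper114.Konig.locmontel isOpen_ball F' hd hb 𝒰
  have hw1 : w1 ∈ ball w1 r := mem_ball_self hr
  have heq : H =ᶠ[𝓝 w1] H' := by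
    filter_upwards [isOpen_ball.mem_nhds hw1] with w hw
    refine tendsto_nhds_unique (hH w hw) ((hHl w hw).congr' ?_)
    filter_upwards [hF] with n hn
    rw [hF']
    simp only
    rw [if_pos hn]
  exact heq.differentiableAt_iff.2 ((hH' w1 hw1).differentiableAt (isOpen_ball.mem_nhds hw1))

/-- **the limit homeomorphism** -/
theorem limit_homeo {ρ κ ε M : ℝ} (hρ1 : 1 ≤ ρ) (hκ0 : 0 ≤ κ) (hκ : κ ≤ 1 / 40) {m : ℕ → ℂ → ℂ}
    (ham : ∀ K, Adm ρ κ (m K)) (hev : ∀ z, ∃ N, ∀ K, N ≤ K → m K z = m N z)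
    (hclose0 : ∀ L, 20 * ρ ≤ L → 4 * M + 24 * ρ ≤ L → ∀ μ, Adm ρ κ μ → ∀ z, ‖z‖ ≤ M →
      ‖ph ρ L μ z - z‖ ≤ ε) :
    ∃ Φ : ℂ ≃ₜ ℂ, (∀ z, ‖z‖ ≤ M → ‖Φ z - z‖ ≤ ε) ∧
      (∀ z, 2 * ρ ≤ ‖z‖ → ‖Φ z - z‖ ≤ 6 * κ * ‖z‖) ∧
      (∀ z, ‖Φ z‖ ≤ 5 / 4 * ‖z‖ + 5 / 2 * ρ) ∧ (∀ w, ‖Φ.symm w‖ ≤ 4 / 3 * ‖w‖ + 4 * ρ + 2) ∧
      (∀ (u : ℂ → ℂ) (O : Set ℂ), IsOpen O → (∀ z ∈ O, DifferentiableAt ℝ u z) →
        (∀ (K : ℕ), ∀ z ∈ O, (dd u z + m K (u z) * (starRingEnd ℂ) (dbar u z)) * m (K + 1) z =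
          dbar u z + m K (u z) * (starRingEnd ℂ) (dd u z)) →
        ∀ z ∈ O, DifferentiableAt ℂ (fun w => Φ (u (Φ.symm w))) (Φ z)) ∧
      ∀ O : Set ℂ, IsOpen O → (∀ (K : ℕ), ∀ z ∈ O, m K z = 0) → DifferentiableOn ℂ Φ O := by
  have hρ0 : 0 < ρ := by linarith
  have hκ1 : κ < 1 := by linarith
  -- the periods
  set L : ℕ → ℝ := fun n => 20 * ρ * ((n : ℝ) + 1) with hL
  have hLn : ∀ n, 20 * ρ ≤ L n := by
    intro n
    have : (0 : ℝ) ≤ n := Nat.cast_nonneg n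
    rw [hL]
    simp only
    nlinarith
  have hLt : Tendsto L atTop atTop := by
    refine Tendsto.const_mul_atTop (by positivity) ?_
    exact tendsto_atTop_add_const_right _ _ tendsto_natCast_atTop_atTop
  have ham' : ∀ K, Adm ρ (1 / 40) (m K) := fun K =>
    ⟨(ham K).smooth, (ham K).supp, fun z => ((ham K).bdd z).trans hκ⟩
  have hK : ∀ n : ℕ, ∃ K, en (L n) (m K) (m (K + 1)) ≤ (1 / ((n : ℝ) + 1)) ^ 2 := by
    intro n
    obtain ⟨N, hN⟩ := en_cauchy hρ0 (L := L n) (by linarith [hLn n]) ham' hev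
      (ε := (1 / ((n : ℝ) + 1)) ^ 2) (by positivity)
    exact ⟨N, hN N (N + 1) le_rfl (by omega)⟩
  choose K hK using hK
  have hL8 : ∀ n, 8 * ρ ≤ L n := fun n => by linarith [hLn n]
  have hL4 : ∀ n, 4 * ρ ≤ L n := fun n => by linarith [hLn n]
  have he : ∀ n, ∃ e : ℂ ≃ₜ ℂ, (⇑e = ph ρ (L n) (m (K n))) ∧ ContDiff ℝ (⊤ : ℕ∞) e.symm :=
    fun n => exists_homeo hρ0 (hL8 n) (ham _) hκ
  have he' : ∀ n, ∃ e : ℂ ≃ₜ ℂ, (⇑e = ph ρ (L n) (m (K n + 1))) ∧ ContDiff ℝ (⊤ : ℕ∞) e.symm :=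
    fun n => exists_homeo hρ0 (hL8 n) (ham _) hκ
  choose e he hes using he
  choose e' he' hes' using he'
  set 𝒰 : Ultrafilter ℕ := Filter.hyperfilter ℕ with h𝒰
  have hle : (𝒰 : Filter ℕ) ≤ atTop := Nat.hyperfilter_le_atTop
  have hLU : ∀ B, ∀ᶠ n in (𝒰 : Filter ℕ), B ≤ L n := fun B => hle (hLt.eventually_ge_atTop B)
  -- closeness
  have hcl : ∀ z, Tendsto (fun n => e n z - e' n z) 𝒰 (𝓝 0) := by
    intro z
    rw [Metric.tendsto_nhds]
    intro ε' hε'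
    obtain ⟨N, hN, hcl⟩ := close hρ1 (ε := ε' / 2) (by linarith) (M := max (2 * ρ) ‖z‖) (le_max_left _ _)
    have h1 : ∀ᶠ n : ℕ in (𝒰 : Filter ℕ), 1 / ((n : ℝ) + 1) ≤ N :=
      hle ((tendsto_one_div_add_atTop_nhds_zero_nat (𝕜 := ℝ)).eventually (ge_mem_nhds hN))
    filter_upwards [h1, hLU (4 * max (2 * ρ) ‖z‖)] with n hn1 hn2
    have h2 := hcl (L n) (hLn n) hn2 _ _ (ham' (K n)) (ham' (K n + 1))
      ((hK n).trans (pow_le_pow_left₀ (by positivity) hn1 2)) z (le_max_right _ _)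
    rw [dist_zero_right, he, he']
    linarith
  -- bounds
  have hb : ∀ z, ∀ᶠ n in (𝒰 : Filter ℕ), ‖e n z‖ ≤ 5 / 4 * ‖z‖ + 5 / 2 * ρ := by
    intro z
    filter_upwards [hLU (4 * ‖z‖)] with n hn
    have := ph_growth hρ0 (hL8 n) (ham (K n)) hκ (z := z) (by linarith)
    rw [he]
    linarith
  have hbi : ∀ w t, 4 * ρ ≤ t → ‖w‖ < 3 / 4 * t → ∀ᶠ n in (𝒰 : Filter ℕ), ‖(e' n).symm w‖ < t := by
    intro w t ht hw
    filter_upwards [hLU (4 * t)] with n hn
    exact inv_far hρ0 (hL8 n) (ham (K n + 1)) hκ (he' n) ht (by linarith) hw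
  have hφ : ∀ z, ∃ v, ‖v‖ ≤ 5 / 4 * ‖z‖ + 5 / 2 * ρ ∧ Tendsto (fun n => e n z) 𝒰 (𝓝 v) :=
    fun z => ulim (hb z)
  choose Φ hΦb hΦ using hφ
  have hψ : ∀ w, ∃ v, ‖v‖ ≤ 4 / 3 * ‖w‖ + 4 * ρ + 2 ∧ Tendsto (fun n => (e' n).symm w) 𝒰 (𝓝 v) := by
    intro w
    refine ulim ?_
    have hw := norm_nonneg w
    filter_upwards [hbi w (4 / 3 * ‖w‖ + 4 * ρ + 2) (by linarith) (by linarith)] with n hn
    exact hn.le
  choose Ψ hΨb hΨ using hψ
  have hΦ' : ∀ z, Tendsto (fun n => e' n z) 𝒰 (𝓝 (Φ z)) := by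
    intro z
    have := (hΦ z).sub (hcl z)
    simpa using this
  -- equicontinuity
  have heq : ∀ (ν : ℕ → ℕ) (e : ℕ → ℂ ≃ₜ ℂ), (∀ n, ⇑(e n) = ph ρ (L n) (m (ν n))) →
      ∀ z0, Eqc (𝒰 : Filter ℕ) (fun n => e n) z0 := by
    intro ν e he z0 ε' hε'
    obtain ⟨r, hr, hr1, h1⟩ := om_small (7 + ρ ^ 2) (by positivity) hε'
    refine ⟨r, hr, ?_⟩
    filter_upwards [hLU (2 * (‖z0‖ + 1))] with n hn z hz
    have hc : ContDiff ℝ 1 (e n) := by
      rw [he]
      exact (ph_smooth hρ0 (hL4 n) (ham _) hκ1).of_le (by exact_mod_cast le_top)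
    refine (equi (e n) hc z0 hr hr1 (E := 7 + ρ ^ 2) ?_ z hz).trans h1
    rw [he]
    exact ph_energy hρ0 (hL8 n) (ham _) hκ (by linarith)
  have hq : ∀ z0, Eqc (𝒰 : Filter ℕ) (fun n => e n) z0 := heq K e he
  have hq' : ∀ z0, Eqc (𝒰 : Filter ℕ) (fun n => e' n) z0 := heq (fun n => K n + 1) e' he'
  have hqi : ∀ w0, Eqc (𝒰 : Filter ℕ) (fun n => (e' n).symm) w0 := by
    intro w0 ε' hε'
    set t : ℝ := 4 / 3 * (‖w0‖ + 1) + 4 * ρ with ht
    have hw := norm_nonneg w0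
    obtain ⟨r, hr, hr1, h1⟩ := om_small (4 * t ^ 2) (by positivity) hε'
    refine ⟨r, hr, ?_⟩
    filter_upwards [hLU (4 * t)] with n hn z hz
    refine (equi (e' n).symm ((hes' n).of_le (by exact_mod_cast le_top)) w0 hr hr1
      (E := 4 * t ^ 2) ?_ z hz).trans h1
    exact inv_energy hρ0 (hL8 n) (ham _) hκ (he' n) (hes' n) (t := t) (by linarith) (by linarith)
      (by linarith)
  have hΦc : Continuous Φ := Eqc.cont hq hΦ
  have hΨc : Continuous Ψ := Eqc.cont hqi hΨ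
  have h12 : ∀ w, Φ (Ψ w) = w := by
    intro w
    have h1 := (hq' (Ψ w)).conv (hΦ' (Ψ w)) (hΨ w)
    have h2 : (fun n => e' n ((e' n).symm w)) = fun _ => w := by
      funext n
      exact (e' n).apply_symm_apply w
    have h3 : Tendsto (fun _ : ℕ => w) (𝒰 : Filter ℕ) (𝓝 (Φ (Ψ w))) := by
      rw [← h2]
      exact h1
    exact tendsto_nhds_unique h3 tendsto_const_nhds
  have h21 : ∀ z, Ψ (Φ z) = z := by
    intro z
    have h1 := (hqi (Φ z)).conv (hΨ (Φ z)) (hΦ' z)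
    have h2 : (fun n => (e' n).symm (e' n z)) = fun _ => z := by
      funext n
      exact (e' n).symm_apply_apply z
    have h3 : Tendsto (fun _ : ℕ => z) (𝒰 : Filter ℕ) (𝓝 (Ψ (Φ z))) := by
      rw [← h2]
      exact h1
    exact tendsto_nhds_unique h3 tendsto_const_nhds
  let Φe : ℂ ≃ₜ ℂ := ⟨⟨Φ, Ψ, h21, h12⟩, hΦc, hΨc⟩
  refine ⟨Φe, ?_, ?_, hΦb, hΨb, ?_, ?_⟩
  · -- closeness to the identity
    intro z hz
    refine le_of_tendsto ((hΦ z).sub_const z).norm ?_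
    filter_upwards [hLU (4 * M + 24 * ρ)] with n hn
    rw [he]
    exact hclose0 (L n) (hLn n) hn _ (ham (K n)) z hz
  · intro z hz
    refine le_of_tendsto ((hΦ z).sub_const z).norm ?_
    filter_upwards [hLU (4 * ‖z‖)] with n hn
    rw [he]
    exact ph_far hρ0 (hL8 n) (ham (K n)) hκ hz (by linarith)
  · intro u O hO hu hrel z0 hz0
    obtain ⟨η, hη, hηO⟩ : ∃ η > 0, closedBall z0 (2 * η) ⊆ O := by
      obtain ⟨s, hs, hsO⟩ := Metric.isOpen_iff.1 hO z0 hz0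
      refine ⟨s / 4, by linarith, (closedBall_subset_ball (by linarith)).trans hsO⟩
    set C : Set ℂ := closedBall z0 (2 * η) with hC
    have hCk : IsCompact C := isCompact_closedBall _ _
    have huc : ContinuousOn u C := fun z hz => (hu z (hηO hz)).continuousAt.continuousWithinAt
    obtain ⟨B, hB⟩ := hCk.exists_bound_of_continuousOn huc
    have hB0 : 0 ≤ B := (norm_nonneg _).trans (hB z0 (mem_closedBall_self (by linarith)))
    set w1 := Φ z0 with hw1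
    obtain ⟨r, hr, hr1⟩ := hqi w1 η hη
    have hwz : Tendsto (fun n => (e' n).symm w1) 𝒰 (𝓝 z0) := by
      have := hΨ w1
      rwa [hw1, h21] at this
    have hin : ∀ᶠ n in (𝒰 : Filter ℕ), ∀ w ∈ ball w1 r, (e' n).symm w ∈ C := by
      filter_upwards [hr1, Metric.tendsto_nhds.1 hwz η hη] with n hn1 hn2 w hw
      have h1 := hn1 w (mem_ball.1 hw).le
      rw [hC, mem_closedBall]
      have h2 := dist_triangle ((e' n).symm w) ((e' n).symm w1) z0
      linarith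
    have hΨC : ∀ w ∈ ball w1 r, Ψ w ∈ C := by
      intro w hw
      refine hCk.isClosed.mem_of_tendsto (hΨ w) ?_
      filter_upwards [hin] with n hn using hn w hw
    refine hol_lim (𝒰 := 𝒰) hr (F := fun n w => e n (u ((e' n).symm w))) (B := 5 / 4 * B + 5 / 2 * ρ) ?_ ?_
    · filter_upwards [hin, hLU (4 * (‖z0‖ + 2 * η) + 4 * B + 1)] with n hn hn2
      have hzn : ∀ z ∈ C, ‖z‖ ≤ ‖z0‖ + 2 * η := by
        intro z hz
        rw [hC, mem_closedBall, dist_eq_norm] at hz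
        have := norm_sub_norm_le z z0
        linarith
      have hz0n := norm_nonneg z0
      constructor
      · intro w hw
        have h1 := hn w hw
        have h2 := hB _ h1
        have h3 := comp_hol hρ0 hκ (hL8 n) (ham (K n)) (ham (K n + 1)) (he n) (he' n) (hes' n)
          (hu _ (hηO h1)) (ball_Qo _ (mem_ball_zero_iff.2 (by linarith [hzn _ h1])))
          (ball_Qo _ (mem_ball_zero_iff.2 (by linarith))) (hrel (K n) _ (hηO h1))
        rw [(e' n).apply_symm_apply] at h3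
        exact h3.differentiableWithinAt
      · intro w hw
        have h1 := hn w hw
        have h2 := hB _ h1
        have h3 := ph_growth hρ0 (hL8 n) (ham (K n)) hκ (z := u ((e' n).symm w)) (by linarith)
        show ‖e n (u ((e' n).symm w))‖ ≤ _
        rw [he]
        linarith
    · intro w hw
      have h1 : ContinuousAt u (Ψ w) := (hu _ (hηO (hΨC w hw))).continuousAt
      exact (hq (u (Ψ w))).conv (hΦ _) (h1.tendsto.comp (hΨ w))
  · intro O hO hm z0 hz0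
    obtain ⟨r, hr, hrO⟩ := Metric.isOpen_iff.1 hO z0 hz0
    refine (hol_lim (𝒰 := 𝒰) hr (F := fun n w => e n w) (B := 5 / 4 * (‖z0‖ + r) + 5 / 2 * ρ) ?_
      (fun w _ => hΦ w)).differentiableWithinAt
    filter_upwards [hLU (4 * (‖z0‖ + r))] with n hn
    have hz0n := norm_nonneg z0
    have hwn : ∀ w ∈ ball z0 r, ‖w‖ < ‖z0‖ + r := by
      intro w hw
      rw [mem_ball, dist_eq_norm] at hw
      have := norm_sub_norm_le w z0
      linarith
    constructor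
    · intro w hw
      have h1 : DifferentiableAt ℂ (e n) w := by
        rw [he]
        refine ph_hol hρ0 (hL4 n) (ham _) hκ1 ?_
        have h2 : w ∈ Qo (L n) := ball_Qo _ (mem_ball_zero_iff.2 (by linarith [hwn w hw]))
        unfold mL
        rw [mt_T (by linarith [hLn n]) _ h2]
        exact hm _ w (hrO hw)
      exact h1.differentiableWithinAt
    · intro w hw
      have h3 := ph_growth hρ0 (hL8 n) (ham (K n)) hκ (z := w) (by linarith [hwn w hw])
      show ‖e n w‖ ≤ _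
      rw [he]
      linarith [hwn w hw]

end Pool.Agent.Helper23T
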