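import Pool.Agent.Helper23T.SeqM
import Pool.Agent.H790R3.RB.TCJ

/-!
# Moebius coordinates, and the theorem for rational maps
-/

set_option autoImplicit false
set_option linter.unusedSectionVars false

open Set Filter Topology Metric
open scoped OnePoint

noncomputable section

namespace Pool.Agent.Helper23T

open Pool.Agent.H790R3.RB (CV hF ND sp pr hc pol HypTop Sink Attd PQ SP cr wr hF_smul cr_smul_left
  cr_smul_right cr_self cr_comm)
open Pool.Agent.Helper23S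
open Pool.Agent.W440.RE.GENM

variable {d : ℕ}

/-- Moebius coordinates which send `w` to infinity -/
theorem mob (hd : 1 ≤ d) (w : ℂ) : ∃ (h : OnePoint ℂ ≃ₜ OnePoint ℂ) (S T : CV d → CV d),
    (∀ p : ℂ × ℂ, p ≠ 0 → h (pr p) = pr (mm w p)) ∧ Continuous S ∧ Continuous T ∧
    (∀ y p, hF (S y) p = mm w (hF y (ad w p))) ∧ (∀ y, T (S y) = y) ∧
    (∀ y, ND y → ND (S y) ∧ ∀ z, h (sp y z) = sp (S y) (h z)) ∧
    ∀ y, ND y → ND (T y) ∧ ∀ z, h (sp (T y) z) = sp y (h z) := by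
  obtain ⟨h, hh, -⟩ := Pool.Agent.H790R3.RB.MOB Pool.Agent.H790R3.RB.SP 0 1 1 (-w) (by norm_num)
  obtain ⟨cj, hcjc, hcja, hcjs, -, hcjF⟩ := Pool.Agent.H790R3.RB.CJ d
  set S : CV d → CV d := fun y => cj ((0, 1), (1, -w)) y with hS
  set s : ℂ := (-1) ^ (d + 1) with hs
  have hs0 : s ≠ 0 := pow_ne_zero _ (by norm_num)
  set T : CV d → CV d := fun y => s • cj ((-w, -1), (-1, 0)) y with hT
  have hh' : ∀ p : ℂ × ℂ, p ≠ 0 → h (pr p) = pr (mm w p) := by
    intro p hp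
    rw [hh p hp]
    congr 1
    unfold mm
    ext
    · simp
    · simp; ring
  have hSF : ∀ y p, hF (S y) p = mm w (hF y (ad w p)) := by
    intro y p
    rw [hS]
    simp only
    rw [hcjF]
    have e : ((-w * p.1 - 1 * p.2, 0 * p.2 - 1 * p.1) : ℂ × ℂ) = ad w p := by
      unfold ad; ext <;> simp
    simp only
    rw [e]
    unfold mm
    ext
    · simp
    · simp; ring
  have hTF : ∀ y p, hF (T y) p = s • ad w (hF y (mm w p)) := by
    intro y p
    rw [hT]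
    simp only
    rw [hF_smul_left, hcjF]
    congr 1
    have e : ((0 * p.1 - -1 * p.2, -w * p.2 - -1 * p.1) : ℂ × ℂ) = mm w p := by
      unfold mm; ext
      · simp
      · simp; ring
    simp only
    rw [e]
    unfold ad
    ext
    · simp; ring
    · simp
  have hSND : ∀ y, ND y → ND (S y) := by
    intro y hy p hp
    rw [hSF] at hp
    exact ad_zero (hy _ (mm_zero hp))
  have hTND : ∀ y, ND y → ND (T y) := by
    intro y hy p hp
    rw [hTF] at hp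
    have h1 := (smul_eq_zero.1 hp).resolve_left hs0
    exact mm_zero (hy _ (ad_zero h1))
  have hsp : ∀ (y : CV d), ND y → ∀ p : ℂ × ℂ, p ≠ 0 → sp y (pr p) = pr (hF y p) := by
    intro y hy p hp
    have := (Pool.Agent.H790R3.RB.SP d y hd hy).2.1 p hp 1
    simpa using this
  have hprs : ∀ (a : ℂ) (p : ℂ × ℂ), a ≠ 0 → p ≠ 0 → pr (a • p) = pr p := by
    intro a p ha hp
    refine (Pool.Agent.H790R3.RB.SP.pr_eq_iff (smul_ne_zero ha hp) hp).2 ?_
    rw [cr_smul_left, cr_self, mul_zero]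
  have hmmne : ∀ p : ℂ × ℂ, p ≠ 0 → mm w p ≠ 0 := fun p hp h0 => hp (mm_zero h0)
  have hadne : ∀ p : ℂ × ℂ, p ≠ 0 → ad w p ≠ 0 := fun p hp h0 => hp (ad_zero h0)
  have hhc := Pool.Agent.H790R3.RB.SP.pr_hc
  refine ⟨h, S, T, hh', ?_, ?_, hSF, ?_, ?_, ?_⟩
  · exact hcjc.continuous.comp (Continuous.prodMk_right _)
  · have h1 : Continuous (fun y : CV d => cj ((-w, -1), (-1, 0)) y) :=
      hcjc.continuous.comp (Continuous.prodMk_right _)
    exact h1.const_smul s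
  · intro y
    apply hF_inj
    intro p
    rw [hTF, hSF, ad_mm, ad_mm, hF_smul]
    rw [smul_smul, smul_smul]
    have e : s * (-1) * (-1) ^ d = 1 := by
      rw [hs, pow_succ, mul_assoc ((-1 : ℂ) ^ d) (-1) (-1)]
      rw [show (-1 : ℂ) * -1 = 1 by norm_num, mul_one, ← mul_pow]
      norm_num
    rw [e, one_smul]
  · intro y hy
    refine ⟨hSND y hy, ?_⟩
    intro z
    obtain ⟨e1, e2⟩ := hhc z
    have h1 : h (sp y z) = pr (mm w (hF y (hc z))) := hh' _ (hF_ne hy e2)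
    have h2 : sp (S y) (h z) = pr (hF (S y) (mm w (hc z))) := by
      conv_lhs => rw [← e1, hh' _ e2]
      exact hsp _ (hSND y hy) _ (hmmne _ e2)
    rw [h1, h2, hSF, ad_mm, hF_smul, mm_smul, hprs _ _ (pow_ne_zero _ (by norm_num))
      (hmmne _ (hF_ne hy e2))]
  · intro y hy
    refine ⟨hTND y hy, ?_⟩
    intro z
    obtain ⟨e1, e2⟩ := hhc z
    have h1 : h (sp (T y) z) = pr (mm w (hF (T y) (hc z))) := hh' _ (hF_ne (hTND y hy) e2)
    have h2 : sp y (h z) = pr (hF y (mm w (hc z))) := by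
      conv_lhs => rw [← e1, hh' _ e2]
      exact hsp y hy _ (hmmne _ e2)
    rw [h1, h2, hTF, mm_smul, mm_ad, smul_smul,
      hprs _ _ (mul_ne_zero hs0 (by norm_num)) (hF_ne hy (hmmne _ e2))]

/-- infinity is generic after the change of coordinates -/
theorem ginf_of (hd : 2 ≤ d) {x x₁ : CV d} (w : ℂ)
    (hx₁F : ∀ p, hF x₁ p = mm w (hF x (ad w p)))
    (hw1 : cr (hF x (w, 1)) (w, 1) ≠ 0) (hw2 : wr x (w, 1) ≠ 0)
    (hw3 : ∀ q : ℂ × ℂ, q ≠ 0 → wr x q = 0 → cr (hF x q) (w, 1) ≠ 0) :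
    Pool.Agent.W757.Q2.Ginf d (pol x₁ 0) (pol x₁ 1) := by
  have hadne : ∀ p : ℂ × ℂ, p ≠ 0 → ad w p ≠ 0 := fun p hp h0 => hp (ad_zero h0)
  have hwr₁ := wr_conj hd w x x₁ hx₁F
  have hd0 : (d : ℂ) ≠ 0 := by exact_mod_cast (by omega : d ≠ 0)
  refine ⟨?_, ?_, ?_⟩
  · -- degree of the denominator
    have h1 : (pol x₁ 1).coeff d ≠ 0 := by
      have h2 := Pool.Agent.H790R3.RB.PQ.hF_inf x₁
      have h3 : (hF x₁ (1, 0)).2 = (pol x₁ 1).coeff d := by rw [h2]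
      rw [← h3, hx₁F]
      have e : ad w (1, 0) = (-1 : ℂ) • ((w, 1) : ℂ × ℂ) := by
        unfold ad; ext <;> simp
      rw [e, hF_smul, mm_smul]
      show (-1 : ℂ) ^ d * ((hF x (w, 1)).1 - w * (hF x (w, 1)).2) ≠ 0
      refine mul_ne_zero (pow_ne_zero _ (by norm_num)) ?_
      intro h4
      apply hw1
      unfold cr
      simp only [mul_one]
      linear_combination h4
    exact Polynomial.natDegree_eq_of_le_of_coeff_ne_zero
      (Pool.Agent.H790R3.RB.PQ.pol_natDegree x₁ 1) h1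
  · -- degree of the numerator of the derivative
    obtain ⟨W, hWd, hWe, hWc⟩ := (Pool.Agent.H790R3.RB.WR d x₁ hd).2.1
    have hW : W = Polynomial.C (d : ℂ) * Pool.Agent.W757.QR.wn (pol x₁ 0) (pol x₁ 1) := by
      apply Polynomial.funext
      intro ζ
      rw [hWe, wr_wn, Polynomial.eval_mul, Polynomial.eval_C]
      rfl
    have h1 : W.coeff (2 * d - 2) ≠ 0 := by
      rw [hWc, hwr₁]
      have e : ad w (1, 0) = (-1 : ℂ) • ((w, 1) : ℂ × ℂ) := by
        unfold ad; ext <;> simp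
      rw [e, (Pool.Agent.H790R3.RB.WR d x hd).1]
      exact mul_ne_zero (pow_ne_zero _ (by norm_num)) hw2
    have h2 : W.natDegree = 2 * d - 2 :=
      Polynomial.natDegree_eq_of_le_of_coeff_ne_zero hWd h1
    rw [hW, Polynomial.natDegree_C_mul hd0] at h2
    exact h2
  · -- infinity is not a critical value
    intro ζ hζ h0
    have hζ1 : ((ζ : ℂ), (1 : ℂ)) ≠ 0 := fun h => one_ne_zero (congrArg Prod.snd h)
    have h1 : wr x₁ (ζ, 1) = 0 := by
      rw [wr_wn]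
      show _ * (Pool.Agent.W757.QR.wn (pol x₁ 0) (pol x₁ 1)).eval ζ = 0
      rw [h0, mul_zero]
    rw [hwr₁] at h1
    refine hw3 _ (hadne _ hζ1) h1 ?_
    have h2 : (hF x₁ (ζ, 1)).2 = 0 := by
      rw [Pool.Agent.H790R3.RB.PQ.hF_one]; exact hζ
    rw [hx₁F] at h2
    have h3 : (hF x (ad w (ζ, 1))).1 - w * (hF x (ad w (ζ, 1))).2 = 0 := h2
    unfold cr
    simp only [mul_one]
    linear_combination h3

/-- conjugate of holomorphic maps by the change of coordinates -/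
theorem hol_conj {w : ℂ} {h φ : OnePoint ℂ ≃ₜ OnePoint ℂ}
    (hh : ∀ p : ℂ × ℂ, p ≠ 0 → h (pr p) = pr (mm w p)) {z : OnePoint ℂ} (hz : HolAt φ (h z)) :
    HolAt ((h.trans φ).trans h.symm) z := by
  obtain ⟨p, hp, hpz, Ψ, hΨ, hΨ0, hev⟩ := hz
  have hprs : ∀ (a : ℂ) (p : ℂ × ℂ), a ≠ 0 → p ≠ 0 → pr (a • p) = pr p := by
    intro a p ha hp
    refine (Pool.Agent.H790R3.RB.SP.pr_eq_iff (smul_ne_zero ha hp) hp).2 ?_
    rw [cr_smul_left, cr_self, mul_zero]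
  have hsymm : ∀ q : ℂ × ℂ, q ≠ 0 → h.symm (pr q) = pr (ad w q) := by
    intro q hq
    have h1 : ad w q ≠ 0 := fun h0 => hq (ad_zero h0)
    rw [Homeomorph.symm_apply_eq, hh _ h1, mm_ad, hprs _ _ (by norm_num) hq]
  have hadp : (-1 : ℂ) • ad w p ≠ 0 :=
    smul_ne_zero (by norm_num) fun h0 => hp (ad_zero h0)
  have hmp : mm w ((-1 : ℂ) • ad w p) = p := by
    rw [mm_smul, mm_ad, smul_smul]
    norm_num
  refine ⟨(-1 : ℂ) • ad w p, hadp, ?_, fun q => ad w (Ψ (mm w q)), ?_, ?_, ?_⟩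
  · apply h.injective
    rw [hh _ hadp, hmp, hpz]
  · have h1 : AnalyticAt ℂ (fun q => mm w q) ((-1 : ℂ) • ad w p) := by
      have e : (fun q => mm w q) = mmL w := funext fun q => (mmL_apply w q).symm
      rw [e]
      exact (mmL w).analyticAt _
    have h2 : AnalyticAt ℂ (fun q => Ψ (mm w q)) ((-1 : ℂ) • ad w p) := by
      refine AnalyticAt.fun_comp (g := Ψ) (f := fun q => mm w q) ?_ h1
      rw [hmp]
      exact hΨ
    have h3 : AnalyticAt ℂ (fun q => ad w q) (Ψ (mm w ((-1 : ℂ) • ad w p))) := by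
      have e : (fun q => ad w q) = adL w := funext fun q => (adL_apply w q).symm
      rw [e]
      exact (adL w).analyticAt _
    exact AnalyticAt.fun_comp (g := fun q => ad w q) (f := fun q => Ψ (mm w q)) h3 h2
  · show ad w (Ψ (mm w ((-1 : ℂ) • ad w p))) ≠ 0
    rw [hmp]
    exact fun h0 => hΨ0 (ad_zero h0)
  · have hc : Continuous (mm w) := by
      have e : mm w = mmL w := funext fun q => (mmL_apply w q).symm
      rw [e]
      exact (mmL w).continuous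
    have h1 : Tendsto (mm w) (𝓝 ((-1 : ℂ) • ad w p)) (𝓝 p) := by
      have := hc.tendsto ((-1 : ℂ) • ad w p)
      rwa [hmp] at this
    have h2 : ∀ᶠ q in 𝓝 p, Ψ q ≠ 0 := hΨ.continuousAt.eventually_ne hΨ0
    filter_upwards [h1.eventually hev, h1.eventually h2, isOpen_ne.mem_nhds hadp] with q hq1 hq2 hq3
    show h.symm (φ (h (pr q))) = _
    rw [hh q hq3, hq1, hsymm _ hq2]

/-- **the theorem for rational maps** -/
theorem mainM (hd : 2 ≤ d) {x : CV d} (hx : ND x)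
    {K : Set (OnePoint ℂ)} (hK : IsCompact K) (hKa : ∀ z ∈ K, Attd (sp x) z) :
    ∃ V D : Set (OnePoint ℂ), IsOpen V ∧ IsClosed D ∧ K ⊆ V ∧ V ⊆ D ∧
      (∀ z ∈ D, sp x z ∈ V) ∧ (∀ z ∈ D, Attd (sp x) z) ∧
      ∀ ε : ℝ, 0 < ε → ∀ W : Set (OnePoint ℂ × OnePoint ℂ), IsOpen W → (∀ z, (z, z) ∈ W) →
        ∀ᶠ y in 𝓝 x, ND y → ∃ (φ : OnePoint ℂ ≃ₜ OnePoint ℂ) (x' : CV d), ND x' ∧
          (HypTop (sp y) → HypTop (sp x')) ∧ ‖x' - x‖ < ε ∧ (∀ z, (z, φ z) ∈ W) ∧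
          (∀ z ∈ V, sp x' (φ z) = φ (sp x z)) ∧ (∀ z ∉ D, sp x' (φ z) = φ (sp y z)) ∧
          (∀ z ∈ D, sp x' (φ z) ∈ φ '' V) ∧ ∀ z ∈ V, HolAt φ z := by
  classical
  rcases K.eq_empty_or_nonempty with hK0 | ⟨z0, hz0⟩
  · refine ⟨∅, ∅, isOpen_empty, isClosed_empty, by rw [hK0], subset_rfl,
      fun z hz => absurd hz (notMem_empty z), fun z hz => absurd hz (notMem_empty z),
      fun ε hε W hW hWd => ?_⟩
    have h1 : ∀ᶠ y in 𝓝 x, ‖y - x‖ < ε := by
      filter_upwards [ball_mem_nhds x hε] with y hy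
      rwa [mem_ball, dist_eq_norm] at hy
    filter_upwards [h1] with y hy hynd
    exact ⟨Homeomorph.refl _, y, hynd, id, hy, hWd, fun z hz => absurd hz (notMem_empty z),
      fun z _ => rfl, fun z hz => absurd hz (notMem_empty z), fun z hz => absurd hz (notMem_empty z)⟩
  have hd1 : 1 ≤ d := by omega
  have hspc := Pool.Agent.H790R3.RB.SP.sp_cont hx
  -- the point which is sent to infinity
  obtain ⟨w, hwA, hwb⟩ : ∃ w : ℂ, Attd (sp x) (w : OnePoint ℂ) ∧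
      ¬ (cr (hF x (w, 1)) (w, 1) = 0 ∨ wr x (w, 1) = 0 ∨
      (∃ q : ℂ × ℂ, q ≠ 0 ∧ wr x q = 0 ∧ cr (hF x q) (w, 1) = 0) ∨
      (w : OnePoint ℂ) ∈ (∅ : Finset (OnePoint ℂ))) := by
    obtain ⟨U, hU, hUz, -, hUa⟩ := trap hspc (K := {z0}) isCompact_singleton (by
      rintro z rfl
      exact hKa _ hz0)
    have h1 : IsOpen {w : ℂ | (w : OnePoint ℂ) ∈ U} := hU.preimage OnePoint.continuous_coe
    have h2 : {w : ℂ | (w : OnePoint ℂ) ∈ U}.Nonempty := by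
      obtain ⟨z, hz1, hz2⟩ := (OnePoint.denseRange_coe (X := ℂ)).inter_open_nonempty U hU
        ⟨z0, hUz rfl⟩
      obtain ⟨w, rfl⟩ := hz2
      exact ⟨w, hz1⟩
    have h3 : {w : ℂ | (w : OnePoint ℂ) ∈ U}.Infinite := by
      obtain ⟨w, hw⟩ := h2
      exact infinite_of_mem_nhds w (h1.mem_nhds hw)
    obtain ⟨w, hw1, hw2⟩ := (h3.sdiff (bad_finite hd x hx ∅)).nonempty
    exact ⟨w, hUa _ (subset_closure hw1), hw2⟩
  push Not at hwb
  obtain ⟨hw1, hw2, hw3, -⟩ := hwb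
  obtain ⟨h, S, T, hh, hSc, hTc, hSF, hTS, hS, hT⟩ := mob (d := d) hd1 w
  set x₁ := S x with hx₁
  obtain ⟨hx₁nd, hx₁c⟩ := hS x hx
  obtain ⟨Z, lc, hg⟩ := gen_of (ginf_of hd w (hSF x) hw1 hw2 hw3)
  -- conjugacies
  have hit : ∀ (k : ℕ) (z : OnePoint ℂ), (sp x₁)^[k] (h z) = h ((sp x)^[k] z) := by
    intro k
    induction k with
    | zero => intro z; rfl
    | succ k ih =>
      intro z
      rw [Function.iterate_succ_apply', Function.iterate_succ_apply', ih, hx₁c]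
  have hAtt : ∀ z, Attd (sp x) z → Attd (sp x₁) (h z) := by
    rintro z ⟨n, a, ⟨hn, hfix, U, hU, hUV⟩, ht⟩
    refine ⟨n, h a, ⟨hn, by rw [hit, hfix], h '' U, h.isOpenMap.image_mem_nhds hU, fun V hV => ?_⟩, ?_⟩
    · have h1 : h ⁻¹' V ∈ 𝓝 a := h.continuous.continuousAt.preimage_mem_nhds hV
      filter_upwards [hUV _ h1] with k hk
      rintro _ ⟨u, hu, rfl⟩
      rw [hit]
      exact hk u hu
    · have h1 := (h.continuous.tendsto a).comp ht
      refine h1.congr fun k => ?_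
      rw [hit]
      rfl
  have hw11 : ((w : ℂ), (1 : ℂ)) ≠ 0 := fun h => one_ne_zero (congrArg Prod.snd h)
  have hhw : h (w : OnePoint ℂ) = ∞ := by
    have e1 : pr ((w : ℂ), (1 : ℂ)) = (w : OnePoint ℂ) := by
      rw [Pool.Agent.H790R3.RB.SP.pr_ne (by simp)]
      simp
    rw [← e1, hh _ hw11]
    exact Pool.Agent.H790R3.RB.SP.pr_zero (by unfold mm; simp)
  have hinfA : Attd (sp x₁) ∞ := by
    rw [← hhw]
    exact hAtt _ hwA
  have hspc₁ := Pool.Agent.H790R3.RB.SP.sp_cont hx₁nd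
  have hZA : ∀ p ∈ Z, Attd (sp x₁) (p : OnePoint ℂ) := by
    intro p hp
    refine attd_of_succ hspc₁ ?_
    rw [sp_pole x₁ ((hg.root p).1 hp)]
    exact hinfA
  -- the trapping neighbourhood
  set K₁ : Set (OnePoint ℂ) := h '' K ∪ ({∞} ∪ (↑) '' (Z : Set ℂ)) with hK₁
  have hK₁c : IsCompact K₁ :=
    (hK.image h.continuous).union (isCompact_singleton.union
      ((Z.finite_toSet.isCompact).image OnePoint.continuous_coe))
  obtain ⟨U0, hUo, hKU, htr, hUA⟩ := trap hspc₁ hK₁c (by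
    rintro z (⟨z, hz, rfl⟩ | hz | ⟨p, hp, rfl⟩)
    · exact hAtt z (hKa z hz)
    · rw [mem_singleton_iff.1 hz]
      exact hinfA
    · exact hZA p hp)
  have hinfU : ∞ ∈ U0 := hKU (Or.inr (Or.inl rfl))
  have hZU : ∀ p ∈ Z, (p : OnePoint ℂ) ∈ U0 := fun p hp => hKU (Or.inr (Or.inr ⟨p, hp, rfl⟩))
  -- the function
  have hC0 : IsClosed {z : ℂ | sp x₁ z ∉ U0} :=
    (hUo.preimage (hspc₁.comp OnePoint.continuous_coe)).isClosed_compl
  have hC1 : IsClosed {z : ℂ | (z : OnePoint ℂ) ∈ closure U0} :=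
    isClosed_closure.preimage OnePoint.continuous_coe
  have hdis : Disjoint {z : ℂ | sp x₁ z ∉ U0} {z : ℂ | (z : OnePoint ℂ) ∈ closure U0} := by
    rw [Set.disjoint_left]
    intro z h1 h2
    exact h1 (htr _ h2)
  obtain ⟨χ, hχs, -, hχ0, hχ1⟩ := exists_contMDiff_zero_iff_one_iff_of_isClosed
    (n := (⊤ : ℕ∞)) (modelWithCornersSelf ℝ ℂ) hC0 hC1 hdis
  have hχs' : ContDiff ℝ (⊤ : ℕ∞) χ := hχs.contDiff
  -- the levels
  obtain ⟨Cr, -, hCr⟩ := crit_card hd hx₁nd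
  obtain ⟨a0, b0, ha0, hab, hb1, hnc⟩ : ∃ a0 b0 : ℝ, 0 < a0 ∧ a0 < b0 ∧ b0 < 1 ∧
      ∀ t ∈ Cr.image χ, ¬ (a0 ≤ t ∧ t ≤ b0) := by
    have h1 : (Ioo (0 : ℝ) 1 \ (Cr.image χ : Set ℝ)).Nonempty :=
      ((Ioo_infinite (by norm_num : (0 : ℝ) < 1)).sdiff (Cr.image χ).finite_toSet).nonempty
    obtain ⟨t, ht1, ht2⟩ := h1
    have h2 : Ioo (0 : ℝ) 1 \ (Cr.image χ : Set ℝ) ∈ 𝓝 t :=
      (isOpen_Ioo.sdiff (Cr.image χ).finite_toSet.isClosed).mem_nhds ⟨ht1, ht2⟩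
    obtain ⟨r, hr, hrs⟩ := Metric.mem_nhds_iff.1 h2
    have h3 : ∀ s, t - r / 2 ≤ s → s ≤ t + r / 2 → s ∈ Ioo (0 : ℝ) 1 \ (Cr.image χ : Set ℝ) := by
      intro s hs1 hs2
      apply hrs
      rw [mem_ball, Real.dist_eq, abs_lt]
      constructor <;> linarith
    refine ⟨t - r / 2, t + r / 2, (h3 _ le_rfl (by linarith)).1.1, by linarith,
      (h3 _ (by linarith) le_rfl).1.2, fun s hs hs2 => ?_⟩
    exact (h3 s hs2.1 hs2.2).2 hs
  -- the radius
  obtain ⟨ρ, hρ1, hfar, hpf⟩ : ∃ ρ : ℝ, 1 ≤ ρ ∧ (∀ z : ℂ, ρ ≤ ‖z‖ → (z : OnePoint ℂ) ∈ U0) ∧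
      ∀ p ∈ Z, ‖p‖ < ρ := by
    have h1 : ∀ᶠ z : ℂ in Bornology.cobounded ℂ, (z : OnePoint ℂ) ∈ U0 := by
      have h2 := (OnePoint.tendsto_coe_infty (X := ℂ)).eventually (hUo.mem_nhds hinfU)
      rwa [coclosedCompact_eq_cocompact, ← Metric.cobounded_eq_cocompact] at h2
    obtain ⟨r, -, hr⟩ := (Metric.hasBasis_cobounded_compl_closedBall (0 : ℂ)).eventually_iff.1 h1
    have h2 : 0 ≤ ∑ p ∈ Z, ‖p‖ := Finset.sum_nonneg fun _ _ => norm_nonneg _
    have h3 := abs_nonneg r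
    refine ⟨1 + |r| + ∑ p ∈ Z, ‖p‖, by linarith, fun z hz => ?_, fun p hp => ?_⟩
    · refine hr (x := z) ?_
      rw [mem_compl_iff, mem_closedBall_zero_iff, not_le]
      have := le_abs_self r
      linarith
    · have := Finset.single_le_sum (f := fun p : ℂ => ‖p‖) (fun _ _ => norm_nonneg _) hp
      linarith
  have D : Data x₁ U0 Z χ a0 b0 ρ := by
    refine ⟨hd, hx₁nd, hUo, hinfU, hg.root, hZU, htr, fun z hz => hUA z (subset_closure hz), hχs',
      ?_, ?_, ha0, hab, hb1, ?_, hρ1, hfar⟩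
    · intro z hz
      exact (hχ1 z).1 (subset_closure hz)
    · intro z hz
      by_contra hc
      have := (hχ0 z).1 hc
      linarith
    · intro z hz1 hz2 hder
      have hq : qd x₁ z ≠ 0 := by
        intro h0
        have h1 := (hχ1 z).1 (subset_closure (hZU z ((hg.root z).2 h0)))
        linarith
      exact hnc (χ z) (Finset.mem_image_of_mem χ (hCr z hq hder)) ⟨hz1, hz2⟩
  refine ⟨h ⁻¹' U0, h ⁻¹' Dm χ a0, hUo.preimage h.continuous,
    (Dm_closed hχs'.continuous a0).preimage h.continuous, fun z hz => hKU (Or.inl ⟨z, hz, rfl⟩),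
    preimage_mono D.UD, fun z hz => ?_, fun z hz => ?_, fun ε hε W hW hWd => ?_⟩
  · show h (sp x z) ∈ U0
    rw [hx₁c]
    exact D.spD _ hz
  · have h1 := hUA _ (subset_closure (D.spD _ hz))
    rw [← hx₁c] at h1
    refine attd_of_succ hspc ?_
    -- transfer back
    obtain ⟨n, a, ⟨hn, hfix, U, hU, hUV⟩, ht⟩ := h1
    have hit' : ∀ (k : ℕ) (z : OnePoint ℂ), (sp x)^[k] (h.symm z) = h.symm ((sp x₁)^[k] z) := by
      intro k z
      rw [Homeomorph.eq_symm_apply, ← hit, h.apply_symm_apply]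
    refine ⟨n, h.symm a, ⟨hn, by rw [hit', hfix], h.symm '' U,
      h.symm.isOpenMap.image_mem_nhds hU, fun V hV => ?_⟩, ?_⟩
    · have h1 : h.symm ⁻¹' V ∈ 𝓝 a := h.symm.continuous.continuousAt.preimage_mem_nhds hV
      filter_upwards [hUV _ h1] with k hk
      rintro _ ⟨u, hu, rfl⟩
      rw [hit']
      exact hk u hu
    · have h1 := (h.symm.continuous.tendsto a).comp ht
      refine h1.congr fun k => ?_
      rw [Function.comp_apply, ← hit', h.symm_apply_apply]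
  -- the closeness
  have hTx : T x₁ = x := hTS x
  obtain ⟨ε₁, hε₁, hTε⟩ : ∃ ε₁ > 0, ∀ y, ‖y - x₁‖ < ε₁ → ‖T y - x‖ < ε := by
    have hcT : ContinuousAt T x₁ := hTc.continuousAt
    obtain ⟨ε₁, hε₁, h1⟩ := Metric.continuousAt_iff.1 hcT ε hε
    refine ⟨ε₁, hε₁, fun y hy => ?_⟩
    have h2 := h1 (x := y) (by rwa [dist_eq_norm])
    rwa [hTx, dist_eq_norm] at h2
  have hW₁ : IsOpen ((fun q : OnePoint ℂ × OnePoint ℂ => (h.symm q.1, h.symm q.2)) ⁻¹' W) :=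
    hW.preimage ((h.symm.continuous.comp continuous_fst).prodMk
      (h.symm.continuous.comp continuous_snd))
  have hSt : Tendsto S (𝓝 x) (𝓝 x₁) := hSc.tendsto x
  filter_upwards [hSt.eventually (normM D hg hpf hε₁ hW₁ (fun z => hWd _))] with y hy hynd
  obtain ⟨hSnd, hSconj⟩ := hS y hynd
  obtain ⟨φ₁, x₁', hnd', hyp', hcl', hφW, hconj, hconj2, hDm, hhol⟩ := hy hSnd
  obtain ⟨hTnd, hTconj⟩ := hT x₁' hnd'
  refine ⟨(h.trans φ₁).trans h.symm, T x₁', hTnd, fun hyp => ?_,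
    hTε _ hcl', ?_, ?_, ?_, ?_, ?_⟩
  · refine hyp_conj h.symm (fun z => ?_) (hyp' (hyp_conj h (fun z => (hSconj z).symm) hyp))
    rw [Homeomorph.eq_symm_apply, hTconj, h.apply_symm_apply]
  · intro z
    have h1 := hφW (h z)
    simp only [mem_preimage, h.symm_apply_apply] at h1
    exact h1
  · intro z hz
    show sp (T x₁') (h.symm (φ₁ (h z))) = h.symm (φ₁ (h (sp x z)))
    rw [Homeomorph.eq_symm_apply, hTconj, h.apply_symm_apply, hconj _ hz, hx₁c]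
  · intro z hz
    show sp (T x₁') (h.symm (φ₁ (h z))) = h.symm (φ₁ (h (sp y z)))
    rw [Homeomorph.eq_symm_apply, hTconj, h.apply_symm_apply, hconj2 _ hz, hSconj]
  · intro z hz
    obtain ⟨v, hv, hv2⟩ := hDm _ hz
    refine ⟨h.symm v, ?_, ?_⟩
    · show h (h.symm v) ∈ U0
      rwa [h.apply_symm_apply]
    · show h.symm (φ₁ (h (h.symm v))) = sp (T x₁') (h.symm (φ₁ (h z)))
      rw [h.apply_symm_apply, hv2, Homeomorph.symm_apply_eq, hTconj, h.apply_symm_apply]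
  · intro z hz
    exact hol_conj hh (hhol _ hz)

end Pool.Agent.Helper23T
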