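import Pool.Agent.Helper23T.LimM
import Pool.Agent.Helper202.Univ
import Pool.Agent.H269.R5.J12

/-!
# The conjugate map is rational
-/

set_option autoImplicit false
set_option linter.unusedSectionVars false

open Set Filter Topology Metric

noncomputable section

namespace Pool.Agent.Helper23T

/-- behaviour near a pole where the map is injective -/
theorem pole_lim {F : ℂ → ℂ} {a : ℂ} {N : Set ℂ} (hN : N ∈ 𝓝 a)
    (hd : ∀ w ∈ N, w ≠ a → DifferentiableAt ℂ F w) (hinj : InjOn F (N \ {a}))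
    (hinf : Tendsto (fun w => ‖F w‖) (𝓝[≠] a) atTop) :
    ∃ c : ℂ, c ≠ 0 ∧ Tendsto (fun w => F w * (w - a)) (𝓝[≠] a) (𝓝 c) := by
  classical
  -- shrink `N`
  have h1 : ∀ᶠ w in 𝓝[≠] a, 1 ≤ ‖F w‖ := hinf.eventually_ge_atTop 1
  obtain ⟨r, hr, hrN⟩ : ∃ r > 0, ∀ w ∈ ball a r, w ∈ N ∧ (w ≠ a → 1 ≤ ‖F w‖) := by
    rw [eventually_nhdsWithin_iff] at h1
    obtain ⟨r, hr, h2⟩ := Metric.mem_nhds_iff.1 (inter_mem hN h1)
    exact ⟨r, hr, fun w hw => ⟨(h2 hw).1, fun hwa => (h2 hw).2 hwa⟩⟩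
  set k : ℂ → ℂ := fun w => if w = a then 0 else (F w)⁻¹ with hk
  have hka : k a = 0 := by rw [hk]; simp
  have hkw : ∀ w, w ≠ a → k w = (F w)⁻¹ := fun w hw => by
    rw [hk]
    simp only [if_neg hw]
  have hkd : DifferentiableOn ℂ k (ball a r) := by
    refine (Complex.differentiableOn_compl_singleton_and_continuousAt_iff
      (isOpen_ball.mem_nhds (mem_ball_self hr))).1 ⟨?_, ?_⟩
    · intro w hw
      have hwa : w ≠ a := hw.2
      have h2 := hrN w hw.1
      have hF0 : F w ≠ 0 := by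
        intro h0
        have := h2.2 hwa
        rw [h0, norm_zero] at this
        linarith
      have h3 : DifferentiableAt ℂ (fun w => (F w)⁻¹) w := (hd w h2.1 hwa).inv hF0
      have h4 : k =ᶠ[𝓝 w] fun w => (F w)⁻¹ := by
        filter_upwards [isOpen_ne.mem_nhds hwa] with y hy
        exact hkw y hy
      exact (h4.differentiableAt_iff.2 h3).differentiableWithinAt
    · rw [continuousAt_iff_punctured_nhds, hka]
      rw [tendsto_zero_iff_norm_tendsto_zero]
      refine (tendsto_inv_atTop_zero.comp hinf).congr' ?_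
      filter_upwards [self_mem_nhdsWithin] with w hw
      rw [hkw w hw, norm_inv]
      rfl
  have hkinj : InjOn k (ball a r) := by
    intro w hw w' hw' heq
    by_cases h2 : w = a
    · by_cases h3 : w' = a
      · rw [h2, h3]
      · rw [h2, hka, hkw w' h3] at heq
        have h4 := (hrN w' hw').2 h3
        rw [inv_eq_zero.1 heq.symm, norm_zero] at h4
        linarith
    · by_cases h3 : w' = a
      · rw [h3, hka, hkw w h2] at heq
        have h4 := (hrN w hw).2 h2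
        rw [inv_eq_zero.1 heq, norm_zero] at h4
        linarith
      · rw [hkw w h2, hkw w' h3] at heq
        exact hinj ⟨(hrN w hw).1, h2⟩ ⟨(hrN w' hw').1, h3⟩ (inv_injective heq)
  have hder : deriv k a ≠ 0 :=
    Helper202.Univ.deriv_ne_zero isOpen_ball hkd hkinj (mem_ball_self hr)
  have hkda : HasDerivAt k (deriv k a) a :=
    (hkd.differentiableAt (isOpen_ball.mem_nhds (mem_ball_self hr))).hasDerivAt
  refine ⟨(deriv k a)⁻¹, inv_ne_zero hder, ?_⟩
  have h2 := (hasDerivAt_iff_tendsto_slope.1 hkda).inv₀ hder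
  refine h2.congr' ?_
  filter_upwards [self_mem_nhdsWithin] with w hw
  rw [slope_def_field, hka, sub_zero, hkw w hw, inv_div, div_inv_eq_mul]
  ring

variable {ρ : ℝ} {Z : Finset ℂ} {u : ℂ → ℂ}

/-- **the conjugate map is rational** -/
theorem rat (hρ : 1 ≤ ρ) (Φ : ℂ ≃ₜ ℂ)
    (hhol : ∀ z ∉ Z, DifferentiableAt ℂ (fun w => Φ (u (Φ.symm w))) (Φ z))
    (hgr : ∀ z, ‖Φ z‖ ≤ 5 / 4 * ‖z‖ + 5 / 2 * ρ) (hinv : ∀ w, ‖Φ.symm w‖ ≤ 4 / 3 * ‖w‖ + 4 * ρ + 2)
    {B : ℝ} (hbd : ∀ z, ρ ≤ ‖z‖ → ‖u z‖ ≤ B) (hpf : ∀ z, ρ ≤ ‖z‖ → z ∉ Z)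
    (hpole : ∀ p ∈ Z, Tendsto (fun z => ‖u z‖) (𝓝[≠] p) atTop)
    (hinj : ∀ p ∈ Z, ∃ O ∈ 𝓝 p, InjOn u (O \ {p})) :
    ∃ P' : Polynomial ℂ, P'.natDegree ≤ Z.card ∧
      (∀ z ∉ Z, P'.eval (Φ z) = Φ (u z) * ∏ p ∈ Z, (Φ z - Φ p)) ∧ ∀ p ∈ Z, P'.eval (Φ p) ≠ 0 := by
  classical
  set F : ℂ → ℂ := fun w => Φ (u (Φ.symm w)) with hF
  set S : Finset ℂ := Z.image Φ with hS
  have hSm : ∀ w, w ∈ S ↔ Φ.symm w ∈ Z := by
    intro w
    rw [hS, Finset.mem_image]
    constructor
    · rintro ⟨p, hp, rfl⟩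
      rwa [Φ.symm_apply_apply]
    · intro h
      exact ⟨_, h, Φ.apply_symm_apply w⟩
  have hFd : ∀ w ∉ S, DifferentiableAt ℂ F w := by
    intro w hw
    have := hhol (Φ.symm w) (fun h => hw ((hSm w).2 h))
    rwa [Φ.apply_symm_apply] at this
  set H : ℂ → ℂ := fun w => F w * ∏ p ∈ Z, (w - Φ p) with hH
  have hHd : ∀ w ∉ S, DifferentiableAt ℂ H w := by
    intro w hw
    exact (hFd w hw).mul (DifferentiableAt.fun_finsetProd fun p _ => (differentiableAt_id.sub_const _))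
  -- limits at the poles
  have hlim : ∀ p ∈ Z, ∃ c : ℂ, c ≠ 0 ∧ Tendsto H (𝓝[≠] (Φ p)) (𝓝 c) := by
    intro p hp
    obtain ⟨O, hO, hOinj⟩ := hinj p hp
    have hsym : Tendsto Φ.symm (𝓝[≠] (Φ p)) (𝓝[≠] p) := by
      refine tendsto_nhdsWithin_iff.2 ⟨?_, ?_⟩
      · have := Φ.symm.continuous.tendsto (Φ p)
        rw [Φ.symm_apply_apply] at this
        exact this.mono_left nhdsWithin_le_nhds
      · filter_upwards [self_mem_nhdsWithin] with w hw
        intro h0
        apply hw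
        rw [mem_singleton_iff] at h0 ⊢
        rw [← h0, Φ.apply_symm_apply]
    have hN1 : Φ '' O ∈ 𝓝 (Φ p) := Φ.isOpenMap.image_mem_nhds hO
    have hN2 : ∀ᶠ w in 𝓝 (Φ p), w ∈ S → w = Φ p := by
      have h1 : ∀ᶠ w in 𝓝 (Φ p), w ∉ S.erase (Φ p) :=
        ((S.erase (Φ p)).finite_toSet.isClosed.isOpen_compl).mem_nhds (by simp)
      filter_upwards [h1] with w hw hwS
      by_contra h2
      exact hw (Finset.mem_erase.2 ⟨h2, hwS⟩)
    obtain ⟨c, hc, hct⟩ := pole_lim (F := F) (a := Φ p) (N := Φ '' O ∩ {w | w ∈ S → w = Φ p})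
      (inter_mem hN1 hN2) (fun w hw hwp => hFd w fun hwS => hwp (hw.2 hwS)) (by
        rintro w ⟨⟨⟨z, hz, rfl⟩, -⟩, hwp⟩ w' ⟨⟨⟨z', hz', rfl⟩, -⟩, hwp'⟩ heq
        simp only [hF, Φ.symm_apply_apply] at heq
        have h1 := hOinj ⟨hz, fun h => hwp (by rw [mem_singleton_iff.1 h]; rfl)⟩
          ⟨hz', fun h => hwp' (by rw [mem_singleton_iff.1 h]; rfl)⟩ (Φ.injective heq)
        rw [h1]) (by
        have h1 := (hpole p hp).comp hsym
        have h2 : ∀ w, 3 / 4 * (‖u (Φ.symm w)‖ - (4 * ρ + 2)) ≤ ‖F w‖ := by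
          intro w
          have := hinv (Φ (u (Φ.symm w)))
          rw [Φ.symm_apply_apply] at this
          show _ ≤ ‖Φ (u (Φ.symm w))‖
          linarith
        refine tendsto_atTop_mono h2 ?_
        refine Tendsto.const_mul_atTop (by norm_num) ?_
        exact tendsto_atTop_add_const_right _ (-(4 * ρ + 2)) h1)
    refine ⟨c * ∏ q ∈ Z.erase p, (Φ p - Φ q), mul_ne_zero hc (Finset.prod_ne_zero_iff.2 fun q hq => ?_), ?_⟩
    · rw [sub_ne_zero]
      intro h
      exact (Finset.mem_erase.1 hq).1 (Φ.injective h).symm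
    · have h1 : Tendsto (fun w => ∏ q ∈ Z.erase p, (w - Φ q)) (𝓝[≠] (Φ p))
          (𝓝 (∏ q ∈ Z.erase p, (Φ p - Φ q))) := by
        have h2 : Continuous fun w : ℂ => ∏ q ∈ Z.erase p, (w - Φ q) :=
          continuous_finsetProd _ fun q _ => continuous_id.sub continuous_const
        exact (h2.tendsto _).mono_left nhdsWithin_le_nhds
      refine (hct.mul h1).congr fun w => ?_
      show F w * (w - Φ p) * _ = F w * ∏ p ∈ Z, (w - Φ p)
      rw [mul_assoc, Finset.mul_prod_erase Z (fun q => w - Φ q) hp]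
  choose! cv hcv hcvt using hlim
  set E : ℂ → ℂ := fun w => if w ∈ S then cv (Φ.symm w) else H w with hE
  have hES : ∀ w ∉ S, E w = H w := fun w hw => by
    rw [hE]
    simp only [if_neg hw]
  have hEp : ∀ p ∈ Z, E (Φ p) = cv p := fun p hp => by
    rw [hE]
    simp only
    rw [if_pos ((hSm _).2 (by rwa [Φ.symm_apply_apply])), Φ.symm_apply_apply]
  have hEd : Differentiable ℂ E := by
    intro w
    by_cases hw : w ∈ S
    · obtain ⟨p, hp, rfl⟩ := Finset.mem_image.1 hw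
      have hN2 : ∀ᶠ w in 𝓝 (Φ p), w ∈ S → w = Φ p := by
        have h1 : ∀ᶠ w in 𝓝 (Φ p), w ∉ S.erase (Φ p) :=
          ((S.erase (Φ p)).finite_toSet.isClosed.isOpen_compl).mem_nhds (by simp)
        filter_upwards [h1] with w hw hwS
        by_contra h2
        exact hw (Finset.mem_erase.2 ⟨h2, hwS⟩)
      obtain ⟨r, hr, hrb⟩ := Metric.eventually_nhds_iff_ball.1 hN2
      have hnb : ∀ w ∈ ball (Φ p) r, w ≠ Φ p → w ∉ S := fun w hw hwp hwS => hwp (hrb w hw hwS)
      have h3 : DifferentiableOn ℂ E (ball (Φ p) r) := by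
        refine (Complex.differentiableOn_compl_singleton_and_continuousAt_iff
          (isOpen_ball.mem_nhds (mem_ball_self hr))).1 ⟨?_, ?_⟩
        · intro w hw
          have hwS := hnb w hw.1 hw.2
          have h4 : E =ᶠ[𝓝 w] H := by
            filter_upwards [(S.finite_toSet.isClosed.isOpen_compl).mem_nhds hwS] with y hy
            exact hES y hy
          exact (h4.differentiableAt_iff.2 (hHd w hwS)).differentiableWithinAt
        · rw [continuousAt_iff_punctured_nhds, hEp p hp]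
          refine (hcvt p hp).congr' ?_
          filter_upwards [self_mem_nhdsWithin, mem_nhdsWithin_of_mem_nhds
            (isOpen_ball.mem_nhds (mem_ball_self hr))] with w hw1 hw2
          exact (hES w (hnb w hw2 hw1)).symm
      exact h3.differentiableAt (isOpen_ball.mem_nhds (mem_ball_self hr))
    · have h4 : E =ᶠ[𝓝 w] H := by
        filter_upwards [(S.finite_toSet.isClosed.isOpen_compl).mem_nhds hw] with y hy
        exact hES y hy
      exact h4.differentiableAt_iff.2 (hHd w hw)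
  -- growth
  set C0 : ℝ := 1 + ∑ p ∈ Z, ‖Φ p‖ with hC0
  have hC01 : 1 ≤ C0 := by
    have : 0 ≤ ∑ p ∈ Z, ‖Φ p‖ := Finset.sum_nonneg fun _ _ => norm_nonneg _
    linarith
  have hB0 : 0 ≤ B := (norm_nonneg _).trans (hbd (ρ : ℂ) (by
    rw [Complex.norm_real, Real.norm_eq_abs, abs_of_pos (by linarith)]))
  obtain ⟨P', hdeg, heval⟩ := Pool.Agent.H269.ge_liouville E hEd Z.card
    ((5 / 4 * B + 5 / 2 * ρ) * C0 ^ Z.card) (4 * ρ) (fun w hw => by
      have h1 := hgr (Φ.symm w)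
      rw [Φ.apply_symm_apply] at h1
      have h2 : ρ ≤ ‖Φ.symm w‖ := by linarith
      have h3 : w ∉ S := fun h => hpf _ h2 ((hSm w).1 h)
      rw [hES w h3]
      show ‖F w * ∏ p ∈ Z, (w - Φ p)‖ ≤ _
      rw [norm_mul, norm_prod, mul_assoc]
      refine mul_le_mul ?_ ?_ (Finset.prod_nonneg fun _ _ => norm_nonneg _) (by positivity)
      · have h4 := hgr (u (Φ.symm w))
        have h5 := hbd _ h2
        show ‖Φ (u (Φ.symm w))‖ ≤ _
        linarith
      · rw [← mul_pow]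
        rw [← Finset.prod_const]
        refine Finset.prod_le_prod (fun _ _ => norm_nonneg _) fun p hp => ?_
        have h4 : ‖Φ p‖ ≤ ∑ p ∈ Z, ‖Φ p‖ :=
          Finset.single_le_sum (f := fun p => ‖Φ p‖) (fun _ _ => norm_nonneg _) hp
        have h5 := norm_sub_le w (Φ p)
        have h6 := norm_nonneg w
        nlinarith)
  refine ⟨P', hdeg, fun z hz => ?_, fun p hp => ?_⟩
  · rw [heval, hES _ (fun h => hz (by
      have := (hSm _).1 h
      rwa [Φ.symm_apply_apply] at this))]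
    show Φ (u (Φ.symm (Φ z))) * _ = _
    rw [Φ.symm_apply_apply]
  · rw [heval, hEp p hp]
    exact hcv p hp

end Pool.Agent.Helper23T
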