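import Pool.Agent.Helper23T.StepM

/-!
# The normalised theorem
-/

set_option autoImplicit false
set_option linter.unusedSectionVars false

open Set Filter Topology Metric
open scoped OnePoint

noncomputable section

namespace Pool.Agent.Helper23T

open Pool.Agent.H790R3.RB (CV hF ND sp pr hc pol HypTop Sink Attd PQ SP)
open Pool.Agent.Helper23S

variable {d : ℕ}

/-- `φ` is holomorphic at `z`: in homogeneous coordinates it is given by an analytic map -/
def HolAt (φ : OnePoint ℂ → OnePoint ℂ) (z : OnePoint ℂ) : Prop :=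
  ∃ p : ℂ × ℂ, p ≠ 0 ∧ pr p = z ∧ ∃ Ψ : ℂ × ℂ → ℂ × ℂ, AnalyticAt ℂ Ψ p ∧ Ψ p ≠ 0 ∧
    ∀ᶠ q in 𝓝 p, φ (pr q) = pr (Ψ q)

/-- extension of a plane homeomorphism -/
theorem hol_ext {Φ : ℂ ≃ₜ ℂ} {U0 : Set (OnePoint ℂ)} {ρ : ℝ} (hUo : IsOpen U0)
    (hΦ : DifferentiableOn ℂ Φ {z : ℂ | (z : OnePoint ℂ) ∈ U0})
    (hfar : ∀ z : ℂ, ρ ≤ ‖z‖ → (z : OnePoint ℂ) ∈ U0) {z : OnePoint ℂ} (hz : z ∈ U0) :
    HolAt Φ.onePointCongr z := by
  have hVo : IsOpen {z : ℂ | (z : OnePoint ℂ) ∈ U0} := hUo.preimage OnePoint.continuous_coe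
  induction z using OnePoint.rec with
  | coe z =>
    refine ⟨(z, 1), fun h => one_ne_zero (congrArg Prod.snd h), ?_,
      fun q => (Φ (q.1 / q.2), 1), ?_, fun h => one_ne_zero (congrArg Prod.snd h), ?_⟩
    · rw [Pool.Agent.H790R3.RB.SP.pr_ne (by simp)]
      simp
    · have h1 : AnalyticAt ℂ (Φ : ℂ → ℂ) (z / 1) := by
        rw [div_one]
        exact hΦ.analyticAt (hVo.mem_nhds hz)
      have h2 : AnalyticAt ℂ (fun q : ℂ × ℂ => q.1 / q.2) (z, 1) :=
        analyticAt_fst.div analyticAt_snd (by simp)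
      have h3 : AnalyticAt ℂ (fun q : ℂ × ℂ => Φ (q.1 / q.2)) (z, 1) :=
        AnalyticAt.fun_comp (g := (Φ : ℂ → ℂ)) (f := fun q : ℂ × ℂ => q.1 / q.2) h1 h2
      exact h3.prod analyticAt_const
    · have h1 : ∀ᶠ q : ℂ × ℂ in 𝓝 (z, 1), q.2 ≠ 0 :=
        continuous_snd.continuousAt.eventually_ne (by simp)
      filter_upwards [h1] with q hq
      rw [Pool.Agent.H790R3.RB.SP.pr_ne hq, Pool.Agent.H790R3.RB.SP.pr_ne (by simp)]
      simp only [div_one]
      rfl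
  | infty =>
    have hΦinf : Tendsto (fun z : ℂ => ‖Φ z‖) (Bornology.cobounded ℂ) atTop := by
      rw [tendsto_norm_atTop_iff_cobounded, Metric.cobounded_eq_cocompact]
      exact Φ.isClosedEmbedding.tendsto_cocompact
    set k : ℂ → ℂ := fun w => if w = 0 then 0 else (Φ w⁻¹)⁻¹ with hk
    have hk0 : k 0 = 0 := by rw [hk]; simp
    have hkw : ∀ w, w ≠ 0 → k w = (Φ w⁻¹)⁻¹ := fun w hw => by
      rw [hk]
      simp only [if_neg hw]
    have h1 : ∀ᶠ w : ℂ in 𝓝[≠] 0, ρ < ‖w⁻¹‖ ∧ 1 ≤ ‖Φ w⁻¹‖ := by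
      have h2 : Tendsto (fun w : ℂ => w⁻¹) (𝓝[≠] 0) (Bornology.cobounded ℂ) :=
        Filter.tendsto_inv₀_nhdsNE_zero
      have h3 : ∀ᶠ w : ℂ in Bornology.cobounded ℂ, ρ < ‖w‖ :=
        (tendsto_norm_cobounded_atTop (E := ℂ)).eventually_gt_atTop ρ
      have h4 : ∀ᶠ w : ℂ in Bornology.cobounded ℂ, 1 ≤ ‖Φ w‖ := hΦinf.eventually_ge_atTop 1
      exact h2.eventually (h3.and h4)
    rw [eventually_nhdsWithin_iff] at h1
    obtain ⟨r, hr, h2⟩ := Metric.eventually_nhds_iff_ball.1 h1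
    have hkd : DifferentiableOn ℂ k (ball 0 r) := by
      refine (Complex.differentiableOn_compl_singleton_and_continuousAt_iff
        (isOpen_ball.mem_nhds (mem_ball_self hr))).1 ⟨?_, ?_⟩
      · intro w hw
        have hw0 : w ≠ 0 := hw.2
        obtain ⟨h3, h4⟩ := h2 w hw.1 hw0
        have h5 : DifferentiableAt ℂ Φ w⁻¹ :=
          hΦ.differentiableAt (hVo.mem_nhds (hfar _ h3.le))
        have h6 : Φ w⁻¹ ≠ 0 := by
          intro h0
          rw [h0, norm_zero] at h4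
          linarith
        have h7 : DifferentiableAt ℂ (fun w => (Φ w⁻¹)⁻¹) w :=
          (DifferentiableAt.comp (g := (Φ : ℂ → ℂ)) w h5 (differentiableAt_inv hw0)).inv h6
        have h8 : k =ᶠ[𝓝 w] fun w => (Φ w⁻¹)⁻¹ := by
          filter_upwards [isOpen_ne.mem_nhds hw0] with v hv
          exact hkw v hv
        exact (h8.differentiableAt_iff.2 h7).differentiableWithinAt
      · rw [continuousAt_iff_punctured_nhds, hk0, tendsto_zero_iff_norm_tendsto_zero]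
        have h3 : Tendsto (fun w : ℂ => ‖Φ w⁻¹‖) (𝓝[≠] 0) atTop :=
          hΦinf.comp Filter.tendsto_inv₀_nhdsNE_zero
        refine (tendsto_inv_atTop_zero.comp h3).congr' ?_
        filter_upwards [self_mem_nhdsWithin] with w hw
        rw [hkw w hw, norm_inv]
        rfl
    have hka : AnalyticAt ℂ k (0 / 1) := by
      rw [zero_div]
      exact hkd.analyticAt (isOpen_ball.mem_nhds (mem_ball_self hr))
    refine ⟨(1, 0), fun h => one_ne_zero (congrArg Prod.fst h), ?_,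
      fun q => (1, k (q.2 / q.1)), ?_, fun h => one_ne_zero (congrArg Prod.fst h), ?_⟩
    · exact Pool.Agent.H790R3.RB.SP.pr_zero rfl
    · have h3 : AnalyticAt ℂ (fun q : ℂ × ℂ => q.2 / q.1) (1, 0) :=
        analyticAt_snd.div analyticAt_fst (by simp)
      have h4 : AnalyticAt ℂ (fun q : ℂ × ℂ => k (q.2 / q.1)) (1, 0) :=
        AnalyticAt.fun_comp (g := k) (f := fun q : ℂ × ℂ => q.2 / q.1) hka h3
      exact analyticAt_const.prod h4
    · have h3 : ∀ᶠ q : ℂ × ℂ in 𝓝 (1, 0), q.1 ≠ 0 :=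
        continuous_fst.continuousAt.eventually_ne (by simp)
      have h4 : ContinuousAt (fun q : ℂ × ℂ => q.2 / q.1) (1, 0) :=
        continuousAt_snd.div continuousAt_fst (by simp)
      have h5 : ∀ᶠ q : ℂ × ℂ in 𝓝 (1, 0), q.2 / q.1 ∈ ball (0 : ℂ) r := by
        refine h4.eventually (isOpen_ball.mem_nhds ?_)
        simpa using hr
      filter_upwards [h3, h5] with q hq hq5
      by_cases h0 : q.2 = 0
      · rw [Pool.Agent.H790R3.RB.SP.pr_zero h0, h0, zero_div, hk0,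
          Pool.Agent.H790R3.RB.SP.pr_zero rfl]
        rfl
      · have h6 : q.2 / q.1 ≠ 0 := div_ne_zero h0 hq
        obtain ⟨-, h7⟩ := h2 _ hq5 h6
        rw [inv_div] at h7
        have h8 : Φ (q.1 / q.2) ≠ 0 := by
          intro h0
          rw [h0, norm_zero] at h7
          linarith
        rw [Pool.Agent.H790R3.RB.SP.pr_ne h0, hkw _ h6, inv_div,
          Pool.Agent.H790R3.RB.SP.pr_ne (inv_ne_zero h8)]
        simp only [div_inv_eq_mul, one_mul]
        rfl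

/-- closeness to the identity on the sphere -/
theorem close_id {ρ : ℝ} {W : Set (OnePoint ℂ × OnePoint ℂ)} (hW : IsOpen W)
    (hWd : ∀ z, (z, z) ∈ W) : ∃ ε > 0, ∃ M ≥ 0, ∀ Φ : ℂ ≃ₜ ℂ, (∀ z, ‖z‖ ≤ M → ‖Φ z - z‖ ≤ ε) →
      (∀ z, 2 * ρ ≤ ‖z‖ → ‖Φ z - z‖ ≤ 1 / 2 * ‖z‖) → ∀ z, (z, Φ.onePointCongr z) ∈ W := by
  -- near infinity
  obtain ⟨R, hR0, hR⟩ : ∃ R > 0, ∀ z w : ℂ, R ≤ ‖z‖ → R ≤ ‖w‖ → ((z : OnePoint ℂ), (w : OnePoint ℂ)) ∈ W := by
    have h1 : W ∈ 𝓝 ((∞ : OnePoint ℂ), (∞ : OnePoint ℂ)) := hW.mem_nhds (hWd ∞)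
    rw [nhds_prod_eq] at h1
    have h2 : Tendsto (fun p : ℂ × ℂ => ((p.1 : OnePoint ℂ), (p.2 : OnePoint ℂ)))
        (Bornology.cobounded ℂ ×ˢ Bornology.cobounded ℂ)
        (𝓝 (∞ : OnePoint ℂ) ×ˢ 𝓝 (∞ : OnePoint ℂ)) := by
      have h3 : Tendsto ((↑) : ℂ → OnePoint ℂ) (Bornology.cobounded ℂ) (𝓝 ∞) := by
        rw [Metric.cobounded_eq_cocompact, ← coclosedCompact_eq_cocompact]
        exact OnePoint.tendsto_coe_infty
      exact h3.prodMap h3
    have h3 := h2 h1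
    rw [Filter.mem_map, Filter.mem_prod_iff] at h3
    obtain ⟨t1, ht1, t2, ht2, h4⟩ := h3
    obtain ⟨r1, -, hr1⟩ := (Metric.hasBasis_cobounded_compl_closedBall (0 : ℂ)).mem_iff.1 ht1
    obtain ⟨r2, -, hr2⟩ := (Metric.hasBasis_cobounded_compl_closedBall (0 : ℂ)).mem_iff.1 ht2
    refine ⟨max 1 (max (r1 + 1) (r2 + 1)), lt_of_lt_of_le one_pos (le_max_left _ _), fun z w hz hw => ?_⟩
    have h5 : z ∈ t1 := hr1 (by
      rw [mem_compl_iff, mem_closedBall_zero_iff, not_le]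
      have := ((le_max_left (r1 + 1) (r2 + 1)).trans (le_max_right 1 _)).trans hz
      linarith)
    have h6 : w ∈ t2 := hr2 (by
      rw [mem_compl_iff, mem_closedBall_zero_iff, not_le]
      have := ((le_max_right (r1 + 1) (r2 + 1)).trans (le_max_right 1 _)).trans hw
      linarith)
    exact h4 (mk_mem_prod h5 h6)
  -- on a large disc
  set M : ℝ := 2 * R + 2 * |ρ| with hM
  have hM0 : 0 ≤ M := by positivity
  have hev : ∀ᶠ v : ℂ in 𝓝 0, ∀ z ∈ closedBall (0 : ℂ) M, ((z : OnePoint ℂ), ((z + v : ℂ) : OnePoint ℂ)) ∈ W := by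
    refine (isCompact_closedBall (0 : ℂ) M).eventually_forall_of_forall_eventually
      (P := fun v z => ((z : OnePoint ℂ), ((z + v : ℂ) : OnePoint ℂ)) ∈ W) fun z _ => ?_
    have h1 : Continuous (fun p : ℂ × ℂ => ((p.2 : OnePoint ℂ), ((p.2 + p.1 : ℂ) : OnePoint ℂ))) :=
      (OnePoint.continuous_coe.comp continuous_snd).prodMk
        (OnePoint.continuous_coe.comp (continuous_snd.add continuous_fst))
    refine h1.continuousAt.eventually (hW.mem_nhds ?_)
    simp only [add_zero]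
    exact hWd _
  obtain ⟨ε, hε, hεW⟩ := Metric.eventually_nhds_iff_ball.1 hev
  refine ⟨ε / 2, by linarith, M, hM0, fun Φ h1 h2 z => ?_⟩
  induction z using OnePoint.rec with
  | infty => exact hWd ∞
  | coe z =>
    show ((z : OnePoint ℂ), ((Φ z : ℂ) : OnePoint ℂ)) ∈ W
    rcases le_total ‖z‖ M with h | h
    · have h3 := hεW (Φ z - z) (by
        rw [mem_ball_zero_iff]
        linarith [h1 z h]) z (by rwa [mem_closedBall_zero_iff])
      rwa [add_sub_cancel] at h3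
    · have h3 : 2 * ρ ≤ ‖z‖ := by
        have := le_abs_self ρ
        linarith
      have h4 := h2 z h3
      have h5 := norm_sub_norm_le z (Φ z)
      rw [norm_sub_rev] at h5
      have h6 := abs_nonneg ρ
      exact hR _ _ (by linarith) (by linarith)

section

variable {x : CV d} {U0 : Set (OnePoint ℂ)} {Z : Finset ℂ} {χ : ℂ → ℝ} {a0 b0 ρ : ℝ} {lc : ℂ}

/-- **the normalised theorem** -/
theorem normM (D : Data x U0 Z χ a0 b0 ρ) (hg : Gen x Z lc) (hpf : ∀ p ∈ Z, ‖p‖ < ρ)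
    {ε : ℝ} (hε : 0 < ε)
    {W : Set (OnePoint ℂ × OnePoint ℂ)} (hW : IsOpen W) (hWd : ∀ z, (z, z) ∈ W) :
    ∀ᶠ y in 𝓝 x, ND y → ∃ (φ : OnePoint ℂ ≃ₜ OnePoint ℂ) (x' : CV d), ND x' ∧
      (HypTop (sp y) → HypTop (sp x')) ∧ ‖x' - x‖ < ε ∧
      (∀ z, (z, φ z) ∈ W) ∧ (∀ z ∈ U0, sp x' (φ z) = φ (sp x z)) ∧
      (∀ z ∉ Dm χ a0, sp x' (φ z) = φ (sp y z)) ∧ (∀ z ∈ Dm χ a0, sp x' (φ z) ∈ φ '' U0) ∧
      ∀ z ∈ U0, HolAt φ z := by
  classical
  by_contra hcon
  have hfr := Filter.not_eventually.1 hcon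
  obtain ⟨εW, hεW, MW, -, hcl⟩ := close_id (ρ := ρ) hW hWd
  have hstep := fun k : ℕ => (hfr.and_eventually (stepM D hg hpf (ε := 1 / ((k : ℝ) + 1)) (M := k)
    (by positivity) (by positivity))).exists
  choose y hyn hys using hstep
  have hynd : ∀ k, ND (y k) := fun k => (Classical.not_imp.1 (hyn k)).1
  have hyno := fun k => (Classical.not_imp.1 (hyn k)).2
  have hys' := fun k => hys k (hynd k)
  choose Φ X P' hX hhyp h1 h2 h3 h4 h5 h6 h7 h8 using hys'
  have hρ1 := D.ρ1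
  -- pointwise convergence
  have hp : ∀ z, Tendsto (fun k => Φ k z) atTop (𝓝 z) := by
    intro z
    rw [tendsto_iff_norm_sub_tendsto_zero]
    refine squeeze_zero' (Eventually.of_forall fun k => norm_nonneg _) ?_
      tendsto_one_div_add_atTop_nhds_zero_nat
    filter_upwards [(tendsto_natCast_atTop_atTop (R := ℝ)).eventually_ge_atTop ‖z‖] with k hk
    exact h1 k z hk
  -- the nodes
  set w : Fin (d + 1) → ℂ := fun i => ((ρ + (i : ℕ) : ℝ) : ℂ) with hw
  have hwn : ∀ i, ρ ≤ ‖w i‖ := by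
    intro i
    rw [hw]
    simp only
    rw [Complex.norm_real, Real.norm_eq_abs]
    have : (0 : ℝ) ≤ (i : ℕ) := Nat.cast_nonneg _
    rw [abs_of_nonneg (by linarith)]
    linarith
  have hwinj : Function.Injective w := by
    intro i j hij
    have h9 : (ρ + (i : ℕ) : ℝ) = ρ + (j : ℕ) := Complex.ofReal_injective hij
    have h10 : ((i : ℕ) : ℝ) = (j : ℕ) := by linarith
    exact Fin.ext (by exact_mod_cast h10)
  have hwU : ∀ i, (w i : OnePoint ℂ) ∈ U0 := fun i => D.far _ (hwn i)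
  have hwZ : ∀ i, w i ∉ Z := fun i hi => absurd (hpf _ hi) (not_lt.2 (hwn i))
  -- the limit polynomial
  set B : Polynomial ℂ := Polynomial.C lc⁻¹ * pol x 0 with hB
  have hBd : B.natDegree ≤ d := by
    rw [hB, Polynomial.natDegree_C_mul (inv_ne_zero hg.lc0)]
    exact Pool.Agent.H790R3.RB.PQ.pol_natDegree x 0
  have hct0 : CT atTop P' B := by
    refine ct_of_eval h5 hBd hwinj (v := fun k i => Φ k (w i)) (fun i => hp (w i)) fun i => ?_
    have e1 : B.eval (w i) = fp x (w i) * ∏ p ∈ Z, (w i - p) := by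
      have e2 : qd x (w i) ≠ 0 := fun h => hwZ i ((hg.root _).2 h)
      have e3 : qd x (w i) = lc * ∏ p ∈ Z, (w i - p) := by
        unfold qd
        rw [hg.Q, Polynomial.eval_mul, Polynomial.eval_C, Polynomial.eval_prod]
        simp
      have e4 : ∏ p ∈ Z, (w i - p) ≠ 0 := by
        rw [e3] at e2
        exact right_ne_zero_of_mul e2
      rw [hB, Polynomial.eval_mul, Polynomial.eval_C]
      show lc⁻¹ * (pol x 0).eval (w i) = (pol x 0).eval (w i) / qd x (w i) * _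
      rw [e3]
      have := hg.lc0
      field_simp
    rw [e1]
    have e5 : (fun k => (P' k).eval (Φ k (w i))) = fun k =>
        Φ k (fp x (w i)) * ∏ p ∈ Z, (Φ k (w i) - Φ k p) := by
      funext k
      exact h8 k (w i) (hwU i) (hwZ i)
    rw [e5]
    exact (hp _).mul (tendsto_finsetProd _ fun p _ => (hp _).sub (hp p))
  have hctP : CT atTop (fun k => pol (X k) 0) (pol x 0) := by
    have e1 : pol x 0 = Polynomial.C lc * B := by
      rw [hB, ← mul_assoc, ← Polynomial.C_mul, mul_inv_cancel₀ hg.lc0, Polynomial.C_1, one_mul]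
    rw [e1]
    have e2 := (CT.const (l := atTop) (Polynomial.C lc)).mul hct0
    have e3 : (fun k => pol (X k) 0) = fun k => Polynomial.C lc * P' k := funext h6
    rw [e3]
    exact e2
  have hctQ : CT atTop (fun k => pol (X k) 1) (pol x 1) := by
    rw [hg.Q]
    have e3 : (fun k => pol (X k) 1) = fun k =>
        Polynomial.C lc * ∏ p ∈ Z, (Polynomial.X - Polynomial.C (Φ k p)) := funext h7
    rw [e3]
    refine (CT.const (Polynomial.C lc)).mul (CT.prod fun p _ => ?_)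
    exact (CT.const Polynomial.X).sub (CT.C (hp p))
  have hXt : Tendsto X atTop (𝓝 x) := by
    rw [tendsto_pi_nhds]
    rintro ⟨i, j⟩
    have e1 : ∀ y : CV d, y (i, j) = (pol y i).coeff (j : ℕ) := fun y =>
      (Pool.Agent.H790R3.RB.PQ.pol_coeff y i j).symm
    simp only [e1]
    fin_cases i
    · exact hctP (j : ℕ)
    · exact hctQ (j : ℕ)
  have e1 : ∀ᶠ k in atTop, ‖X k - x‖ < ε := by
    have := (tendsto_iff_norm_sub_tendsto_zero.1 hXt).eventually (gt_mem_nhds hε)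
    exact this
  have e2 : ∀ᶠ k : ℕ in atTop, 1 / ((k : ℝ) + 1) ≤ εW :=
    (tendsto_one_div_add_atTop_nhds_zero_nat (𝕜 := ℝ)).eventually (ge_mem_nhds hεW)
  have e3 : ∀ᶠ k : ℕ in atTop, MW ≤ (k : ℝ) :=
    (tendsto_natCast_atTop_atTop (R := ℝ)).eventually_ge_atTop MW
  obtain ⟨k, hk1, hk2, hk3⟩ := (e1.and (e2.and e3)).exists
  refine hyno k ⟨(Φ k).onePointCongr, X k, hX k, hhyp k, hk1, ?_, (h3 k).1, (h3 k).2.1, (h3 k).2.2,
    fun z hz => ?_⟩
  · exact hcl (Φ k) (fun z hz => (h1 k z (hz.trans hk3)).trans hk2) (h2 k)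
  · exact hol_ext D.Uo (h4 k) D.far hz

end

end Pool.Agent.Helper23T
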