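import Pool.Agent.Helper23T.CutM
import Pool.Agent.Helper23T.RatM
import Pool.Agent.Helper23T.CoefM
import Pool.Agent.Helper23S.MainQ

/-!
# One step of the construction
-/

set_option autoImplicit false
set_option linter.unusedSectionVars false

open Set Filter Topology Metric
open scoped OnePoint

noncomputable section

namespace Pool.Agent.Helper23T

open Pool.Agent.H790R3.RB (CV hF ND sp pr hc pol HypTop Sink Attd PQ SP)
open Pool.Agent.Split938 (dbar)
open Pool.Agent.Helper23S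

variable {d : ℕ}

/-- infinity is a generic point -/
structure Gen (x : CV d) (Z : Finset ℂ) (lc : ℂ) : Prop where
  card : Z.card = d
  lc0 : lc ≠ 0
  Q : pol x 1 = Polynomial.C lc * ∏ p ∈ Z, (Polynomial.X - Polynomial.C p)
  simple : ∀ p ∈ Z, (Polynomial.derivative (pol x 1)).eval p ≠ 0

theorem Gen.root {x : CV d} {Z : Finset ℂ} {lc : ℂ} (h : Gen x Z lc) (z : ℂ) :
    z ∈ Z ↔ qd x z = 0 := by
  unfold qd
  rw [h.Q, Polynomial.eval_mul, Polynomial.eval_C, Polynomial.eval_prod]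
  simp only [Polynomial.eval_sub, Polynomial.eval_X, Polynomial.eval_C, mul_eq_zero, h.lc0,
    false_or, Finset.prod_eq_zero_iff, sub_eq_zero]
  constructor
  · intro hz
    exact ⟨z, hz, rfl⟩
  · rintro ⟨p, hp, rfl⟩
    exact hp

theorem gen_of {x : CV d} (h : Pool.Agent.W757.Q2.Ginf d (pol x 0) (pol x 1)) :
    ∃ (Z : Finset ℂ) (lc : ℂ), Gen x Z lc := by
  classical
  obtain ⟨hdeg, -, hw⟩ := h
  set Q := pol x 1 with hQ
  have hsim : ∀ ζ, Q.eval ζ = 0 → (Polynomial.derivative Q).eval ζ ≠ 0 := by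
    intro ζ hζ h0
    apply hw ζ hζ
    unfold Pool.Agent.W757.QR.wn
    rw [Polynomial.eval_sub, Polynomial.eval_mul, Polynomial.eval_mul, hζ, h0]
    ring
  have hQ0 : Q ≠ 0 := by
    intro h0
    have h1 := hsim 0 (by rw [h0]; simp)
    rw [h0] at h1
    simp at h1
  have hnd : Q.roots.Nodup := by
    refine Polynomial.nodup_roots ?_
    rw [Polynomial.separable_def]
    rw [Polynomial.isCoprime_iff_aeval_ne_zero_of_isAlgClosed ℂ ℂ]
    intro a
    rw [Polynomial.coe_aeval_eq_eval]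
    by_cases ha : Q.eval a = 0
    · exact Or.inr (hsim a ha)
    · exact Or.inl ha
  have hcr : Q.roots.card = Q.natDegree := (IsAlgClosed.splits Q).natDegree_eq_card_roots.symm
  have hcard : Q.roots.toFinset.card = d := by
    rw [Multiset.toFinset_card_of_nodup hnd, hcr, hdeg]
  refine ⟨Q.roots.toFinset, Q.leadingCoeff, hcard, Polynomial.leadingCoeff_ne_zero.2 hQ0, ?_, ?_⟩
  · have h1 := Polynomial.C_leadingCoeff_mul_prod_multiset_X_sub_C hcr
    conv_lhs => rw [← hQ, ← h1]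
    congr 1
    rw [Finset.prod_eq_multiset_prod, Multiset.toFinset_val, hnd.dedup]
  · intro p hp
    rw [Multiset.mem_toFinset, Polynomial.mem_roots hQ0] at hp
    exact hsim p hp

section

variable {x : CV d} {U0 : Set (OnePoint ℂ)} {Z : Finset ℂ} {χ : ℂ → ℝ} {a0 b0 ρ : ℝ} {lc : ℂ}

/-- the finite part is bounded near infinity -/
theorem fp_bdd (D : Data x U0 Z χ a0 b0 ρ) (hg : Gen x Z lc) (hpf : ∀ p ∈ Z, ‖p‖ < ρ) :
    ∃ B : ℝ, ∀ z : ℂ, ρ ≤ ‖z‖ → ‖fp x z‖ ≤ B := by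
  have hspc : Continuous (sp x) := Pool.Agent.H790R3.RB.SP.sp_cont D.nd
  have hC : IsCompact (((↑) '' ball (0 : ℂ) ρ)ᶜ : Set (OnePoint ℂ)) :=
    (OnePoint.isOpenMap_coe _ isOpen_ball).isClosed_compl.isCompact
  have hI : IsClosed (sp x '' ((↑) '' ball (0 : ℂ) ρ)ᶜ) := (hC.image hspc).isClosed
  have hinf : ∞ ∉ sp x '' ((↑) '' ball (0 : ℂ) ρ)ᶜ := by
    rintro ⟨z, hz, hz2⟩
    induction z using OnePoint.rec with
    | infty =>
      have h1 : hc (∞ : OnePoint ℂ) = (1, 0) := rfl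
      have h2 : sp x ∞ = pr (hF x (1, 0)) := rfl
      rw [h2, Pool.Agent.H790R3.RB.PQ.hF_inf] at hz2
      have h3 : (pol x 1).coeff d ≠ 0 := by
        rw [hg.Q, Polynomial.coeff_C_mul]
        have h4 : (∏ p ∈ Z, (Polynomial.X - Polynomial.C p)).Monic :=
          Polynomial.monic_prod_of_monic _ _ fun p _ => Polynomial.monic_X_sub_C p
        have h5 : (∏ p ∈ Z, (Polynomial.X - Polynomial.C p)).natDegree = d := by
          rw [Polynomial.natDegree_prod_of_monic _ _ fun p _ => Polynomial.monic_X_sub_C p]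
          simp [hg.card]
        have h6 := h4.coeff_natDegree
        rw [h5] at h6
        rw [h6, mul_one]
        exact hg.lc0
      rw [Pool.Agent.H790R3.RB.SP.pr_ne (by exact h3)] at hz2
      exact OnePoint.coe_ne_infty _ hz2
    | coe z =>
      have h1 : z ∉ Z := fun hZ => hz ⟨z, mem_ball_zero_iff.2 (hpf z hZ), rfl⟩
      rw [sp_fin x (fun h => h1 ((hg.root z).2 h))] at hz2
      exact OnePoint.coe_ne_infty _ hz2
  have h1 : ∀ᶠ w : ℂ in Bornology.cobounded ℂ,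
      (w : OnePoint ℂ) ∉ sp x '' ((↑) '' ball (0 : ℂ) ρ)ᶜ := by
    have h2 := (OnePoint.tendsto_coe_infty (X := ℂ)).eventually (hI.isOpen_compl.mem_nhds hinf)
    rwa [coclosedCompact_eq_cocompact, ← Metric.cobounded_eq_cocompact] at h2
  obtain ⟨B, -, hB⟩ := (Metric.hasBasis_cobounded_compl_closedBall (0 : ℂ)).eventually_iff.1 h1
  refine ⟨B, fun z hz => ?_⟩
  by_contra hc
  refine hB (x := fp x z) ?_ ?_
  · rw [mem_compl_iff, mem_closedBall_zero_iff]
    exact hc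
  · have h2 : z ∉ Z := fun hZ => absurd (hpf z hZ) (not_lt.2 hz)
    refine ⟨z, ?_, sp_fin x (fun h => h2 ((hg.root z).2 h))⟩
    rintro ⟨w, hw, hwz⟩
    rw [OnePoint.coe_injective hwz, mem_ball_zero_iff] at hw
    linarith

/-- behaviour at the poles -/
theorem fp_pole (D : Data x U0 Z χ a0 b0 ρ) (hg : Gen x Z lc) {p : ℂ} (hp : p ∈ Z) :
    Tendsto (fun z => ‖fp x z‖) (𝓝[≠] p) atTop ∧ ∃ O ∈ 𝓝 p, InjOn (fp x) (O \ {p}) := by
  have hq : qd x p = 0 := (hg.root p).1 hp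
  have hcop := (Pool.Agent.H790R3.RB.PQ.part1 (by linarith [D.d2]) x D.nd).1
  have hP : (pol x 0).eval p ≠ 0 := by
    intro h0
    have h1 := (Polynomial.isCoprime_iff_aeval_ne_zero_of_isAlgClosed ℂ ℂ _ _).1 hcop p
    rw [Polynomial.coe_aeval_eq_eval] at h1
    rcases h1 with h1 | h1
    · exact h1 h0
    · exact h1 hq
  set k : ℂ → ℂ := fun z => (pol x 1).eval z / (pol x 0).eval z with hk
  have hkd : ContDiffAt ℂ 1 k p :=
    (pol x 1).differentiable.contDiff.contDiffAt.div (pol x 0).differentiable.contDiff.contDiffAt hP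
  have hkp : k p = 0 := by
    show (pol x 1).eval p / _ = 0
    rw [show (pol x 1).eval p = 0 from hq, zero_div]
  have hk' : HasDerivAt k ((Polynomial.derivative (pol x 1)).eval p / (pol x 0).eval p) p := by
    have h1 := ((pol x 1).hasDerivAt p).div ((pol x 0).hasDerivAt p) hP
    refine h1.congr_deriv ?_
    rw [show (pol x 1).eval p = 0 from hq]
    field_simp
    ring
  have hk0 : (Polynomial.derivative (pol x 1)).eval p / (pol x 0).eval p ≠ 0 :=
    div_ne_zero (hg.simple p hp) hP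
  have hfk : ∀ z, fp x z = (k z)⁻¹ := fun z => by
    rw [hk]
    simp only [inv_div]
    rfl
  constructor
  · have h1 : Tendsto k (𝓝[≠] p) (𝓝[≠] 0) := by
      refine tendsto_nhdsWithin_iff.2 ⟨?_, ?_⟩
      · have := hkd.continuousAt.tendsto
        rw [hkp] at this
        exact this.mono_left nhdsWithin_le_nhds
      · have := hk'.eventually_ne hk0 (c := 0)
        exact this
    have h2 : Tendsto (fun z => ‖k z‖) (𝓝[≠] p) (𝓝[>] 0) := by
      refine tendsto_nhdsWithin_iff.2 ⟨?_, ?_⟩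
      · have := (tendsto_nhdsWithin_iff.1 h1).1.norm
        rwa [norm_zero] at this
      · filter_upwards [(tendsto_nhdsWithin_iff.1 h1).2] with z hz
        exact norm_pos_iff.2 hz
    refine (tendsto_inv_nhdsGT_zero.comp h2).congr fun z => ?_
    rw [hfk, norm_inv]
    rfl
  · have hst : HasStrictDerivAt k ((Polynomial.derivative (pol x 1)).eval p / (pol x 0).eval p) p :=
      hkd.hasStrictDerivAt' hk' one_ne_zero
    let ψ := hst.hasStrictFDerivAt_equiv hk0 |>.toOpenPartialHomeomorph k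
    refine ⟨ψ.source, ψ.open_source.mem_nhds
      (hst.hasStrictFDerivAt_equiv hk0).mem_toOpenPartialHomeomorph_source, ?_⟩
    intro z hz w hw hzw
    rw [hfk, hfk] at hzw
    have h3 : InjOn k ψ.source := by simpa [ψ] using ψ.injOn
    exact h3 hz.1 hw.1 (inv_injective hzw)

/-- **One step.** -/
theorem stepM (D : Data x U0 Z χ a0 b0 ρ) (hg : Gen x Z lc) (hpf : ∀ p ∈ Z, ‖p‖ < ρ)
    {ε M : ℝ} (hε : 0 < ε) (hM : 0 ≤ M) : ∀ᶠ y in 𝓝 x, ND y →
    ∃ (Φ : ℂ ≃ₜ ℂ) (x' : CV d) (P' : Polynomial ℂ), ND x' ∧ (HypTop (sp y) → HypTop (sp x')) ∧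
      (∀ z, ‖z‖ ≤ M → ‖Φ z - z‖ ≤ ε) ∧ (∀ z, 2 * ρ ≤ ‖z‖ → ‖Φ z - z‖ ≤ 1 / 2 * ‖z‖) ∧
      ((∀ z ∈ U0, sp x' (Φ.onePointCongr z) = Φ.onePointCongr (sp x z)) ∧
        (∀ z ∉ Dm χ a0, sp x' (Φ.onePointCongr z) = Φ.onePointCongr (sp y z)) ∧
        ∀ z ∈ Dm χ a0, sp x' (Φ.onePointCongr z) ∈ Φ.onePointCongr '' U0) ∧
      DifferentiableOn ℂ Φ {z : ℂ | (z : OnePoint ℂ) ∈ U0} ∧
      P'.natDegree ≤ d ∧ pol x' 0 = Polynomial.C lc * P' ∧
      pol x' 1 = Polynomial.C lc * ∏ p ∈ Z, (Polynomial.X - Polynomial.C (Φ p)) ∧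
      ∀ z : ℂ, (z : OnePoint ℂ) ∈ U0 → z ∉ Z →
        P'.eval (Φ z) = Φ (fp x z) * ∏ p ∈ Z, (Φ z - Φ p) := by
  classical
  have hρ1 := D.ρ1
  have hρ0 : 0 < ρ := by linarith
  obtain ⟨C1, hC1, hcl⟩ := ph_close hρ1 hM
  set κ : ℝ := min (1 / 40) ((ε / (3 * C1)) ^ 2) with hκ
  have hκ0 : 0 < κ := lt_min (by norm_num) (by positivity)
  have hκ1 : κ ≤ 1 / 40 := min_le_left _ _
  have hκε : C1 * (κ * (1 + Real.log (1 / κ))) ≤ ε := by
    have h1 := log_sqrt_bound hκ0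
    have h2 : Real.sqrt κ ≤ ε / (3 * C1) := by
      rw [Real.sqrt_le_left (by positivity)]
      exact min_le_right _ _
    calc C1 * (κ * (1 + Real.log (1 / κ))) ≤ C1 * (3 * Real.sqrt κ) :=
          mul_le_mul_of_nonneg_left h1 hC1.le
      _ ≤ C1 * (3 * (ε / (3 * C1))) := by gcongr
      _ = ε := by field_simp
  filter_upwards [cutM D hκ0 hκ1] with y hy hynd
  obtain ⟨hy2, a, b, ha, hab, hb, hqm, hGU, hGH, hGDm⟩ := hy hynd
  set u := itq χ a b (fp x) (fp y) with hu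
  set G := Gm x Z u with hG
  obtain ⟨Φ, h1, h2, h3, h4, h5, h6⟩ := limit_homeo (ε := ε) (M := M) hρ1 hκ0.le hκ1
    (pbm_adm hqm) (pbm_ev hqm) (fun L hL1 hL2 μ hμ z hz =>
      (hcl κ L μ hκ0 hκ1 (by linarith) (by linarith) hμ z hz).trans hκε)
  -- elementary properties
  have hb1 := D.b1
  have huU : ∀ z : ℂ, (z : OnePoint ℂ) ∈ U0 → u z = fp x z := by
    intro z hz
    exact itq_out hab (by rw [D.χ1 z hz]; linarith)
  have hqx : ∀ z, z ∉ Z → qd x z ≠ 0 := fun z hz h => hz ((D.Zr z).2 h)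
  -- the conjugate is rational
  have hhol : ∀ z ∉ Z, DifferentiableAt ℂ (fun w => Φ (u (Φ.symm w))) (Φ z) := by
    intro z hz
    refine h5 u {z | z ∉ Z} ?_ (fun z hz => (hqm.sm z hz).differentiableAt (by simp))
      (fun K z hz => pbm_rel hqm K hz) z hz
    exact Z.finite_toSet.isClosed.isOpen_compl
  obtain ⟨B, hB⟩ := fp_bdd D hg hpf
  have hVn : ∀ p ∈ Z, ∀ᶠ z : ℂ in 𝓝 p, u z = fp x z := by
    intro p hp
    filter_upwards [hqm.Vopen.mem_nhds (hqm.ZV p hp)] with z hz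
    exact huU z hz
  obtain ⟨P', hP1, hP2, hP3⟩ := rat (Z := Z) (u := u) hρ1 Φ hhol h3 h4 (B := B)
    (fun z hz => by rw [huU z (D.far z hz)]; exact hB z hz)
    (fun z hz hZ => absurd (hpf z hZ) (not_lt.2 hz))
    (fun p hp => by
      refine (fp_pole D hg hp).1.congr' ?_
      filter_upwards [mem_nhdsWithin_of_mem_nhds (hVn p hp)] with z hz
      rw [show u z = fp x z from hz])
    (fun p hp => by
      obtain ⟨O, hO, hinj⟩ := (fp_pole D hg hp).2
      refine ⟨O ∩ {z | u z = fp x z}, inter_mem hO (hVn p hp), ?_⟩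
      rintro z ⟨⟨hz1, hz2⟩, hz3⟩ w ⟨⟨hw1, hw2⟩, hw3⟩ hzw
      rw [show u z = fp x z from hz2, show u w = fp x w from hw2] at hzw
      exact hinj ⟨hz1, hz3⟩ ⟨hw1, hw3⟩ hzw)
  -- the coefficients
  set Q' : Polynomial ℂ := Polynomial.C lc * ∏ p ∈ Z, (Polynomial.X - Polynomial.C (Φ p)) with hQ'
  set P'' : Polynomial ℂ := Polynomial.C lc * P' with hP''
  have hQe : ∀ w, Q'.eval w = lc * ∏ p ∈ Z, (w - Φ p) := by
    intro w
    rw [hQ', Polynomial.eval_mul, Polynomial.eval_C, Polynomial.eval_prod]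
    simp
  have hQ0 : ∀ z, Q'.eval (Φ z) = 0 ↔ z ∈ Z := by
    intro z
    rw [hQe]
    simp only [mul_eq_zero, hg.lc0, false_or, Finset.prod_eq_zero_iff, sub_eq_zero]
    constructor
    · rintro ⟨p, hp, hpz⟩
      rwa [Φ.injective hpz]
    · intro hz
      exact ⟨z, hz, rfl⟩
  have hQdeg : Q'.natDegree = d := by
    rw [hQ', Polynomial.natDegree_C_mul hg.lc0,
      Polynomial.natDegree_prod_of_monic _ _ fun p _ => Polynomial.monic_X_sub_C (Φ p)]
    simp [hg.card]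
  have hPdeg : P''.natDegree ≤ d := by
    rw [hP'', Polynomial.natDegree_C_mul hg.lc0, ← hg.card]
    exact hP1
  have hcop : IsCoprime P'' Q' := by
    rw [Polynomial.isCoprime_iff_aeval_ne_zero_of_isAlgClosed ℂ ℂ]
    intro w
    rw [Polynomial.coe_aeval_eq_eval]
    obtain ⟨z, rfl⟩ := Φ.surjective w
    by_cases hz : z ∈ Z
    · left
      rw [hP'', Polynomial.eval_mul, Polynomial.eval_C]
      exact mul_ne_zero hg.lc0 (hP3 z hz)
    · right
      rw [Ne, hQ0]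
      exact hz
  have hd1 : 1 ≤ d := by linarith [D.d2]
  obtain ⟨x', hx', hx0, hx1, hxu⟩ := (PQ SP d hd1).2 P'' Q' hcop (by rw [hQdeg]; omega)
  -- the conjugate on the sphere
  set φ : OnePoint ℂ ≃ₜ OnePoint ℂ := Φ.onePointCongr with hφ
  have hφc : ∀ z : ℂ, φ z = (Φ z : ℂ) := fun z => rfl
  have hsp : (fun w => φ (G (φ.symm w))) = sp x' := by
    apply hxu
    · exact φ.continuous.comp (hqm.cont.comp φ.symm.continuous)
    · intro w hw
      obtain ⟨z, rfl⟩ := Φ.surjective w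
      have hz : z ∉ Z := fun hz => hw ((hQ0 z).2 hz)
      show φ (G (φ.symm (Φ z : ℂ))) = _
      rw [← hφc, φ.symm_apply_apply, hqm.npole z hz, hφc]
      congr 1
      rw [hP'', Polynomial.eval_mul, Polynomial.eval_C, hP2 z hz, hQe]
      have h7 : ∏ p ∈ Z, (Φ z - Φ p) ≠ 0 := by
        rw [hQe] at hw
        exact right_ne_zero_of_mul hw
      field_simp [hg.lc0]
  have hconj : ∀ z, sp x' (φ z) = φ (G z) := by
    intro z
    rw [← hsp]
    simp only [Homeomorph.symm_apply_apply]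
  refine ⟨Φ, x', P', hx', fun hyp => hyp_conj φ hconj fun c hc => ?_, h1, ?_, ⟨?_, ?_, ?_⟩, ?_, ?_,
    hx0, hx1, ?_⟩
  · exact dyn hqm.cont (Pool.Agent.H790R3.RB.SP.sp_cont hynd) D.Uo
      (Dm_closed D.χs.continuous a0) D.UD D.tr D.at' hGU hGH hy2 hGDm hyp hc
  · intro z hz
    refine (h2 z hz).trans ?_
    have := norm_nonneg z
    nlinarith
  · intro z hz
    rw [hconj, hGU z hz]
  · intro z hz
    rw [hconj, hGH z hz]
  · intro z hz
    rw [hconj]
    exact ⟨_, hGDm z hz, rfl⟩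
  · exact h6 _ hqm.Vopen fun K z hz => pbm_V hqm K z hz
  · rw [← hg.card]
    exact hP1
  · intro z hz hZ
    rw [hP2 z hZ, huU z hz]

end

end Pool.Agent.Helper23T
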