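import Pool.Agent.H790R3.RB.St2

/-!
# Trapping regions in the basins of attraction
-/

set_option autoImplicit false
set_option linter.unusedSectionVars false

open Set Filter Topology Metric
open scoped OnePoint

noncomputable section

namespace Pool.Agent.Helper23T

open Pool.Agent.H790R3.RB (Sink Attd)

variable {f : OnePoint ℂ → OnePoint ℂ}

theorem sink_pred (hf : Continuous f) {n : ℕ} {b : OnePoint ℂ} (h : Sink f n b) :
    Sink f n (f^[n - 1] b) ∧ f (f^[n - 1] b) = b := by
  obtain ⟨hn, hfix, U, hU, hUV⟩ := h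
  have h1 : f (f^[n - 1] b) = b := by
    rw [← Function.iterate_succ_apply' f]
    have : (n - 1).succ = n := by omega
    rw [this, hfix]
  refine ⟨⟨hn, ?_, f ⁻¹' U, ?_, fun V hV => ?_⟩, h1⟩
  · rw [← Function.iterate_add_apply, add_comm, Function.iterate_add_apply, hfix]
  · refine hf.continuousAt.preimage_mem_nhds ?_
    rw [h1]
    exact hU
  · have hV' : f^[n - 1] ⁻¹' V ∈ 𝓝 b := (hf.iterate _).continuousAt.preimage_mem_nhds hV
    have h2 := hUV _ hV'
    rw [eventually_atTop] at h2 ⊢
    obtain ⟨N, hN⟩ := h2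
    refine ⟨N + 1, fun k hk w hw => ?_⟩
    obtain ⟨k, rfl⟩ : ∃ k', k = k' + 1 := ⟨k - 1, by omega⟩
    have h3 := hN k (by omega) (f w) hw
    have e : n * (k + 1) = (n - 1) + (n * k + 1) := by
      rw [mul_add]
      omega
    rw [e, Function.iterate_add_apply, Function.iterate_succ_apply]
    exact h3

theorem sink_succ (hf : Continuous f) {n : ℕ} {a : OnePoint ℂ} (h : Sink f n a) :
    Sink f n (f a) := by
  obtain ⟨hn, hfix, U, hU, hUV⟩ := h
  have h1 : f^[n - 1] (f a) = a := by
    rw [← Function.iterate_succ_apply]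
    have : (n - 1).succ = n := by omega
    rw [this, hfix]
  refine ⟨hn, ?_, f^[n - 1] ⁻¹' U, ?_, fun V hV => ?_⟩
  · rw [← Function.iterate_succ_apply, Function.iterate_succ_apply', hfix]
  · refine (hf.iterate _).continuousAt.preimage_mem_nhds ?_
    rw [h1]
    exact hU
  · have hV' : f ⁻¹' V ∈ 𝓝 a := hf.continuousAt.preimage_mem_nhds hV
    have h2 := hUV _ hV'
    rw [eventually_atTop] at h2 ⊢
    obtain ⟨N, hN⟩ := h2
    refine ⟨N + 1, fun k hk w hw => ?_⟩
    obtain ⟨k, rfl⟩ : ∃ k', k = k' + 1 := ⟨k - 1, by omega⟩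
    have h3 := hN k (by omega) (f^[n - 1] w) hw
    have e : n * (k + 1) = (n * k + (n - 1)) + 1 := by
      rw [mul_add]
      omega
    rw [e, Function.iterate_succ_apply', Function.iterate_add_apply]
    exact h3

theorem attd_of_succ (hf : Continuous f) {z : OnePoint ℂ} (h : Attd f (f z)) : Attd f z := by
  obtain ⟨n, b, hs, ht⟩ := h
  have hn := hs.1
  refine ⟨n, f^[n - 1] b, (sink_pred hf hs).1, ?_⟩
  rw [← tendsto_add_atTop_iff_nat 1]
  have h1 := ((hf.iterate (n - 1)).tendsto b).comp ht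
  refine h1.congr fun k => ?_
  have e : n * (k + 1) = (n - 1) + (n * k + 1) := by
    rw [mul_add]
    omega
  rw [e, Function.iterate_add_apply, Function.iterate_succ_apply]
  rfl

theorem attd_succ (hf : Continuous f) {z : OnePoint ℂ} (h : Attd f z) : Attd f (f z) := by
  obtain ⟨n, a, hs, ht⟩ := h
  refine ⟨n, f a, sink_succ hf hs, ?_⟩
  refine ((hf.tendsto a).comp ht).congr fun k => ?_
  rw [Function.comp_apply, ← Function.iterate_succ_apply' f, Function.iterate_succ_apply]

theorem attd_of_iter (hf : Continuous f) {z : OnePoint ℂ} (j : ℕ) (h : Attd f (f^[j] z)) :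
    Attd f z := by
  induction j generalizing z with
  | zero => exact h
  | succ j ih =>
    rw [Function.iterate_succ_apply] at h
    exact attd_of_succ hf (ih h)

/-- trapping neighbourhoods of attracting cycles -/
theorem sink_trap (hf : Continuous f) {n : ℕ} {a : OnePoint ℂ} (h : Sink f n a) :
    ∃ O : Set (OnePoint ℂ), IsOpen O ∧ a ∈ O ∧ (∀ z ∈ closure O, f z ∈ O) ∧
      ∀ z ∈ closure O, Attd f z := by
  obtain ⟨hn, hfix, U, hU, hUV⟩ := h
  obtain ⟨B, hB, hBc, hBU⟩ := exists_mem_nhds_isClosed_subset hU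
  obtain ⟨N, hN⟩ := eventually_atTop.1 (hUV (interior B) (interior_mem_nhds.2 hB))
  set m := n * (N + 1) with hm
  have hm0 : 0 < m := by positivity
  have hfm : ∀ w ∈ U, f^[m] w ∈ interior B := fun w hw => hN (N + 1) (by omega) w hw
  have hBk : IsCompact B := hBc.isCompact
  have hFc : IsClosed (f^[m] '' B) := (hBk.image (hf.iterate m)).isClosed
  have hdis : Disjoint (interior B)ᶜ (f^[m] '' B) := by
    rw [Set.disjoint_left]
    rintro _ h1 ⟨w, hw, rfl⟩
    exact h1 (hfm w (hBU hw))
  obtain ⟨θ, hθ0, hθ1, hθ⟩ := exists_continuous_zero_one_of_isClosed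
    isOpen_interior.isClosed_compl hFc hdis
  set W : ℕ → Set (OnePoint ℂ) := fun j => {z | (j : ℝ) / m < θ z} with hW
  have hWo : ∀ j, IsOpen (W j) := fun j => isOpen_lt continuous_const θ.continuous
  have hWc : ∀ j, closure (W (j + 1)) ⊆ W j := by
    intro j z hz
    have h1 : closure (W (j + 1)) ⊆ {z | ((j + 1 : ℕ) : ℝ) / m ≤ θ z} :=
      closure_minimal (fun z (hz : ((j + 1 : ℕ) : ℝ) / m < θ z) => hz.le)
        (isClosed_le continuous_const θ.continuous)
    have h2 : ((j + 1 : ℕ) : ℝ) / m ≤ θ z := h1 hz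
    have h3 : (j : ℝ) / m < ((j + 1 : ℕ) : ℝ) / m := by
      have : (0 : ℝ) < m := by exact_mod_cast hm0
      push_cast
      gcongr
      linarith
    exact lt_of_lt_of_le h3 h2
  have hW0 : W 0 ⊆ B := by
    intro z hz
    have h1 : 0 < θ z := by
      have : ((0 : ℕ) : ℝ) / m < θ z := hz
      simpa using this
    by_contra hc
    have h2 : θ z = 0 := hθ0 (fun h3 => hc (interior_subset h3))
    linarith
  have hWB : ∀ j, W j ⊆ B := by
    intro j
    induction j with
    | zero => exact hW0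
    | succ j ih => exact (subset_closure.trans (hWc j)).trans ih
  have hWm : ∀ j < m, f^[m] '' B ⊆ W j := by
    intro j hj z hz
    have h1 : θ z = 1 := hθ1 hz
    show (j : ℝ) / m < θ z
    rw [h1, div_lt_one (by exact_mod_cast hm0)]
    exact_mod_cast hj
  set O : Set (OnePoint ℂ) := ⋃ j ∈ Iio m, f^[j] ⁻¹' W j with hO
  have hcl : closure O = ⋃ j ∈ Iio m, closure (f^[j] ⁻¹' W j) := by
    rw [hO, (finite_Iio m).closure_biUnion]
  have hmem : ∀ {z : OnePoint ℂ} (j : ℕ), j < m → f^[j] z ∈ W j → z ∈ O := by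
    intro z j hj h1
    rw [hO]
    exact mem_biUnion (show j ∈ Iio m from hj) h1
  have hclj : ∀ {z : OnePoint ℂ}, z ∈ closure O → ∃ j < m, f^[j] z ∈ closure (W j) := by
    intro z hz
    rw [hcl, mem_iUnion₂] at hz
    obtain ⟨j, hj, hz⟩ := hz
    exact ⟨j, hj, closure_minimal (preimage_mono subset_closure)
      (isClosed_closure.preimage (hf.iterate j)) hz⟩
  have hmaps : ∀ z ∈ closure O, f z ∈ O := by
    intro z hz
    obtain ⟨j, hj, h1⟩ := hclj hz
    rcases Nat.eq_zero_or_pos j with h0 | h0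
    · subst h0
      have h2 : z ∈ B := closure_minimal hW0 hBc h1
      refine hmem (m - 1) (by omega) ?_
      apply hWm (m - 1) (by omega)
      refine ⟨z, h2, ?_⟩
      rw [← Function.iterate_succ_apply]
      congr 1
      omega
    · refine hmem (j - 1) (by omega) ?_
      rw [← Function.iterate_succ_apply]
      have e : (j - 1).succ = j := by omega
      rw [e]
      apply hWc (j - 1)
      have e' : j - 1 + 1 = j := by omega
      rw [e']
      exact h1
  refine ⟨O, ?_, ?_, hmaps, ?_⟩
  · exact isOpen_biUnion fun j _ => (hWo j).preimage (hf.iterate j)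
  · refine hmem 0 hm0 ?_
    apply hWm 0 hm0
    refine ⟨a, mem_of_mem_nhds hB, ?_⟩
    show f^[m] a = a
    rw [hm, Function.iterate_mul]
    exact Function.iterate_fixed hfix _
  · intro z hz
    obtain ⟨j, hj, h1⟩ := hclj hz
    have h2 : f^[j] z ∈ B := closure_minimal (hWB j) hBc h1
    refine attd_of_iter hf j ⟨n, a, ⟨hn, hfix, U, hU, hUV⟩, ?_⟩
    rw [Filter.tendsto_def]
    intro V hV
    filter_upwards [hUV V hV] with k hk
    exact hk _ (hBU h2)

/-- trapping neighbourhoods of compact sets of attracted points -/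
theorem trap (hf : Continuous f) {K : Set (OnePoint ℂ)} (hK : IsCompact K)
    (hKa : ∀ z ∈ K, Attd f z) : ∃ U : Set (OnePoint ℂ), IsOpen U ∧ K ⊆ U ∧
      (∀ z ∈ closure U, f z ∈ U) ∧ ∀ z ∈ closure U, Attd f z := by
  refine hK.induction_on (p := fun K => ∃ U : Set (OnePoint ℂ), IsOpen U ∧ K ⊆ U ∧
      (∀ z ∈ closure U, f z ∈ U) ∧ ∀ z ∈ closure U, Attd f z) ?_ ?_ ?_ ?_
  · refine ⟨∅, isOpen_empty, subset_rfl, ?_, ?_⟩ <;>
      · rw [closure_empty]
        intro z hz
        exact absurd hz (notMem_empty z)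
  · rintro s t hst ⟨U, h1, h2, h3, h4⟩
    exact ⟨U, h1, hst.trans h2, h3, h4⟩
  · rintro s t ⟨U, h1, h2, h3, h4⟩ ⟨U', h1', h2', h3', h4'⟩
    refine ⟨U ∪ U', h1.union h1', union_subset_union h2 h2', ?_, ?_⟩
    · intro z hz
      rw [closure_union] at hz
      rcases hz with hz | hz
      · exact Or.inl (h3 z hz)
      · exact Or.inr (h3' z hz)
    · intro z hz
      rw [closure_union] at hz
      rcases hz with hz | hz
      · exact h4 z hz
      · exact h4' z hz
  · intro z hz
    obtain ⟨n, a, hs, ht⟩ := hKa z hz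
    obtain ⟨O, hOo, haO, hOf, hOa⟩ := sink_trap hf hs
    obtain ⟨k, hk⟩ := (ht.eventually (hOo.mem_nhds haO)).exists
    set j := n * k with hj
    refine ⟨f^[j] ⁻¹' O, mem_nhdsWithin_of_mem_nhds
      ((hOo.preimage (hf.iterate j)).mem_nhds hk), f^[j] ⁻¹' O, hOo.preimage (hf.iterate j),
      subset_rfl, ?_, ?_⟩
    · intro w hw
      have h1 : f^[j] w ∈ closure O :=
        closure_minimal (preimage_mono subset_closure)
          (isClosed_closure.preimage (hf.iterate j)) hw
      show f^[j] (f w) ∈ O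
      rw [← Function.iterate_succ_apply, Function.iterate_succ_apply']
      exact hOf _ h1
    · intro w hw
      have h1 : f^[j] w ∈ closure O :=
        closure_minimal (preimage_mono subset_closure)
          (isClosed_closure.preimage (hf.iterate j)) hw
      exact attd_of_iter hf j (hOa _ h1)

end Pool.Agent.Helper23T
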